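import Pool.Agent.Lib.MP_009d13_co.P5.Defs2

/-!
# Paths with five edges in planar graphs: the weight of an edge is at most the bound of each end
-/

set_option autoImplicit false

namespace Pool.Agent.Lib.MP_009d13_co.P5

open Finset Classical

theorem BED2.tt_zero {V : Type} [Fintype V] (G : SimpleGraph V) (H : Finset V) (a : V)
    (h : H.erase a = ∅) : tt G H a = 0 := by
  unfold tt
  rw [h, sum_empty]

theorem BED2.ph_le_gg {V : Type} [Fintype V] (G : SimpleGraph V) (H : Finset V) {a b : V}
    (h : b ∈ H.erase a) : ph G H a b ≤ gg G H a := by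
  unfold gg
  exact Finset.le_sup (f := fun b => ph G H a b) h

theorem BED2.tt_le_gg {V : Type} [Fintype V] (G : SimpleGraph V) (H : Finset V) (a : V) :
    tt G H a ≤ gg G H a := by
  rcases (H.erase a).eq_empty_or_nonempty with h | ⟨b, hb⟩
  · rw [BED2.tt_zero G H a h]
    exact Nat.zero_le _
  · refine le_trans ?_ (BED2.ph_le_gg G H hb)
    unfold ph
    omega

theorem BED2.two_le_f0 {V : Type} [Fintype V] (G : SimpleGraph V) (H : Finset V) {a b : V}
    (ha : a ∈ H) (h : b ∈ H.erase a) : tt G H a + tt G H b ≤ f0 G H := by
  unfold f0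
  refine le_trans ?_ (Finset.le_sup (f := fun a => (H.erase a).sup fun b => tt G H a + tt G H b) ha)
  exact Finset.le_sup (f := fun b => tt G H a + tt G H b) h

theorem BED2.tt_le_f0 {V : Type} [Fintype V] (G : SimpleGraph V) (H : Finset V) {a : V}
    (ha : a ∈ H) : tt G H a ≤ f0 G H := by
  rcases (H.erase a).eq_empty_or_nonempty with h | ⟨b, hb⟩
  · rw [BED2.tt_zero G H a h]
    exact Nat.zero_le _
  · exact le_trans (Nat.le_add_right _ _) (BED2.two_le_f0 G H ha hb)

theorem om_comm {V : Type} [Fintype V] (G : SimpleGraph V) (H : Finset V) (z z' : V) :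
    om G H z z' = om G H z' z := by
  have h : ∑ h ∈ kk G H z, ∑ h' ∈ (kk G H z').erase h, dd G H h * dd G H h' =
      ∑ h ∈ kk G H z', ∑ h' ∈ (kk G H z).erase h, dd G H h * dd G H h' := by
    rw [sum_comm' (t' := kk G H z') (s' := fun h' => (kk G H z).erase h')]
    · refine sum_congr rfl fun x _ => sum_congr rfl fun y _ => ?_
      exact mul_comm _ _
    · intro x y
      simp only [mem_erase]
      constructor
      · rintro ⟨h1, h2, h3⟩
        exact ⟨⟨fun h => h2 h.symm, h1⟩, h3⟩
      · rintro ⟨⟨h1, h2⟩, h3⟩
        exact ⟨h2, fun h => h1 h.symm, h3⟩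
  unfold om
  rw [h]
  ring

theorem om_le_ff {V : Type} [Fintype V] (G : SimpleGraph V) (H : Finset V) (z z' : V)
    (h : (kk G H z ∪ kk G H z').card ≤ 2) : om G H z z' ≤ ff G H z := by
  have hz : kk G H z ⊆ H := inter_subset_right
  have hz' : kk G H z' ⊆ H := inter_subset_right
  unfold om ff
  generalize kk G H z = A at *
  generalize kk G H z' = B at *
  have hA : A.card ≤ 2 := (card_le_card subset_union_left).trans h
  split_ifs with c2 c1
  · -- two hubs
    obtain ⟨a, b, hab, rfl⟩ := card_eq_two.1 c2
    have hB : B ⊆ {a, b} := by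
      intro x hx
      have h1 : ({a, b} : Finset V) ∪ B = {a, b} := by
        symm
        refine eq_of_subset_of_card_le subset_union_left ?_
        rw [c2]
        exact h
      rw [← h1]
      exact mem_union_right _ hx
    have hba : b ≠ a := hab.symm
    have e1 : ({a, b} : Finset V).erase a = {b} := by
      ext x
      simp only [mem_erase, mem_insert, mem_singleton]
      constructor
      · rintro ⟨h1, h2 | h2⟩
        · exact absurd h2 h1
        · exact h2
      · rintro rfl
        exact ⟨hba, Or.inr rfl⟩
    have e2 : ({a, b} : Finset V).erase b = {a} := by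
      ext x
      simp only [mem_erase, mem_insert, mem_singleton]
      constructor
      · rintro ⟨h1, h2 | h2⟩
        · exact h2
        · exact absurd h2 h1
      · rintro rfl
        exact ⟨hab, Or.inl rfl⟩
    have s1 : ∑ h ∈ B, tt G H h ≤ tt G H a + tt G H b := by
      refine (sum_le_sum_of_subset hB).trans (le_of_eq ?_)
      rw [sum_pair hab]
    have s2 : ∑ h' ∈ B.erase a, dd G H a * dd G H h' ≤ dd G H a * dd G H b := by
      refine (sum_le_sum_of_subset (erase_subset_erase a hB)).trans (le_of_eq ?_)
      rw [e1, sum_singleton]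
    have s3 : ∑ h' ∈ B.erase b, dd G H b * dd G H h' ≤ dd G H b * dd G H a := by
      refine (sum_le_sum_of_subset (erase_subset_erase b hB)).trans (le_of_eq ?_)
      rw [e2, sum_singleton]
    rw [sum_pair hab, sum_pair hab, sum_pair hab, e1, e2, sum_singleton, sum_singleton]
    unfold ph
    have s4 : dd G H b * dd G H a = dd G H a * dd G H b := mul_comm _ _
    omega
  · -- one hub
    obtain ⟨a, rfl⟩ := card_eq_one.1 c1
    rw [sum_singleton, sum_singleton, sum_singleton]
    have haH : a ∈ H := hz (mem_singleton_self a)
    rcases (B.erase a).eq_empty_or_nonempty with hb | ⟨b, hb⟩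
    · rw [hb, sum_empty]
      have hBa : B ⊆ {a} := by
        intro x hx
        rw [mem_singleton]
        by_contra hc
        have : x ∈ B.erase a := mem_erase.2 ⟨hc, hx⟩
        rw [hb] at this
        exact absurd this (notMem_empty _)
      have s1 : ∑ h ∈ B, tt G H h ≤ tt G H a := by
        refine (sum_le_sum_of_subset hBa).trans (le_of_eq ?_)
        rw [sum_singleton]
      have := BED2.tt_le_gg G H a
      omega
    · have hba : b ≠ a := (mem_erase.1 hb).1
      have hbB : b ∈ B := (mem_erase.1 hb).2
      have hsub : ({a, b} : Finset V) ⊆ {a} ∪ B := by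
        intro x hx
        rw [mem_insert, mem_singleton] at hx
        rcases hx with rfl | rfl
        · exact mem_union_left _ (mem_singleton_self _)
        · exact mem_union_right _ hbB
      have hcard : ({a, b} : Finset V).card = 2 := card_pair hba.symm
      have heq : ({a, b} : Finset V) = {a} ∪ B :=
        eq_of_subset_of_card_le hsub (by rw [hcard]; exact h)
      have hB : B ⊆ {a, b} := by
        rw [heq]
        exact subset_union_right
      have e1 : ({a, b} : Finset V).erase a = {b} := by
        ext x
        simp only [mem_erase, mem_insert, mem_singleton]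
        constructor
        · rintro ⟨h1, h2 | h2⟩
          · exact absurd h2 h1
          · exact h2
        · rintro rfl
          exact ⟨hba, Or.inr rfl⟩
      have s1 : ∑ h ∈ B, tt G H h ≤ tt G H a + tt G H b := by
        refine (sum_le_sum_of_subset hB).trans (le_of_eq ?_)
        rw [sum_pair hba.symm]
      have s2 : ∑ h' ∈ B.erase a, dd G H a * dd G H h' ≤ dd G H a * dd G H b := by
        refine (sum_le_sum_of_subset (erase_subset_erase a hB)).trans (le_of_eq ?_)
        rw [e1, sum_singleton]
      have s3 : ph G H a b ≤ gg G H a := BED2.ph_le_gg G H (mem_erase.2 ⟨hba, hz' hbB⟩)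
      unfold ph at s3
      omega
  · -- no hub
    have hA0 : A = ∅ := by
      rw [← card_eq_zero]
      omega
    subst hA0
    rw [sum_empty, sum_empty, zero_add, add_zero]
    rw [empty_union] at h
    rcases Nat.lt_or_ge B.card 2 with h1 | h1
    · rcases Nat.lt_or_ge B.card 1 with h2 | h2
      · have : B = ∅ := by
          rw [← card_eq_zero]
          omega
        rw [this, sum_empty]
        exact Nat.zero_le _
      · obtain ⟨b, rfl⟩ := card_eq_one.1 (by omega : B.card = 1)
        rw [sum_singleton]
        exact BED2.tt_le_f0 G H (hz' (mem_singleton_self b))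
    · obtain ⟨a, b, hab, rfl⟩ := card_eq_two.1 (by omega : B.card = 2)
      rw [sum_pair hab]
      exact BED2.two_le_f0 G H (hz' (by simp)) (mem_erase.2 ⟨hab.symm, hz' (by simp)⟩)

end Pool.Agent.Lib.MP_009d13_co.P5
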