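import Pool.Agent.Lib.MP_009d13_co.P5.Defs2

/-!
# The capacity of the small vertices, and the sum of `ff`
-/

set_option autoImplicit false

namespace Pool.Agent.Lib.MP_009d13_co.P5

open Finset Classical

noncomputable section

theorem bed3_card_pr {V : Type} [Fintype V] (G : SimpleGraph V) (Z H : Finset V) :
    (pr G Z H).card = ∑ z ∈ Z, (kk G H z).card := by
  have h : pr G Z H = (Z ×ˢ H).filter fun p => G.Adj p.1 p.2 := by
    ext p
    simp [pr, and_assoc]
  rw [h, card_filter, sum_product]
  apply sum_congr rfl
  intro z _
  rw [← card_filter]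
  congr 1
  ext y
  simp [kk, nb, and_comm]

theorem bed3_card_pr_swap {V : Type} [Fintype V] (G : SimpleGraph V) (Z H : Finset V) :
    (pr G H Z).card = (pr G Z H).card := by
  refine Finset.card_nbij' Prod.swap Prod.swap ?_ ?_ ?_ ?_
  · intro p hp
    simp only [pr, coe_filter, mem_univ, true_and, Set.mem_ofPred_eq, Prod.fst_swap,
      Prod.snd_swap] at hp ⊢
    exact ⟨hp.2.1, hp.1, hp.2.2.symm⟩
  · intro p hp
    simp only [pr, coe_filter, mem_univ, true_and, Set.mem_ofPred_eq, Prod.fst_swap,
      Prod.snd_swap] at hp ⊢
    exact ⟨hp.2.1, hp.1, hp.2.2.symm⟩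
  · intro p _
    exact Prod.swap_swap p
  · intro p _
    exact Prod.swap_swap p

theorem cap {V : Type} [Fintype V] (G : SimpleGraph V) (hS : Sparse6 G) (H Z : Finset V)
    (hZ : Disjoint Z H) (h2 : ∀ z ∈ Z, (kk G H z).card ≤ 2) :
    (pr G Z Z).card ≤ 2 * (∑ z ∈ Z, (3 - (kk G H z).card) + 3 * H.card) := by
  have hdis : ∀ v, v ∈ Z → v ∈ H → False := fun v h1 h3 =>
    (Finset.disjoint_left.mp hZ) h1 h3
  have h1 := hS (Z ∪ H)
  rw [card_union_of_disjoint hZ] at h1
  have hd1 : Disjoint (pr G Z H) (pr G H Z) := by
    rw [Finset.disjoint_left]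
    intro p hp hq
    simp only [pr, mem_filter, mem_univ, true_and] at hp hq
    exact hdis _ hp.1 hq.1
  have hd2 : Disjoint (pr G Z Z) (pr G Z H ∪ pr G H Z) := by
    rw [Finset.disjoint_left]
    intro p hp hq
    simp only [pr, mem_filter, mem_univ, true_and, mem_union] at hp hq
    rcases hq with hq | hq
    · exact hdis _ hp.2.1 hq.2.1
    · exact hdis _ hp.1 hq.1
  have hsub : pr G Z Z ∪ (pr G Z H ∪ pr G H Z) ⊆ pr G (Z ∪ H) (Z ∪ H) := by
    intro p hp
    simp only [pr, mem_filter, mem_univ, true_and, mem_union] at hp ⊢
    tauto
  have h3 := card_le_card hsub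
  rw [card_union_of_disjoint hd2, card_union_of_disjoint hd1, bed3_card_pr_swap G Z H,
    bed3_card_pr G Z H] at h3
  have h4 : ∑ z ∈ Z, (3 - (kk G H z).card) + ∑ z ∈ Z, (kk G H z).card = 3 * Z.card := by
    rw [← sum_add_distrib, sum_congr rfl (g := fun _ => 3), sum_const, smul_eq_mul, mul_comm]
    intro z hz
    have := h2 z hz
    omega
  omega

/-- the sum of `ff` over the small vertices with at most two hubs -/
theorem sum_ff {V : Type} [Fintype V] (G : SimpleGraph V) (H W : Finset V) (hW : Disjoint W H)
    (h2 : ∀ z ∈ W, (kk G H z).card ≤ 2) :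
    ∑ z ∈ W, (3 - (kk G H z).card) * ff G H z
      ≤ (∑ a ∈ H, ∑ b ∈ H.erase a, n2 G H a b * ph G H a b)
        + 2 * (∑ a ∈ H, n1 G H a * (tt G H a + gg G H a)) + 3 * (n0 G H * f0 G H) := by
  have hkH : ∀ z, kk G H z ⊆ H := fun z => inter_subset_right
  have hWc : W ⊆ Hᶜ := by
    intro z hz
    rw [mem_compl]
    exact Finset.disjoint_left.mp hW hz
  have hpt : ∀ z ∈ W, (3 - (kk G H z).card) * ff G H z
      ≤ (∑ a ∈ H, ∑ b ∈ H.erase a, if kk G H z = {a, b} then ph G H a b else 0)
        + 2 * (∑ a ∈ H, if kk G H z = {a} then tt G H a + gg G H a else 0)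
        + 3 * (if kk G H z = ∅ then f0 G H else 0) := by
    intro z hz
    have hz2 := h2 z hz
    by_cases hc2 : (kk G H z).card = 2
    · have hff : ff G H z = ∑ a ∈ kk G H z, ∑ b ∈ (kk G H z).erase a, ph G H a b := by
        rw [ff, if_pos hc2]
      rw [hc2, hff]
      have hle : ∑ a ∈ kk G H z, ∑ b ∈ (kk G H z).erase a, ph G H a b
          ≤ ∑ a ∈ H, ∑ b ∈ H.erase a, if kk G H z = {a, b} then ph G H a b else 0 := by
        calc ∑ a ∈ kk G H z, ∑ b ∈ (kk G H z).erase a, ph G H a b
            ≤ ∑ a ∈ kk G H z, ∑ b ∈ H.erase a,
                (if kk G H z = {a, b} then ph G H a b else 0) := by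
              apply sum_le_sum
              intro a ha
              calc ∑ b ∈ (kk G H z).erase a, ph G H a b
                  = ∑ b ∈ (kk G H z).erase a,
                    (if kk G H z = {a, b} then ph G H a b else 0) := by
                    apply sum_congr rfl
                    intro b hb
                    rw [mem_erase] at hb
                    have hab : kk G H z = {a, b} := by
                      symm
                      apply eq_of_subset_of_card_le
                      · intro c hc
                        rw [mem_insert, mem_singleton] at hc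
                        rcases hc with rfl | rfl
                        · exact ha
                        · exact hb.2
                      · rw [hc2, card_pair hb.1.symm]
                    rw [if_pos hab]
                _ ≤ _ := sum_le_sum_of_subset (erase_subset_erase a (hkH z))
          _ ≤ _ := sum_le_sum_of_subset (hkH z)
      omega
    · by_cases hc1 : (kk G H z).card = 1
      · have hff : ff G H z = ∑ a ∈ kk G H z, (tt G H a + gg G H a) := by
          rw [ff, if_neg hc2, if_pos hc1]
        rw [hc1, hff]
        have hle : ∑ a ∈ kk G H z, (tt G H a + gg G H a)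
            ≤ ∑ a ∈ H, if kk G H z = {a} then tt G H a + gg G H a else 0 := by
          calc ∑ a ∈ kk G H z, (tt G H a + gg G H a)
              = ∑ a ∈ kk G H z, if kk G H z = {a} then tt G H a + gg G H a else 0 := by
                apply sum_congr rfl
                intro a ha
                have hab : kk G H z = {a} := by
                  symm
                  apply eq_of_subset_of_card_le
                  · intro c hc
                    rw [mem_singleton] at hc
                    rw [hc]
                    exact ha
                  · rw [hc1, card_singleton]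
                rw [if_pos hab]
            _ ≤ _ := sum_le_sum_of_subset (hkH z)
        omega
      · have hc0 : (kk G H z).card = 0 := by omega
        have hff : ff G H z = f0 G H := by
          rw [ff, if_neg hc2, if_neg hc1]
        have he : kk G H z = ∅ := card_eq_zero.mp hc0
        rw [hff, if_pos he, hc0]
        omega
  refine (sum_le_sum hpt).trans ?_
  rw [sum_add_distrib, sum_add_distrib]
  refine Nat.add_le_add (Nat.add_le_add ?_ ?_) ?_
  · rw [sum_comm]
    apply sum_le_sum
    intro a _
    rw [sum_comm]
    apply sum_le_sum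
    intro b _
    rw [← sum_filter, sum_const, smul_eq_mul]
    apply Nat.mul_le_mul_right
    exact card_le_card (filter_subset_filter _ hWc)
  · rw [← mul_sum]
    apply Nat.mul_le_mul_left
    rw [sum_comm]
    apply sum_le_sum
    intro a _
    rw [← sum_filter, sum_const, smul_eq_mul]
    apply Nat.mul_le_mul_right
    exact card_le_card (filter_subset_filter _ hWc)
  · rw [← mul_sum]
    apply Nat.mul_le_mul_left
    rw [← sum_filter, sum_const, smul_eq_mul]
    apply Nat.mul_le_mul_right
    exact card_le_card (filter_subset_filter _ hWc)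

end

end Pool.Agent.Lib.MP_009d13_co.P5
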