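import Pool.Agent.Lib.MP_009d13_co.P5.Defs2

/-!
# Small cases of: no minor `K_{3,3}`
-/

set_option autoImplicit false

namespace Pool.Agent.Lib.MP_009d13_co.P5

open Finset Classical

noncomputable section

theorem pair_connected {V : Type} (G : SimpleGraph V) {x y : V} (h : x = y ∨ G.Adj x y) :
    (G.induce ({x, y} : Set V)).Connected := by
  rcases h with rfl | h
  · rw [Set.pair_eq_singleton]
    have : Nonempty ({x} : Set V) := ⟨⟨x, rfl⟩⟩
    have : Subsingleton ({x} : Set V) := ⟨fun u v => Subtype.ext (u.2.trans v.2.symm)⟩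
    exact SimpleGraph.Connected.mk SimpleGraph.Preconnected.of_subsingleton
  · exact SimpleGraph.induce_pair_connected_of_adj h

theorem noK33m_of_planar {V : Type} [Fintype V] (G : SimpleGraph V) (h : IsPlanar G) :
    NoK33m G := by
  intro a z z' ha h1 h2 h3 h4
  apply h.2
  refine ⟨Sum.elim (fun i => {a i, a i}) (fun i => {z i, z' i}), ?_, ?_, ?_⟩
  · rintro (i | i)
    · exact pair_connected G (Or.inl rfl)
    · exact pair_connected G (h1 i)
  · rintro (i | i) (j | j) hij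
    · have : i ≠ j := fun h => hij (by rw [h])
      have h5 : a i ≠ a j := fun h => this (ha h)
      simp [h5]
    · simp only [Sum.elim_inl, Sum.elim_inr]
      rw [Set.disjoint_left]
      rintro x hx hx'
      simp only [Set.mem_insert_iff, Set.mem_singleton_iff, or_self] at hx hx'
      subst hx
      rcases hx' with h | h
      · exact (h3 i j).1 h
      · exact (h3 i j).2 h
    · simp only [Sum.elim_inl, Sum.elim_inr]
      rw [Set.disjoint_left]
      rintro x hx' hx
      simp only [Set.mem_insert_iff, Set.mem_singleton_iff, or_self] at hx hx'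
      subst hx
      rcases hx' with h | h
      · exact (h3 j i).1 h
      · exact (h3 j i).2 h
    · have : i ≠ j := fun h => hij (by rw [h])
      simp only [Sum.elim_inr]
      rw [Set.disjoint_left]
      rintro x hx hx'
      simp only [Set.mem_insert_iff, Set.mem_singleton_iff] at hx hx'
      have h5 := h2 i j this
      have h6 := h2 j i this.symm
      rcases hx with rfl | rfl <;> rcases hx' with h | h
      · exact h5.1 h
      · exact h5.2.1 h
      · exact h6.2.1 h.symm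
      · exact h5.2.2 h
  · rintro (i | i) (j | j) hij
    · simp [completeBipartiteGraph] at hij
    · simp only [Sum.elim_inl, Sum.elim_inr]
      refine ⟨a i, by simp, ?_⟩
      rcases h4 i j with h | h
      · exact ⟨z j, by simp, h⟩
      · exact ⟨z' j, by simp, h⟩
    · simp only [Sum.elim_inl, Sum.elim_inr]
      rcases h4 j i with h | h
      · exact ⟨z i, by simp, a j, by simp, h.symm⟩
      · exact ⟨z' i, by simp, a j, by simp, h.symm⟩
    · simp [completeBipartiteGraph] at hij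

theorem three_common {V : Type} [Fintype V] (G : SimpleGraph V) (h : NoK33m G) {a b c : V}
    (hab : a ≠ b) (hac : a ≠ c) (hbc : b ≠ c) : (nb G a ∩ nb G b ∩ nb G c).card ≤ 2 := by
  by_contra hcon
  push Not at hcon
  obtain ⟨x, hx, y, hy, w, hw, hxy, hxw, hyw⟩ := Finset.two_lt_card.1 hcon
  simp only [nb, mem_inter, mem_filter, mem_univ, true_and] at hx hy hw
  refine h ![a, b, c] ![x, y, w] ![x, y, w] ?_ (fun i => Or.inl rfl) ?_ ?_ ?_
  · intro i j hij
    fin_cases i <;> fin_cases j <;> simp_all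
  · intro i j hij
    fin_cases i <;> fin_cases j <;> simp_all [Ne.symm]
  · intro i j
    have e1 := hx.1.1.ne
    have e2 := hx.1.2.ne
    have e3 := hx.2.ne
    have e4 := hy.1.1.ne
    have e5 := hy.1.2.ne
    have e6 := hy.2.ne
    have e7 := hw.1.1.ne
    have e8 := hw.1.2.ne
    have e9 := hw.2.ne
    fin_cases i <;> fin_cases j <;> simp_all
  · intro i j
    left
    fin_cases i <;> fin_cases j <;> simp_all

/-- `z z'` is a vertex or an edge outside `H` such that `a`, `b`, `c` see `z` or `z'` -/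
def Bad {V : Type} (G : SimpleGraph V) (H : Finset V) (a b c z z' : V) : Prop :=
  z ∉ H ∧ z' ∉ H ∧ (z = z' ∨ G.Adj z z') ∧ (G.Adj a z ∨ G.Adj a z') ∧
    (G.Adj b z ∨ G.Adj b z') ∧ (G.Adj c z ∨ G.Adj c z')

theorem cover_triple {V : Type} [Fintype V] (G : SimpleGraph V) (h : NoK33m G) (H : Finset V)
    {a b c : V} (ha : a ∈ H) (hb : b ∈ H) (hc : c ∈ H) (hab : a ≠ b) (hac : a ≠ c)
    (hbc : b ≠ c) :
    ∃ Q : Finset V, Disjoint Q H ∧ Q.card ≤ 4 ∧ ∀ z z', Bad G H a b c z z' → z ∈ Q ∨ z' ∈ Q := by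
  by_cases hne : ∃ z z', Bad G H a b c z z'
  swap
  · refine ⟨∅, by simp, by simp, fun z z' hz => absurd ⟨z, z', hz⟩ hne⟩
  obtain ⟨x, x', hx⟩ := hne
  by_cases hne2 : ∃ z z', Bad G H a b c z z' ∧ z ∉ ({x, x'} : Finset V) ∧
      z' ∉ ({x, x'} : Finset V)
  swap
  · refine ⟨{x, x'}, ?_, ?_, ?_⟩
    · rw [Finset.disjoint_left]
      intro v hv
      simp only [mem_insert, mem_singleton] at hv
      rcases hv with rfl | rfl
      · exact hx.1
      · exact hx.2.1
    · exact le_trans Finset.card_le_two (by norm_num)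
    · intro z z' hz
      by_contra hcon
      rw [not_or] at hcon
      exact hne2 ⟨z, z', hz, hcon.1, hcon.2⟩
  obtain ⟨y, y', hy, hy1, hy2⟩ := hne2
  refine ⟨{x, x', y, y'}, ?_, Finset.card_le_four, ?_⟩
  · rw [Finset.disjoint_left]
    intro v hv
    simp only [mem_insert, mem_singleton] at hv
    rcases hv with rfl | rfl | rfl | rfl
    · exact hx.1
    · exact hx.2.1
    · exact hy.1
    · exact hy.2.1
  · intro w w' hw
    by_contra hcon
    rw [not_or] at hcon
    obtain ⟨hw1, hw2⟩ := hcon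
    simp only [mem_insert, mem_singleton, not_or] at hy1 hy2 hw1 hw2
    have key : ∀ {u v : V}, u ∈ H → v ∉ H → u ≠ v := fun hu hv h => hv (h ▸ hu)
    refine h ![a, b, c] ![x, y, w] ![x', y', w'] ?_ ?_ ?_ ?_ ?_
    · intro i j hij
      fin_cases i <;> fin_cases j <;> simp_all
    · intro i
      fin_cases i
      · exact hx.2.2.1
      · exact hy.2.2.1
      · exact hw.2.2.1
    · intro i j hij
      fin_cases i <;> fin_cases j
      · exact absurd rfl hij
      · exact ⟨Ne.symm hy1.1, Ne.symm hy2.1, Ne.symm hy2.2⟩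
      · exact ⟨Ne.symm hw1.1, Ne.symm hw2.1, Ne.symm hw2.2.1⟩
      · exact ⟨hy1.1, hy1.2, hy2.2⟩
      · exact absurd rfl hij
      · exact ⟨Ne.symm hw1.2.2.1, Ne.symm hw2.2.2.1, Ne.symm hw2.2.2.2⟩
      · exact ⟨hw1.1, hw1.2.1, hw2.2.1⟩
      · exact ⟨hw1.2.2.1, hw1.2.2.2, hw2.2.2.2⟩
      · exact absurd rfl hij
    · intro i j
      fin_cases i <;> fin_cases j
      · exact ⟨key ha hx.1, key ha hx.2.1⟩
      · exact ⟨key ha hy.1, key ha hy.2.1⟩
      · exact ⟨key ha hw.1, key ha hw.2.1⟩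
      · exact ⟨key hb hx.1, key hb hx.2.1⟩
      · exact ⟨key hb hy.1, key hb hy.2.1⟩
      · exact ⟨key hb hw.1, key hb hw.2.1⟩
      · exact ⟨key hc hx.1, key hc hx.2.1⟩
      · exact ⟨key hc hy.1, key hc hy.2.1⟩
      · exact ⟨key hc hw.1, key hc hw.2.1⟩
    · intro i j
      fin_cases i <;> fin_cases j
      · exact hx.2.2.2.1
      · exact hy.2.2.2.1
      · exact hw.2.2.2.1
      · exact hx.2.2.2.2.1
      · exact hy.2.2.2.2.1
      · exact hw.2.2.2.2.1
      · exact hx.2.2.2.2.2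
      · exact hy.2.2.2.2.2
      · exact hw.2.2.2.2.2

theorem exists_cover {V : Type} [Fintype V] (G : SimpleGraph V) (h : NoK33m G) (H : Finset V) :
    ∃ Q : Finset V, Disjoint Q H ∧ Q.card ≤ 4 * H.card ^ 3 ∧
      ∀ z z', z ∉ Q → z' ∉ Q → z ∉ H → z' ∉ H → (z = z' ∨ G.Adj z z') →
        (kk G H z ∪ kk G H z').card ≤ 2 := by
  have key : ∀ t : V × V × V, ∃ Q : Finset V, Disjoint Q H ∧ Q.card ≤ 4 ∧
      (t.1 ∈ H → t.2.1 ∈ H → t.2.2 ∈ H → t.1 ≠ t.2.1 → t.1 ≠ t.2.2 → t.2.1 ≠ t.2.2 →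
        ∀ z z', Bad G H t.1 t.2.1 t.2.2 z z' → z ∈ Q ∨ z' ∈ Q) := by
    intro t
    by_cases ht : t.1 ∈ H ∧ t.2.1 ∈ H ∧ t.2.2 ∈ H ∧ t.1 ≠ t.2.1 ∧ t.1 ≠ t.2.2 ∧ t.2.1 ≠ t.2.2
    · obtain ⟨h1, h2, h3, h4, h5, h6⟩ := ht
      obtain ⟨Q, hQ1, hQ2, hQ3⟩ := cover_triple G h H h1 h2 h3 h4 h5 h6
      exact ⟨Q, hQ1, hQ2, fun _ _ _ _ _ _ => hQ3⟩
    · refine ⟨∅, by simp, by simp, fun h1 h2 h3 h4 h5 h6 => absurd ⟨h1, h2, h3, h4, h5, h6⟩ ht⟩
  choose Q hQ1 hQ2 hQ3 using key
  refine ⟨(H ×ˢ (H ×ˢ H)).biUnion Q, ?_, ?_, ?_⟩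
  · rw [Finset.disjoint_biUnion_left]
    exact fun t _ => hQ1 t
  · refine le_trans Finset.card_biUnion_le ?_
    refine le_trans (Finset.sum_le_card_nsmul _ _ 4 fun t _ => hQ2 t) ?_
    rw [Finset.card_product, Finset.card_product, smul_eq_mul]
    apply le_of_eq
    ring
  · intro z z' hz hz' hzH hzH' hzz
    by_contra hcon
    push Not at hcon
    obtain ⟨a, ha, b, hb, c, hc, hab, hac, hbc⟩ := Finset.two_lt_card.1 hcon
    simp only [kk, nb, mem_union, mem_inter, mem_filter, mem_univ, true_and] at ha hb hc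
    have haH : a ∈ H := by rcases ha with h | h <;> exact h.2
    have hbH : b ∈ H := by rcases hb with h | h <;> exact h.2
    have hcH : c ∈ H := by rcases hc with h | h <;> exact h.2
    have hbad : Bad G H a b c z z' := by
      refine ⟨hzH, hzH', hzz, ?_, ?_, ?_⟩
      · exact ha.imp (fun h => h.1.symm) (fun h => h.1.symm)
      · exact hb.imp (fun h => h.1.symm) (fun h => h.1.symm)
      · exact hc.imp (fun h => h.1.symm) (fun h => h.1.symm)
    have hmem : (a, b, c) ∈ H ×ˢ (H ×ˢ H) := by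
      simp [haH, hbH, hcH]
    rcases hQ3 (a, b, c) haH hbH hcH hab hac hbc z z' hbad with h1 | h1
    · exact hz (Finset.mem_biUnion.2 ⟨_, hmem, h1⟩)
    · exact hz' (Finset.mem_biUnion.2 ⟨_, hmem, h1⟩)

end

end Pool.Agent.Lib.MP_009d13_co.P5
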