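import Pool.Agent.Lib.MP_009d13_co.P5.Defs2

/-!
# Module LAYER: the layer cake inequality for edge sums of minima
-/

set_option autoImplicit false

namespace Pool.Agent.Lib.MP_009d13_co.P5

open Finset Classical

noncomputable section

theorem layer {V : Type} (R : Finset (V × V)) (W : Finset V) (c f : V → ℕ) (c0 F : ℕ)
    (hf : ∀ z ∈ W, f z ≤ F) (hR : ∀ p ∈ R, p.1 ∈ W ∧ p.2 ∈ W)
    (h : ∀ Z ⊆ W, (R.filter fun p => p.1 ∈ Z ∧ p.2 ∈ Z).card ≤ 2 * (∑ z ∈ Z, c z + c0)) :
    ∑ p ∈ R, min (f p.1) (f p.2) ≤ 2 * (∑ z ∈ W, c z * f z + c0 * F) := by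
  have h1 : ∀ p ∈ R, min (f p.1) (f p.2)
      = ∑ t ∈ range F, if t < f p.1 ∧ t < f p.2 then 1 else 0 := by
    intro p hp
    rw [← Finset.sum_filter, Finset.sum_const, smul_eq_mul, mul_one]
    have h2 : (range F).filter (fun t => t < f p.1 ∧ t < f p.2) = range (min (f p.1) (f p.2)) := by
      ext t
      rw [Finset.mem_filter, Finset.mem_range, Finset.mem_range, lt_min_iff]
      constructor
      · exact fun h => h.2
      · intro h
        exact ⟨h.1.trans_le (hf _ (hR p hp).1), h⟩
    rw [h2, Finset.card_range]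
  rw [Finset.sum_congr rfl h1, Finset.sum_comm]
  have h3 : ∀ t ∈ range F, ∑ p ∈ R, (if t < f p.1 ∧ t < f p.2 then 1 else 0)
      ≤ 2 * (∑ z ∈ W, (if t < f z then c z else 0) + c0) := by
    intro t _
    have h4 := h (W.filter fun z => t < f z) (Finset.filter_subset _ _)
    rw [Finset.sum_filter] at h4
    refine le_trans (le_of_eq ?_) h4
    rw [← Finset.sum_filter, Finset.sum_const, smul_eq_mul, mul_one]
    congr 1
    apply Finset.filter_congr
    intro p hp
    simp only [Finset.mem_filter]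
    constructor
    · intro h5
      exact ⟨⟨(hR p hp).1, h5.1⟩, ⟨(hR p hp).2, h5.2⟩⟩
    · intro h5
      exact ⟨h5.1.2, h5.2.2⟩
  refine (Finset.sum_le_sum h3).trans ?_
  rw [← Finset.mul_sum, Finset.sum_add_distrib, Finset.sum_comm, Finset.sum_const,
    Finset.card_range, smul_eq_mul]
  apply Nat.mul_le_mul_left
  apply Nat.add_le_add
  · apply Finset.sum_le_sum
    intro z hz
    rw [← Finset.sum_filter, Finset.sum_const, smul_eq_mul, mul_comm]
    apply Nat.mul_le_mul_left
    have h6 : (range F).filter (fun t => t < f z) ⊆ range (f z) := by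
      intro t ht
      rw [Finset.mem_filter] at ht
      exact Finset.mem_range.2 ht.2
    exact (Finset.card_le_card h6).trans (by rw [Finset.card_range])
  · rw [mul_comm]

end

end Pool.Agent.Lib.MP_009d13_co.P5
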