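import Pool.Agent.Lib.MP_009d13_co.P5.BED1
import Pool.Agent.Lib.MP_009d13_co.P5.BED2
import Pool.Agent.Lib.MP_009d13_co.P5.BED3
import Pool.Agent.Lib.MP_009d13_co.P5.LAYER
import Pool.Agent.Lib.MP_009d13_co.P5.K33

/-!
# The sum over the edges between small vertices
-/

set_option autoImplicit false

namespace Pool.Agent.Lib.MP_009d13_co.P5

open Finset Classical

noncomputable section

namespace BEDS

theorem dd_le {V : Type} [Fintype V] (G : SimpleGraph V) (H : Finset V) (a : V) :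
    dd G H a ≤ Fintype.card V := card_le_univ _

theorem tt_le6 {V : Type} [Fintype V] (G : SimpleGraph V) (hS : Sparse6 G) (H : Finset V)
    (a : V) : tt G H a ≤ 6 * Fintype.card V ^ 2 := by
  refine (tt_le G hS H a).trans ?_
  calc 6 * Fintype.card V * dd G H a ≤ 6 * Fintype.card V * Fintype.card V :=
        Nat.mul_le_mul_left _ (dd_le G H a)
    _ = _ := by ring

theorem ph_le13 {V : Type} [Fintype V] (G : SimpleGraph V) (hS : Sparse6 G) (H : Finset V)
    (a b : V) : ph G H a b ≤ 13 * Fintype.card V ^ 2 := by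
  have h1 := tt_le6 G hS H a
  have h2 := tt_le6 G hS H b
  have h3 := Nat.mul_le_mul (dd_le G H a) (dd_le G H b)
  rw [ph]
  nlinarith

theorem gg_le13 {V : Type} [Fintype V] (G : SimpleGraph V) (hS : Sparse6 G) (H : Finset V)
    (a : V) : gg G H a ≤ 13 * Fintype.card V ^ 2 := by
  rw [gg]
  exact Finset.sup_le fun b _ => ph_le13 G hS H a b

theorem f0_le12 {V : Type} [Fintype V] (G : SimpleGraph V) (hS : Sparse6 G) (H : Finset V) :
    f0 G H ≤ 12 * Fintype.card V ^ 2 := by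
  rw [f0]
  refine Finset.sup_le fun a _ => Finset.sup_le fun b _ => ?_
  have h1 := tt_le6 G hS H a
  have h2 := tt_le6 G hS H b
  omega

theorem ff_le26 {V : Type} [Fintype V] (G : SimpleGraph V) (hS : Sparse6 G) (H : Finset V)
    (z : V) : ff G H z ≤ 26 * Fintype.card V ^ 2 := by
  rw [ff]
  split_ifs with h2 h1
  · have hin : ∀ a ∈ kk G H z, ∑ b ∈ (kk G H z).erase a, ph G H a b
        ≤ 13 * Fintype.card V ^ 2 := by
      intro a ha
      refine (Finset.sum_le_card_nsmul _ _ _ fun b _ => ph_le13 G hS H a b).trans ?_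
      rw [card_erase_of_mem ha, h2]
      simp
    refine (Finset.sum_le_card_nsmul _ _ _ hin).trans ?_
    rw [h2, smul_eq_mul]
    omega
  · have hin : ∀ a ∈ kk G H z, tt G H a + gg G H a ≤ 19 * Fintype.card V ^ 2 := by
      intro a _
      have h1 := tt_le6 G hS H a
      have h2 := gg_le13 G hS H a
      omega
    refine (Finset.sum_le_card_nsmul _ _ _ hin).trans ?_
    rw [h1, smul_eq_mul]
    omega
  · have := f0_le12 G hS H
    omega

/-- pairs with an end in `Q` -/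
theorem bad_card {V : Type} [Fintype V] (G : SimpleGraph V) (R : Finset (V × V))
    (hR : ∀ p ∈ R, G.Adj p.1 p.2) (Q : Finset V) :
    (R.filter fun p => p.1 ∈ Q ∨ p.2 ∈ Q).card ≤ 2 * ∑ v ∈ Q, (nb G v).card := by
  have hsub : (R.filter fun p => p.1 ∈ Q ∨ p.2 ∈ Q) ⊆
      (Q.biUnion fun v => (nb G v).image fun w => (v, w))
        ∪ (Q.biUnion fun v => (nb G v).image fun w => (w, v)) := by
    intro p hp
    rw [mem_filter] at hp
    have hadj := hR p hp.1
    rcases hp.2 with h | h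
    · refine mem_union_left _ (mem_biUnion.2 ⟨p.1, h, mem_image.2 ⟨p.2, ?_, rfl⟩⟩)
      simpa [nb] using hadj
    · refine mem_union_right _ (mem_biUnion.2 ⟨p.2, h, mem_image.2 ⟨p.1, ?_, rfl⟩⟩)
      simpa [nb] using hadj.symm
  refine (card_le_card hsub).trans ((card_union_le _ _).trans ?_)
  rw [two_mul]
  refine Nat.add_le_add ?_ ?_
  · exact card_biUnion_le.trans (Finset.sum_le_sum fun v _ => card_image_le)
  · exact card_biUnion_le.trans (Finset.sum_le_sum fun v _ => card_image_le)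

end BEDS

open BEDS

theorem bed {V : Type} [Fintype V] (G : SimpleGraph V) (hS : Sparse6 G) (hK : NoK33m G)
    (H : Finset V) (k : ℕ)
    (hk : ∀ Q : Finset V, Disjoint Q H → Q.card ≤ 4 * H.card ^ 3 + 1 →
      k * ∑ v ∈ Q, (nb G v).card ≤ Fintype.card V) :
    k * bb G H ≤ k * (2 * (∑ a ∈ H, ∑ b ∈ H.erase a, n2 G H a b * ph G H a b)
      + 4 * (∑ a ∈ H, n1 G H a * (tt G H a + gg G H a)) + 6 * (n0 G H * f0 G H)
      + 648 * H.card * Fintype.card V ^ 2) + 216 * Fintype.card V ^ 3 := by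
  obtain ⟨Q, hQH, hQc, hQ⟩ := exists_cover G hK H
  have hkQ := hk Q hQH (hQc.trans (Nat.le_succ _))
  set W : Finset V := Hᶜ \ Q with hW
  have hWH : Disjoint W H := by
    rw [Finset.disjoint_left]
    intro z hz
    rw [hW, mem_sdiff, mem_compl] at hz
    exact hz.1
  have hW2 : ∀ z ∈ W, (kk G H z).card ≤ 2 := by
    intro z hz
    rw [hW, mem_sdiff, mem_compl] at hz
    have := hQ z z hz.2 hz.2 hz.1 hz.1 (Or.inl rfl)
    rwa [union_self] at this
  have hR : ∀ p ∈ pr G Hᶜ Hᶜ, p.1 ∉ H ∧ p.2 ∉ H ∧ G.Adj p.1 p.2 := by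
    intro p hp
    simpa [pr] using hp
  have hsplit : bb G H = ∑ p ∈ (pr G Hᶜ Hᶜ).filter (fun p => p.1 ∈ Q ∨ p.2 ∈ Q),
        om G H p.1 p.2
      + ∑ p ∈ (pr G Hᶜ Hᶜ).filter (fun p => ¬ (p.1 ∈ Q ∨ p.2 ∈ Q)), om G H p.1 p.2 := by
    rw [bb, Finset.sum_filter_add_sum_filter_not]
  have hbad : ∑ p ∈ (pr G Hᶜ Hᶜ).filter (fun p => p.1 ∈ Q ∨ p.2 ∈ Q), om G H p.1 p.2
      ≤ (2 * ∑ v ∈ Q, (nb G v).card) * (108 * Fintype.card V ^ 2) := by
    refine (Finset.sum_le_card_nsmul _ _ _ fun p _ => om_le G hS H p.1 p.2).trans ?_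
    rw [smul_eq_mul]
    exact Nat.mul_le_mul_right _ (bad_card G _ (fun p hp => (hR p hp).2.2) Q)
  set R : Finset (V × V) := (pr G Hᶜ Hᶜ).filter (fun p => ¬ (p.1 ∈ Q ∨ p.2 ∈ Q)) with hRdef
  have hRm : ∀ p ∈ R, p.1 ∈ W ∧ p.2 ∈ W ∧ G.Adj p.1 p.2 := by
    intro p hp
    rw [hRdef, mem_filter, not_or] at hp
    have h := hR p hp.1
    rw [hW]
    simp only [mem_sdiff, mem_compl]
    exact ⟨⟨h.1, hp.2.1⟩, ⟨h.2.1, hp.2.2⟩, h.2.2⟩
  have hgood : ∑ p ∈ R, om G H p.1 p.2 ≤ ∑ p ∈ R, min (ff G H p.1) (ff G H p.2) := by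
    refine Finset.sum_le_sum fun p hp => ?_
    obtain ⟨h1, h2, h3⟩ := hRm p hp
    rw [hW, mem_sdiff, mem_compl] at h1 h2
    have h4 := hQ p.1 p.2 h1.2 h2.2 h1.1 h2.1 (Or.inr h3)
    refine le_min (om_le_ff G H p.1 p.2 h4) ?_
    rw [om_comm]
    rw [union_comm] at h4
    exact om_le_ff G H p.2 p.1 h4
  have hlayer := layer R W (fun z => 3 - (kk G H z).card) (ff G H) (3 * H.card)
    (26 * Fintype.card V ^ 2) (fun z _ => ff_le26 G hS H z)
    (fun p hp => ⟨(hRm p hp).1, (hRm p hp).2.1⟩) (by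
      intro Z hZ
      refine le_trans (card_le_card ?_)
        (cap G hS H Z (Finset.disjoint_of_subset_left hZ hWH) fun z hz => hW2 z (hZ hz))
      intro p hp
      rw [mem_filter] at hp
      have := hRm p hp.1
      simp only [pr, mem_filter, mem_univ, true_and]
      exact ⟨hp.2.1, hp.2.2, this.2.2⟩)
  have hff := sum_ff G H W hWH hW2
  have hmain : bb G H ≤ (2 * ∑ v ∈ Q, (nb G v).card) * (108 * Fintype.card V ^ 2)
      + (2 * (∑ a ∈ H, ∑ b ∈ H.erase a, n2 G H a b * ph G H a b)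
      + 4 * (∑ a ∈ H, n1 G H a * (tt G H a + gg G H a)) + 6 * (n0 G H * f0 G H)
      + 648 * H.card * Fintype.card V ^ 2) := by
    have h1 := hgood.trans hlayer
    have h2 : 3 * H.card * (26 * Fintype.card V ^ 2) = 78 * (H.card * Fintype.card V ^ 2) := by
      ring
    have h3 : 648 * H.card * Fintype.card V ^ 2 = 648 * (H.card * Fintype.card V ^ 2) := by
      ring
    rw [h2] at h1
    rw [h3, hsplit]
    omega
  calc k * bb G H ≤ k * ((2 * ∑ v ∈ Q, (nb G v).card) * (108 * Fintype.card V ^ 2)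
      + (2 * (∑ a ∈ H, ∑ b ∈ H.erase a, n2 G H a b * ph G H a b)
      + 4 * (∑ a ∈ H, n1 G H a * (tt G H a + gg G H a)) + 6 * (n0 G H * f0 G H)
      + 648 * H.card * Fintype.card V ^ 2)) := Nat.mul_le_mul_left _ hmain
    _ = k * (2 * (∑ a ∈ H, ∑ b ∈ H.erase a, n2 G H a b * ph G H a b)
      + 4 * (∑ a ∈ H, n1 G H a * (tt G H a + gg G H a)) + 6 * (n0 G H * f0 G H)
      + 648 * H.card * Fintype.card V ^ 2)
      + (k * ∑ v ∈ Q, (nb G v).card) * (216 * Fintype.card V ^ 2) := by ring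
    _ ≤ _ := by
      refine Nat.add_le_add_left ?_ _
      calc (k * ∑ v ∈ Q, (nb G v).card) * (216 * Fintype.card V ^ 2)
          ≤ Fintype.card V * (216 * Fintype.card V ^ 2) := Nat.mul_le_mul_right _ hkQ
        _ = _ := by ring

end

end Pool.Agent.Lib.MP_009d13_co.P5
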