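import Pool.Agent.Lib.MP_009d13_co.P5.K33

/-!
# The linear constraints
-/

set_option autoImplicit false

namespace Pool.Agent.Lib.MP_009d13_co.P5

open Finset Classical

noncomputable section

namespace CONS

theorem mem_nb {V : Type} [Fintype V] (G : SimpleGraph V) {u v : V} :
    v ∈ nb G u ↔ G.Adj u v := by simp [nb]

theorem mem_kk {V : Type} [Fintype V] (G : SimpleGraph V) (H : Finset V) {a z : V} :
    a ∈ kk G H z ↔ G.Adj z a ∧ a ∈ H := by simp [kk, nb]

theorem dd_eq {V : Type} [Fintype V] (G : SimpleGraph V) (H : Finset V) {a : V} (ha : a ∈ H) :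
    dd G H a = ∑ z ∈ Hᶜ, if a ∈ kk G H z then 1 else 0 := by
  rw [dd, ← Finset.card_filter]
  congr 1
  ext z
  simp only [mem_sdiff, mem_nb, mem_filter, mem_compl, mem_kk, ha, and_true]
  rw [G.adj_comm a z]
  tauto

theorem mm_eq {V : Type} [Fintype V] (G : SimpleGraph V) (H : Finset V) {a b : V} (ha : a ∈ H)
    (hb : b ∈ H) : mm G H a b = ∑ z ∈ Hᶜ, if a ∈ kk G H z ∧ b ∈ kk G H z then 1 else 0 := by
  rw [mm, ← Finset.card_filter]
  congr 1
  ext z
  simp only [mem_sdiff, mem_inter, mem_nb, mem_filter, mem_compl, mem_kk, ha, hb, and_true]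
  rw [G.adj_comm a z, G.adj_comm b z]
  tauto

theorem sum_ind {V : Type} [Fintype V] (G : SimpleGraph V) (H : Finset V) (z : V) :
    ∑ a ∈ H, (if a ∈ kk G H z then 1 else 0) = (kk G H z).card := by
  rw [← Finset.card_filter]
  congr 1
  ext a
  simp only [mem_filter, mem_kk]
  tauto

theorem sum_ind_erase {V : Type} [Fintype V] (G : SimpleGraph V) (H : Finset V) {a z : V}
    (ha : a ∈ kk G H z) :
    ∑ b ∈ H.erase a, (if a ∈ kk G H z ∧ b ∈ kk G H z then 1 else 0) + 1 = (kk G H z).card := by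
  rw [← Finset.card_filter, ← Finset.card_erase_add_one ha]
  congr 2
  ext b
  simp only [mem_filter, mem_erase, mem_kk]
  rw [mem_kk] at ha
  tauto

theorem exc_sum {V : Type} [Fintype V] (G : SimpleGraph V) (H : Finset V) (c : ℕ) :
    ∑ z ∈ Hᶜ, (if 3 ≤ (kk G H z).card then c else 0)
      = (Hᶜ.filter fun z => 3 ≤ (kk G H z).card).card * c := by
  rw [← Finset.sum_filter, Finset.sum_const, smul_eq_mul]

end CONS

open CONS

theorem card_exc {V : Type} [Fintype V] (G : SimpleGraph V) (hK : NoK33m G) (H : Finset V) :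
    (Hᶜ.filter fun z => 3 ≤ (kk G H z).card).card ≤ 2 * H.card ^ 3 := by
  have hsub : (Hᶜ.filter fun z => 3 ≤ (kk G H z).card) ⊆
      (H ×ˢ (H ×ˢ H)).biUnion fun t => if t.1 ≠ t.2.1 ∧ t.1 ≠ t.2.2 ∧ t.2.1 ≠ t.2.2 then
        nb G t.1 ∩ nb G t.2.1 ∩ nb G t.2.2 else ∅ := by
    intro z hz
    rw [mem_filter] at hz
    obtain ⟨a, ha, b, hb, c, hc, hab, hac, hbc⟩ := Finset.two_lt_card.1 hz.2
    rw [mem_biUnion]
    refine ⟨(a, b, c), ?_, ?_⟩
    · rw [mem_kk] at ha hb hc
      simp [ha.2, hb.2, hc.2]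
    · rw [if_pos ⟨hab, hac, hbc⟩]
      rw [mem_kk] at ha hb hc
      simp only [mem_inter, mem_nb]
      exact ⟨⟨ha.1.symm, hb.1.symm⟩, hc.1.symm⟩
  refine (Finset.card_le_card hsub).trans (Finset.card_biUnion_le.trans ?_)
  have : ∀ t ∈ H ×ˢ (H ×ˢ H), (if t.1 ≠ t.2.1 ∧ t.1 ≠ t.2.2 ∧ t.2.1 ≠ t.2.2 then
        nb G t.1 ∩ nb G t.2.1 ∩ nb G t.2.2 else ∅).card ≤ 2 := by
    intro t _
    split_ifs with h
    · exact three_common G hK h.1 h.2.1 h.2.2
    · simp
  refine (Finset.sum_le_card_nsmul _ _ _ this).trans ?_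
  rw [card_product, card_product, smul_eq_mul]
  exact le_of_eq (by ring)

theorem con1 {V : Type} [Fintype V] (G : SimpleGraph V) (hK : NoK33m G) (H : Finset V) {a : V}
    (ha : a ∈ H) : ∑ b ∈ H.erase a, mm G H a b + n1 G H a ≤ dd G H a + 2 * H.card ^ 4 := by
  have e1 : ∑ b ∈ H.erase a, mm G H a b
      = ∑ z ∈ Hᶜ, ∑ b ∈ H.erase a, (if a ∈ kk G H z ∧ b ∈ kk G H z then 1 else 0) := by
    rw [Finset.sum_comm]
    exact Finset.sum_congr rfl fun b hb => mm_eq G H ha (mem_of_mem_erase hb)
  rw [e1, n1, Finset.card_filter, dd_eq G H ha, ← Finset.sum_add_distrib]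
  have hp : ∀ z ∈ Hᶜ, (∑ b ∈ H.erase a, (if a ∈ kk G H z ∧ b ∈ kk G H z then 1 else 0))
      + (if kk G H z = {a} then 1 else 0)
      ≤ (if a ∈ kk G H z then 1 else 0) + (if 3 ≤ (kk G H z).card then H.card else 0) := by
    intro z _
    by_cases hz : a ∈ kk G H z
    · have h1 := sum_ind_erase G H hz
      have h2 : (kk G H z).card ≤ H.card := card_le_card (inter_subset_right)
      rw [if_pos hz]
      by_cases h3 : 3 ≤ (kk G H z).card
      · rw [if_pos h3]
        have : kk G H z ≠ {a} := by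
          intro h
          rw [h, card_singleton] at h3
          omega
        rw [if_neg this]
        omega
      · rw [if_neg h3]
        split_ifs with h4
        · rw [h4, card_singleton] at h1
          rw [h4]
          omega
        · omega
    · have h1 : ∑ b ∈ H.erase a, (if a ∈ kk G H z ∧ b ∈ kk G H z then 1 else 0) = 0 :=
        Finset.sum_eq_zero fun b _ => by rw [if_neg (fun h => hz h.1)]
      have h2 : kk G H z ≠ {a} := fun h => hz (h ▸ mem_singleton_self a)
      rw [h1, if_neg h2]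
      exact Nat.zero_le _
  refine (Finset.sum_le_sum hp).trans ?_
  rw [Finset.sum_add_distrib, exc_sum]
  have := Nat.mul_le_mul_right H.card (card_exc G hK H)
  calc _ ≤ (∑ z ∈ Hᶜ, if a ∈ kk G H z then 1 else 0) + 2 * H.card ^ 3 * H.card :=
        Nat.add_le_add_left this _
    _ = _ := by ring

theorem con2 {V : Type} [Fintype V] (G : SimpleGraph V) (H : Finset V) {a b : V}
    (ha : a ∈ H) (hb : b ∈ H) :
    dd G H a + dd G H b + n0 G H ≤ Fintype.card V + mm G H a b := by
  rw [dd_eq G H ha, dd_eq G H hb, mm_eq G H ha hb, n0, Finset.card_filter,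
    ← Finset.sum_add_distrib, ← Finset.sum_add_distrib]
  have hp : ∀ z ∈ Hᶜ, (if a ∈ kk G H z then 1 else 0) + (if b ∈ kk G H z then 1 else 0)
      + (if kk G H z = ∅ then 1 else 0)
      ≤ 1 + (if a ∈ kk G H z ∧ b ∈ kk G H z then 1 else 0) := by
    intro z _
    by_cases h0 : kk G H z = ∅
    · simp [h0]
    · rw [if_neg h0]
      split_ifs <;> simp_all
  refine (Finset.sum_le_sum hp).trans ?_
  rw [Finset.sum_add_distrib, Finset.sum_const, smul_eq_mul, mul_one]
  exact Nat.add_le_add_right (card_le_univ _) _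

theorem con3 {V : Type} [Fintype V] (G : SimpleGraph V) (hK : NoK33m G) (H : Finset V) :
    ∑ a ∈ H, dd G H a + ∑ a ∈ H, n1 G H a + 2 * n0 G H
      ≤ 2 * Fintype.card V + 2 * H.card ^ 4 := by
  have e1 : ∑ a ∈ H, dd G H a = ∑ z ∈ Hᶜ, (kk G H z).card := by
    rw [Finset.sum_congr rfl fun a ha => dd_eq G H ha, Finset.sum_comm]
    exact Finset.sum_congr rfl fun z _ => sum_ind G H z
  have e2 : ∑ a ∈ H, n1 G H a = ∑ z ∈ Hᶜ, (∑ a ∈ H, if kk G H z = {a} then 1 else 0) := by
    rw [Finset.sum_comm]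
    exact Finset.sum_congr rfl fun a _ => by rw [n1, Finset.card_filter]
  rw [e1, e2, n0, Finset.card_filter, Finset.mul_sum, ← Finset.sum_add_distrib,
    ← Finset.sum_add_distrib]
  have hp : ∀ z ∈ Hᶜ, (kk G H z).card + (∑ a ∈ H, if kk G H z = {a} then 1 else 0)
      + 2 * (if kk G H z = ∅ then 1 else 0)
      ≤ 2 + (if 3 ≤ (kk G H z).card then H.card else 0) := by
    intro z _
    have hs : (∑ a ∈ H, if kk G H z = {a} then 1 else 0) ≤ 1 := by
      rw [← Finset.card_filter, Finset.card_le_one]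
      intro a ha b hb
      rw [mem_filter] at ha hb
      exact Finset.singleton_injective (ha.2.symm.trans hb.2)
    have hs0 : (kk G H z).card ≠ 1 → (∑ a ∈ H, if kk G H z = {a} then 1 else 0) = 0 := by
      intro h
      refine Finset.sum_eq_zero fun a _ => if_neg ?_
      intro h'
      exact h (by rw [h', card_singleton])
    have h2 : (kk G H z).card ≤ H.card := card_le_card (inter_subset_right)
    by_cases h0 : kk G H z = ∅
    · rw [if_pos h0, hs0 (by simp [h0]), h0, card_empty]
      omega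
    · rw [if_neg h0]
      have h0' : 0 < (kk G H z).card := Finset.card_pos.2 (Finset.nonempty_iff_ne_empty.2 h0)
      by_cases h3 : 3 ≤ (kk G H z).card
      · rw [if_pos h3, hs0 (by omega)]
        omega
      · rw [if_neg h3]
        by_cases h1 : (kk G H z).card = 1
        · omega
        · rw [hs0 h1]
          omega
  refine (Finset.sum_le_sum hp).trans ?_
  rw [Finset.sum_add_distrib, exc_sum, Finset.sum_const, smul_eq_mul]
  have := Nat.mul_le_mul_right H.card (card_exc G hK H)
  have h4 : (Hᶜ : Finset V).card ≤ Fintype.card V := card_le_univ _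
  have h5 : 2 * H.card ^ 3 * H.card = 2 * H.card ^ 4 := by ring
  omega

theorem con4 {V : Type} [Fintype V] (G : SimpleGraph V) (hK : NoK33m G) (H : Finset V) :
    (∑ a ∈ H, ∑ b ∈ H.erase a, mm G H a b) + 2 * (∑ a ∈ H, n1 G H a) + 2 * n0 G H
      ≤ 2 * Fintype.card V + 2 * H.card ^ 5 := by
  have e1 : ∑ a ∈ H, ∑ b ∈ H.erase a, mm G H a b = ∑ z ∈ Hᶜ, ∑ a ∈ H, ∑ b ∈ H.erase a,
      (if a ∈ kk G H z ∧ b ∈ kk G H z then 1 else 0) := by
    rw [Finset.sum_comm]
    refine Finset.sum_congr rfl fun a ha => ?_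
    rw [Finset.sum_comm]
    exact Finset.sum_congr rfl fun b hb => mm_eq G H ha (mem_of_mem_erase hb)
  have e2 : ∑ a ∈ H, n1 G H a = ∑ z ∈ Hᶜ, (∑ a ∈ H, if kk G H z = {a} then 1 else 0) := by
    rw [Finset.sum_comm]
    exact Finset.sum_congr rfl fun a _ => by rw [n1, Finset.card_filter]
  rw [e1, e2, n0, Finset.card_filter, Finset.mul_sum, Finset.mul_sum, ← Finset.sum_add_distrib,
    ← Finset.sum_add_distrib]
  have hp : ∀ z ∈ Hᶜ, (∑ a ∈ H, ∑ b ∈ H.erase a,
      (if a ∈ kk G H z ∧ b ∈ kk G H z then 1 else 0))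
      + 2 * (∑ a ∈ H, if kk G H z = {a} then 1 else 0)
      + 2 * (if kk G H z = ∅ then 1 else 0)
      ≤ 2 + (if 3 ≤ (kk G H z).card then H.card ^ 2 else 0) := by
    intro z _
    have hs : (∑ a ∈ H, if kk G H z = {a} then 1 else 0) ≤ 1 := by
      rw [← Finset.card_filter, Finset.card_le_one]
      intro a ha b hb
      rw [mem_filter] at ha hb
      exact Finset.singleton_injective (ha.2.symm.trans hb.2)
    have hs0 : (kk G H z).card ≠ 1 → (∑ a ∈ H, if kk G H z = {a} then 1 else 0) = 0 := by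
      intro h
      refine Finset.sum_eq_zero fun a _ => if_neg ?_
      intro h'
      exact h (by rw [h', card_singleton])
    have h2 : (kk G H z).card ≤ H.card := card_le_card (inter_subset_right)
    have hd : (∑ a ∈ H, ∑ b ∈ H.erase a,
        (if a ∈ kk G H z ∧ b ∈ kk G H z then 1 else 0))
        = (kk G H z).card * ((kk G H z).card - 1) := by
      have : ∀ a ∈ H, (∑ b ∈ H.erase a, (if a ∈ kk G H z ∧ b ∈ kk G H z then 1 else 0))
          = (if a ∈ kk G H z then ((kk G H z).card - 1) else 0) := by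
        intro a _
        split_ifs with h
        · have := sum_ind_erase G H h
          omega
        · exact Finset.sum_eq_zero fun b _ => if_neg fun h' => h h'.1
      rw [Finset.sum_congr rfl this, ← Finset.sum_filter, Finset.sum_const, smul_eq_mul]
      congr 2
      ext a
      simp only [mem_filter, mem_kk]
      tauto
    rw [hd]
    by_cases h0 : kk G H z = ∅
    · rw [if_pos h0, hs0 (by simp [h0]), h0, card_empty]
      omega
    · rw [if_neg h0]
      have h0' : 0 < (kk G H z).card := Finset.card_pos.2 (Finset.nonempty_iff_ne_empty.2 h0)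
      by_cases h3 : 3 ≤ (kk G H z).card
      · rw [if_pos h3, hs0 (by omega)]
        have : (kk G H z).card * ((kk G H z).card - 1) ≤ H.card * H.card :=
          Nat.mul_le_mul h2 (by omega)
        nlinarith
      · rw [if_neg h3]
        by_cases h1 : (kk G H z).card = 1
        · rw [h1]
          omega
        · rw [hs0 h1]
          have : (kk G H z).card = 2 := by omega
          rw [this]
  refine (Finset.sum_le_sum hp).trans ?_
  rw [Finset.sum_add_distrib, exc_sum, Finset.sum_const, smul_eq_mul]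
  have := Nat.mul_le_mul_right (H.card ^ 2) (card_exc G hK H)
  have h4 : (Hᶜ : Finset V).card ≤ Fintype.card V := card_le_univ _
  have h5 : 2 * H.card ^ 3 * H.card ^ 2 = 2 * H.card ^ 5 := by ring
  omega

theorem n2_le_mm {V : Type} [Fintype V] (G : SimpleGraph V) (H : Finset V) (a b : V) :
    n2 G H a b ≤ mm G H a b := by
  rw [n2, mm]
  refine Finset.card_le_card fun z hz => ?_
  rw [mem_filter, mem_compl] at hz
  have ha : a ∈ kk G H z := by rw [hz.2]; simp
  have hb : b ∈ kk G H z := by rw [hz.2]; simp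
  rw [mem_kk] at ha hb
  simp only [mem_sdiff, mem_inter, mem_nb]
  exact ⟨⟨ha.1.symm, hb.1.symm⟩, hz.1⟩

end

end Pool.Agent.Lib.MP_009d13_co.P5
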