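import Mathlib

/-!
# Paths with five edges in planar graphs: definitions

`P_5` is the path with five edges and six vertices, `SimpleGraph.pathGraph 6` in Mathlib. Its
number of copies in `G` is `G.copyCount (SimpleGraph.pathGraph 6)`.
-/

set_option autoImplicit false

namespace Pool.Agent.Lib.MP_009d13_co.P5

open Finset

/-- `H` is a minor of `G`: there are pairwise disjoint connected vertex sets of `G`, one for every
vertex of `H`, with an edge of `G` between the sets of any two adjacent vertices of `H`. -/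
def IsMinor {W V : Type*} (H : SimpleGraph W) (G : SimpleGraph V) : Prop :=
  ∃ B : W → Set V, (∀ w, (G.induce (B w)).Connected) ∧
    (∀ w w', w ≠ w' → Disjoint (B w) (B w')) ∧
    ∀ w w', H.Adj w w' → ∃ x ∈ B w, ∃ y ∈ B w', G.Adj x y

/-- Planar graphs (Wagner's theorem): no minor `K_5` and no minor `K_{3,3}`. -/
def IsPlanar {V : Type*} (G : SimpleGraph V) : Prop :=
  ¬ IsMinor (⊤ : SimpleGraph (Fin 5)) G ∧
    ¬ IsMinor (completeBipartiteGraph (Fin 3) (Fin 3)) G

open Classical

noncomputable section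

variable {V : Type*} [Fintype V] (G : SimpleGraph V)

/-- The neighbourhood. -/
def nb (v : V) : Finset V := univ.filter fun w => G.Adj v w

/-- Ordered pairs of adjacent vertices, the first one in `S`, the second one in `T`. -/
def pr (S T : Finset V) : Finset (V × V) :=
  univ.filter fun p => p.1 ∈ S ∧ p.2 ∈ T ∧ G.Adj p.1 p.2

/-- Every subgraph has at most three edges per vertex. -/
def Sparse6 : Prop := ∀ S : Finset V, (pr G S S).card ≤ 6 * S.card

/-- There are no three vertices `a 0, a 1, a 2` and three disjoint edges or vertices `z i z' i`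
such that every `a i` is adjacent to one of the ends of every `z j z' j` (a special case of: no
minor `K_{3,3}`). -/
def NoK33m : Prop := ∀ a z z' : Fin 3 → V, Function.Injective a →
  (∀ i, z i = z' i ∨ G.Adj (z i) (z' i)) →
  (∀ i j, i ≠ j → z i ≠ z j ∧ z i ≠ z' j ∧ z' i ≠ z' j) →
  (∀ i j, a i ≠ z j ∧ a i ≠ z' j) →
  (∀ i j, G.Adj (a i) (z j) ∨ G.Adj (a i) (z' j)) → False

/-- Sixtuples of vertices. -/
abbrev Six (V : Type*) : Type _ := V × V × V × V × V × V

/-- `v_0 v_1 v_2 v_3 v_4 v_5` is a path. -/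
def IsPath6 (v : Six V) : Prop :=
  G.Adj v.1 v.2.1 ∧ G.Adj v.2.1 v.2.2.1 ∧ G.Adj v.2.2.1 v.2.2.2.1 ∧
    G.Adj v.2.2.2.1 v.2.2.2.2.1 ∧ G.Adj v.2.2.2.2.1 v.2.2.2.2.2 ∧
    [v.1, v.2.1, v.2.2.1, v.2.2.2.1, v.2.2.2.2.1, v.2.2.2.2.2].Nodup

/-- The number of paths with six vertices, every path is counted twice (once for every
orientation). -/
def T6 : ℕ := (univ.filter fun v : Six V => IsPath6 G v).card

/-- Common neighbours of `a` and `b` outside `H`. -/
def mm (H : Finset V) (a b : V) : ℕ := ((nb G a ∩ nb G b) \ H).card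

/-- Neighbours of `a` outside `H`. -/
def dd (H : Finset V) (a : V) : ℕ := (nb G a \ H).card

/-- Number of pairs (common neighbour `y` of `a` and `b`, neighbour of `b`), `b` another hub. -/
def tt (H : Finset V) (a : V) : ℕ := ∑ b ∈ H.erase a, mm G H a b * dd G H b

/-- Paths hub, small, hub, small, hub, small. -/
def aa (H : Finset V) : ℕ :=
  ∑ b ∈ H, ∑ c ∈ H.erase b, ∑ a ∈ (H.erase b).erase c, mm G H a b * mm G H b c * dd G H c

/-- Paths small, hub, hub, small, hub, small. -/
def cc (H : Finset V) : ℕ :=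
  ∑ b ∈ H, ∑ c ∈ H.erase b, ∑ a ∈ (H.erase b).erase c, dd G H a * mm G H b c * dd G H c

/-- The hubs adjacent to `z`. -/
def kk (H : Finset V) (z : V) : Finset V := nb G z ∩ H

/-- Number of paths through an edge `z z'` between small vertices. -/
def om (H : Finset V) (z z' : V) : ℕ :=
  (∑ h ∈ kk G H z, tt G H h) + (∑ h ∈ kk G H z', tt G H h)
    + ∑ h ∈ kk G H z, ∑ h' ∈ (kk G H z').erase h, dd G H h * dd G H h'

/-- Sum of `om` over the ordered pairs of adjacent small vertices. -/
def bb (H : Finset V) : ℕ := ∑ p ∈ pr G Hᶜ Hᶜ, om G H p.1 p.2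

/-- Paths whose second and third vertices are small. -/
def s12 (H : Finset V) : ℕ :=
  (univ.filter fun v : Six V => IsPath6 G v ∧ v.2.1 ∉ H ∧ v.2.2.1 ∉ H).card

/-- Small vertices whose hubs are exactly `a` and `b`. -/
def n2 (H : Finset V) (a b : V) : ℕ := (Hᶜ.filter fun z => kk G H z = {a, b}).card

/-- Small vertices whose only hub is `a`. -/
def n1 (H : Finset V) (a : V) : ℕ := (Hᶜ.filter fun z => kk G H z = {a}).card

/-- Small vertices without hubs. -/
def n0 (H : Finset V) : ℕ := (Hᶜ.filter fun z => kk G H z = ∅).card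

/-- The weight of a pair of hubs. -/
def ph (H : Finset V) (a b : V) : ℕ := tt G H a + tt G H b + dd G H a * dd G H b

end

end Pool.Agent.Lib.MP_009d13_co.P5
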