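import Pool.Agent.Lib.MP_009d13_co.P5.Defs2

/-!
# Module HUBS: a bounded set of hubs with a gap below it
-/

set_option autoImplicit false

namespace Pool.Agent.Lib.MP_009d13_co.P5

open Finset Classical

noncomputable section

theorem card_pr_univ {V : Type} [Fintype V] (G : SimpleGraph V) :
    (pr G univ univ).card = ∑ v : V, (nb G v).card := by
  unfold pr nb
  rw [← Finset.card_sigma]
  apply Finset.card_bij' (fun p _ => (⟨p.1, p.2⟩ : Σ _ : V, V)) (fun p _ => (p.1, p.2))
  · intro p hp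
    simp only [Finset.mem_filter, Finset.mem_univ, true_and, Finset.mem_sigma] at hp ⊢
    exact hp
  · intro p hp
    simp only [Finset.mem_filter, Finset.mem_univ, true_and, Finset.mem_sigma] at hp ⊢
    exact hp
  · intro p _
    rfl
  · intro p _
    rfl

theorem exists_hubs_aux (k : ℕ) (j : ℕ) : ∃ K : ℕ, ∀ {V : Type} [Fintype V]
    (G : SimpleGraph V), (∃ H : Finset V, H.card ≤ K ∧ ∀ Q : Finset V, Disjoint Q H →
        Q.card ≤ 4 * H.card ^ 3 + 1 → k * ∑ v ∈ Q, (nb G v).card ≤ Fintype.card V) ∨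
      (∃ H : Finset V, H.card ≤ K ∧ j * (Fintype.card V + 1) ≤ k * ∑ v ∈ H, (nb G v).card) := by
  induction j with
  | zero =>
    refine ⟨0, ?_⟩
    intro V _ G
    right
    exact ⟨∅, by simp, by simp⟩
  | succ j ih =>
    obtain ⟨K, hK⟩ := ih
    refine ⟨K + 4 * K ^ 3 + 1, ?_⟩
    intro V _ G
    rcases hK G with ⟨H, h1, h2⟩ | ⟨H, h1, h2⟩
    · left
      exact ⟨H, by omega, h2⟩
    · by_cases hgood : ∀ Q : Finset V, Disjoint Q H →
        Q.card ≤ 4 * H.card ^ 3 + 1 → k * ∑ v ∈ Q, (nb G v).card ≤ Fintype.card V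
      · left
        exact ⟨H, by omega, hgood⟩
      · push Not at hgood
        obtain ⟨Q, hQ1, hQ2, hQ3⟩ := hgood
        right
        refine ⟨H ∪ Q, ?_, ?_⟩
        · have h3 : H.card ^ 3 ≤ K ^ 3 := Nat.pow_le_pow_left h1 3
          have h4 := Finset.card_union_le H Q
          omega
        · have h5 : (j + 1) * (Fintype.card V + 1)
              = j * (Fintype.card V + 1) + (Fintype.card V + 1) := by ring
          rw [Finset.sum_union hQ1.symm, h5, Nat.mul_add k]
          omega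

theorem exists_hubs (k : ℕ) (hk : 1 ≤ k) : ∃ K : ℕ, ∀ {V : Type} [Fintype V]
    (G : SimpleGraph V), (pr G univ univ).card ≤ 6 * Fintype.card V →
      ∃ H : Finset V, H.card ≤ K ∧ ∀ Q : Finset V, Disjoint Q H →
        Q.card ≤ 4 * H.card ^ 3 + 1 → k * ∑ v ∈ Q, (nb G v).card ≤ Fintype.card V := by
  obtain ⟨K, hK⟩ := exists_hubs_aux k (6 * k)
  refine ⟨K, ?_⟩
  intro V _ G hG
  rcases hK G with h | ⟨H, _, h2⟩
  · exact h
  · exfalso
    have h3 : ∑ v ∈ H, (nb G v).card ≤ ∑ v : V, (nb G v).card :=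
      Finset.sum_le_sum_of_subset (Finset.subset_univ _)
    rw [card_pr_univ] at hG
    have h4 : k * ∑ v ∈ H, (nb G v).card ≤ k * (6 * Fintype.card V) :=
      Nat.mul_le_mul_left _ (h3.trans hG)
    have h5 : 6 * k * (Fintype.card V + 1) = k * (6 * Fintype.card V) + 6 * k := by ring
    omega

end

end Pool.Agent.Lib.MP_009d13_co.P5
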