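import Pool.Agent.Lib.MP_009d13_co.P5.Defs2

/-!
# The number of edges after the contraction of an edge
-/

set_option autoImplicit false

namespace Pool.Agent.Lib.MP_009d13_co.P5

open Finset Classical

noncomputable section

theorem pr_ct {V : Type} [Fintype V] (G : SimpleGraph V) {x y : V} (hxy : G.Adj x y) :
    (pr G univ univ).card
      ≤ (pr (ct G x y) univ univ).card + 2 + 2 * (nb G x ∩ nb G y).card := by
  have hne : x ≠ y := hxy.ne
  set R : Finset V := (nb G y \ nb G x).erase x with hR
  set P0 : Finset (V × V) := (pr G univ univ).filter fun p => p.1 ≠ y ∧ p.2 ≠ y with hP0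
  have hRm : ∀ v, v ∈ R ↔ v ≠ x ∧ G.Adj y v ∧ ¬ G.Adj x v := by
    intro v
    simp [hR, nb]
  have hP : pr G univ univ ⊆ P0 ∪ ({y} ×ˢ nb G y ∪ nb G y ×ˢ {y}) := by
    rintro ⟨u, v⟩ huv
    simp only [pr, mem_filter, mem_univ, true_and] at huv
    simp only [hP0, pr, nb, mem_union, mem_filter, mem_univ, true_and, mem_product,
      mem_singleton]
    by_cases hu : u = y
    · right; left
      exact ⟨hu, hu ▸ huv⟩
    · by_cases hv : v = y
      · right; right
        exact ⟨hv ▸ huv.symm, hv⟩
      · left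
        exact ⟨huv, hu, hv⟩
  have hcard : (pr G univ univ).card ≤ P0.card + 2 * (nb G y).card := by
    refine (card_le_card hP).trans ((card_union_le _ _).trans ?_)
    have := card_union_le (({y} : Finset V) ×ˢ nb G y) (nb G y ×ˢ ({y} : Finset V))
    simp only [card_product, card_singleton, one_mul, mul_one] at this
    omega
  have hnb : (nb G y).card ≤ 1 + (nb G x ∩ nb G y).card + R.card := by
    have hs : nb G y ⊆ ({x} ∪ (nb G x ∩ nb G y)) ∪ R := by
      intro v hv
      simp only [nb, mem_filter, mem_univ, true_and] at hv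
      simp only [mem_union, mem_singleton, hRm, nb, mem_inter, mem_filter, mem_univ, true_and]
      by_cases h1 : v = x
      · exact Or.inl (Or.inl h1)
      · by_cases h2 : G.Adj x v
        · exact Or.inl (Or.inr ⟨h2, hv⟩)
        · exact Or.inr ⟨h1, hv, h2⟩
    refine (card_le_card hs).trans ((card_union_le _ _).trans ?_)
    have := card_union_le ({x} : Finset V) (nb G x ∩ nb G y)
    rw [card_singleton] at this
    omega
  have hE : P0.card + 2 * R.card ≤ (pr (ct G x y) univ univ).card := by
    have hinj : Function.Injective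
        (fun p : {v : V // v ≠ y} × {v : V // v ≠ y} => (p.1.1, p.2.1)) := by
      rintro ⟨⟨a, ha⟩, ⟨b, hb⟩⟩ ⟨⟨c, hc⟩, ⟨d, hd⟩⟩ h
      simp only [Prod.mk.injEq] at h
      obtain ⟨h1, h2⟩ := h
      subst h1 h2
      rfl
    rw [← card_image_of_injective (pr (ct G x y) univ univ) hinj]
    have hmem : ∀ u v : V, u ≠ y → v ≠ y → u ≠ v →
        (G.Adj u v ∨ (u = x ∧ G.Adj y v) ∨ (v = x ∧ G.Adj y u)) →
        (u, v) ∈ (pr (ct G x y) univ univ).image
          (fun p : {v : V // v ≠ y} × {v : V // v ≠ y} => (p.1.1, p.2.1)) := by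
      intro u v hu hv huv h
      rw [mem_image]
      refine ⟨(⟨u, hu⟩, ⟨v, hv⟩), ?_, rfl⟩
      simp only [pr, mem_filter, mem_univ, true_and, ct, SimpleGraph.fromRel_adj]
      refine ⟨fun h' => huv (congrArg Subtype.val h'), ?_⟩
      rcases h with h | h | h
      · exact Or.inl (Or.inl h)
      · exact Or.inl (Or.inr h)
      · exact Or.inr (Or.inr h)
    have hsub : (P0 ∪ ({x} ×ˢ R)) ∪ (R ×ˢ {x}) ⊆ (pr (ct G x y) univ univ).image
          (fun p : {v : V // v ≠ y} × {v : V // v ≠ y} => (p.1.1, p.2.1)) := by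
      rintro ⟨u, v⟩ huv
      simp only [mem_union, mem_product, mem_singleton, hRm] at huv
      rcases huv with (huv | ⟨rfl, h1, h2, h3⟩) | ⟨⟨h1, h2, h3⟩, rfl⟩
      · simp only [hP0, pr, mem_filter, mem_univ, true_and] at huv
        exact hmem u v huv.2.1 huv.2.2 huv.1.ne (Or.inl huv.1)
      · exact hmem u v hne h2.ne' (Ne.symm h1) (Or.inr (Or.inl ⟨rfl, h2⟩))
      · exact hmem u v h2.ne' hne h1 (Or.inr (Or.inr ⟨rfl, h2⟩))
    have hd1 : Disjoint P0 (({x} : Finset V) ×ˢ R) := by
      rw [Finset.disjoint_left]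
      rintro ⟨u, v⟩ h1 h2
      simp only [hP0, pr, mem_filter, mem_univ, true_and] at h1
      simp only [mem_product, mem_singleton, hRm] at h2
      obtain ⟨rfl, -, -, h3⟩ := h2
      exact h3 h1.1
    have hd2 : Disjoint (P0 ∪ (({x} : Finset V) ×ˢ R)) (R ×ˢ ({x} : Finset V)) := by
      rw [Finset.disjoint_left]
      rintro ⟨u, v⟩ h1 h2
      simp only [mem_product, mem_singleton, hRm] at h2
      obtain ⟨⟨h3, -, h4⟩, rfl⟩ := h2
      simp only [mem_union, hP0, pr, mem_filter, mem_univ, true_and, mem_product,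
        mem_singleton] at h1
      rcases h1 with h1 | h1
      · exact h4 h1.1.symm
      · exact h3 h1.1
    have := card_le_card hsub
    rw [card_union_of_disjoint hd2, card_union_of_disjoint hd1, card_product, card_product,
      card_singleton, one_mul, mul_one] at this
    omega
  omega

end

end Pool.Agent.Lib.MP_009d13_co.P5
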