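import Pool.Agent.Lib.MP_009d13_co.P5.Defs2

/-!
# A vertex of degree at most five whose edges all lie in three triangles gives a `K_5` minor
-/

set_option autoImplicit false

namespace Pool.Agent.Lib.MP_009d13_co.P5

open Finset Classical

noncomputable section

/-- five branch sets, one of them an edge -/
theorem k5_of {V : Type} {G : SimpleGraph V} {v z u1 u2 u3 u4 : V}
    (vz : G.Adj v z) (v1 : G.Adj v u1) (v2 : G.Adj v u2) (v3 : G.Adj v u3) (v4 : G.Adj v u4)
    (z1 : G.Adj z u1) (z2 : G.Adj z u2) (z3 : G.Adj z u3) (z4 : G.Adj z u4)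
    (h13 : G.Adj u1 u3) (h14 : G.Adj u1 u4) (h23 : G.Adj u2 u3) (h24 : G.Adj u2 u4)
    (h12 : u1 ≠ u2) (h34 : u3 ≠ u4) : IsMinor (⊤ : SimpleGraph (Fin 5)) G := by
  have con1 : ∀ x : V, (G.induce {x}).Connected := by
    intro x
    exact SimpleGraph.Connected.of_subsingleton
  refine ⟨![{v}, {z}, {u1, u3}, {u2}, {u4}], ?_, ?_, ?_⟩
  · intro w
    fin_cases w
    · exact con1 v
    · exact con1 z
    · exact SimpleGraph.induce_pair_connected_of_adj h13
    · exact con1 u2
    · exact con1 u4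
  · have e1 := vz.ne
    have e2 := v1.ne
    have e3 := v2.ne
    have e4 := v3.ne
    have e5 := v4.ne
    have e6 := z1.ne
    have e7 := z2.ne
    have e8 := z3.ne
    have e9 := z4.ne
    have e10 := h13.ne
    have e11 := h14.ne
    have e12 := h23.ne
    have e13 := h24.ne
    intro w w' hww
    fin_cases w <;> fin_cases w' <;>
      first
        | exact absurd rfl hww
        | (simp only [Set.disjoint_left]
           intro x hx hx'
           simp at hx hx'
           grind)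
  · intro w w' hww
    have hne : w ≠ w' := by simpa using hww
    fin_cases w <;> fin_cases w' <;>
      first
        | exact absurd rfl hne
        | (refine ⟨v, ?_, z, ?_, vz⟩ <;> (simp; done))
        | (refine ⟨z, ?_, v, ?_, vz.symm⟩ <;> (simp; done))
        | (refine ⟨v, ?_, u1, ?_, v1⟩ <;> (simp; done))
        | (refine ⟨u1, ?_, v, ?_, v1.symm⟩ <;> (simp; done))
        | (refine ⟨v, ?_, u2, ?_, v2⟩ <;> (simp; done))
        | (refine ⟨u2, ?_, v, ?_, v2.symm⟩ <;> (simp; done))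
        | (refine ⟨v, ?_, u4, ?_, v4⟩ <;> (simp; done))
        | (refine ⟨u4, ?_, v, ?_, v4.symm⟩ <;> (simp; done))
        | (refine ⟨z, ?_, u1, ?_, z1⟩ <;> (simp; done))
        | (refine ⟨u1, ?_, z, ?_, z1.symm⟩ <;> (simp; done))
        | (refine ⟨z, ?_, u2, ?_, z2⟩ <;> (simp; done))
        | (refine ⟨u2, ?_, z, ?_, z2.symm⟩ <;> (simp; done))
        | (refine ⟨z, ?_, u4, ?_, z4⟩ <;> (simp; done))
        | (refine ⟨u4, ?_, z, ?_, z4.symm⟩ <;> (simp; done))
        | (refine ⟨u3, ?_, u2, ?_, h23.symm⟩ <;> (simp; done))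
        | (refine ⟨u2, ?_, u3, ?_, h23⟩ <;> (simp; done))
        | (refine ⟨u1, ?_, u4, ?_, h14⟩ <;> (simp; done))
        | (refine ⟨u4, ?_, u1, ?_, h14.symm⟩ <;> (simp; done))
        | (refine ⟨u2, ?_, u4, ?_, h24⟩ <;> (simp; done))
        | (refine ⟨u4, ?_, u2, ?_, h24.symm⟩ <;> (simp; done))

/-- the same with five single vertices -/
theorem k5_of' {V : Type} {G : SimpleGraph V} {v a b c d : V}
    (va : G.Adj v a) (vb : G.Adj v b) (vc : G.Adj v c) (vd : G.Adj v d)
    (ab : G.Adj a b) (ac : G.Adj a c) (ad : G.Adj a d) (bc : G.Adj b c) (bd : G.Adj b d)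
    (cd : G.Adj c d) : IsMinor (⊤ : SimpleGraph (Fin 5)) G := by
  have con1 : ∀ x : V, (G.induce {x}).Connected := by
    intro x
    exact SimpleGraph.Connected.of_subsingleton
  refine ⟨![{v}, {a}, {b}, {c}, {d}], ?_, ?_, ?_⟩
  · intro w
    fin_cases w
    · exact con1 v
    · exact con1 a
    · exact con1 b
    · exact con1 c
    · exact con1 d
  · have e1 := va.ne
    have e2 := vb.ne
    have e3 := vc.ne
    have e4 := vd.ne
    have e5 := ab.ne
    have e6 := ac.ne
    have e7 := ad.ne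
    have e8 := bc.ne
    have e9 := bd.ne
    have e10 := cd.ne
    intro w w' hww
    fin_cases w <;> fin_cases w' <;>
      first
        | exact absurd rfl hww
        | (simp only [Set.disjoint_left]
           intro x hx hx'
           simp at hx hx'
           grind)
  · intro w w' hww
    have hne : w ≠ w' := by simpa using hww
    fin_cases w <;> fin_cases w' <;>
      first
        | exact absurd rfl hne
        | (refine ⟨v, ?_, a, ?_, va⟩ <;> (simp; done))
        | (refine ⟨a, ?_, v, ?_, va.symm⟩ <;> (simp; done))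
        | (refine ⟨v, ?_, b, ?_, vb⟩ <;> (simp; done))
        | (refine ⟨b, ?_, v, ?_, vb.symm⟩ <;> (simp; done))
        | (refine ⟨v, ?_, c, ?_, vc⟩ <;> (simp; done))
        | (refine ⟨c, ?_, v, ?_, vc.symm⟩ <;> (simp; done))
        | (refine ⟨v, ?_, d, ?_, vd⟩ <;> (simp; done))
        | (refine ⟨d, ?_, v, ?_, vd.symm⟩ <;> (simp; done))
        | (refine ⟨a, ?_, b, ?_, ab⟩ <;> (simp; done))
        | (refine ⟨b, ?_, a, ?_, ab.symm⟩ <;> (simp; done))
        | (refine ⟨a, ?_, c, ?_, ac⟩ <;> (simp; done))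
        | (refine ⟨c, ?_, a, ?_, ac.symm⟩ <;> (simp; done))
        | (refine ⟨a, ?_, d, ?_, ad⟩ <;> (simp; done))
        | (refine ⟨d, ?_, a, ?_, ad.symm⟩ <;> (simp; done))
        | (refine ⟨b, ?_, c, ?_, bc⟩ <;> (simp; done))
        | (refine ⟨c, ?_, b, ?_, bc.symm⟩ <;> (simp; done))
        | (refine ⟨b, ?_, d, ?_, bd⟩ <;> (simp; done))
        | (refine ⟨d, ?_, b, ?_, bd.symm⟩ <;> (simp; done))
        | (refine ⟨c, ?_, d, ?_, cd⟩ <;> (simp; done))
        | (refine ⟨d, ?_, c, ?_, cd.symm⟩ <;> (simp; done))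

set_option maxRecDepth 100000 in
/-- five points, every one adjacent to three of the others: the propositional part -/
theorem five_logic : ∀ ab ac ad ae bc bd be cd ce de : Bool,
    ((ab || ac) && (ab || ad) && (ab || ae) && (ac || ad) && (ac || ae) && (ad || ae) && (ab || bc) && (ab || bd) && (ab || be) && (bc || bd) && (bc || be) && (bd || be) && (ac || bc) && (ac || cd) && (ac || ce) && (bc || cd) && (bc || ce) && (cd || ce) && (ad || bd) && (ad || cd) && (ad || de) && (bd || cd) && (bd || de) && (cd || de) && (ae || be) && (ae || ce) && (ae || de) && (be || ce) && (be || de) && (ce || de)) = true →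
    ((ab && ac && ad && ae && bd && be && cd && ce) ||
      (ab && ad && ac && ae && bc && be && cd && de) ||
      (ab && ae && ac && ad && bc && bd && ce && de) ||
      (ab && bc && bd && be && ad && ae && cd && ce) ||
      (ab && bd && bc && be && ac && ae && cd && de) ||
      (ab && be && bc && bd && ac && ad && ce && de) ||
      (ac && bc && cd && ce && ad && ae && bd && be) ||
      (ac && cd && bc && ce && ab && ae && bd && de) ||
      (ac && ce && bc && cd && ab && ad && be && de) ||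
      (ad && bd && cd && de && ac && ae && bc && be) ||
      (ad && cd && bd && de && ab && ae && bc && ce) ||
      (ad && de && bd && cd && ab && ac && be && ce) ||
      (ae && be && ce && de && ac && ad && bc && bd) ||
      (ae && ce && be && de && ab && ad && bc && cd) ||
      (ae && de && be && ce && ab && ac && bd && cd)) = true := by
  decide

theorem minor_five {V : Type} {G : SimpleGraph V} {v a b c d e : V}
    (va : G.Adj v a) (vb : G.Adj v b) (vc : G.Adj v c) (vd : G.Adj v d) (ve : G.Adj v e)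
    (nab : a ≠ b) (nac : a ≠ c) (nad : a ≠ d) (nae : a ≠ e) (nbc : b ≠ c) (nbd : b ≠ d)
    (nbe : b ≠ e) (ncd : c ≠ d) (nce : c ≠ e) (nde : d ≠ e)
    (h : ∀ w x y : V, w ∈ ({a, b, c, d, e} : Finset V) → x ∈ ({a, b, c, d, e} : Finset V) →
      y ∈ ({a, b, c, d, e} : Finset V) → x ≠ w → y ≠ w → x ≠ y → G.Adj w x ∨ G.Adj w y) :
    IsMinor (⊤ : SimpleGraph (Fin 5)) G := by
  have qabc := h a b c (by simp) (by simp) (by simp) nab.symm nac.symm nbc
  have qabd := h a b d (by simp) (by simp) (by simp) nab.symm nad.symm nbd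
  have qabe := h a b e (by simp) (by simp) (by simp) nab.symm nae.symm nbe
  have qacd := h a c d (by simp) (by simp) (by simp) nac.symm nad.symm ncd
  have qace := h a c e (by simp) (by simp) (by simp) nac.symm nae.symm nce
  have qade := h a d e (by simp) (by simp) (by simp) nad.symm nae.symm nde
  have qbac := h b a c (by simp) (by simp) (by simp) nab nbc.symm nac
  have qbad := h b a d (by simp) (by simp) (by simp) nab nbd.symm nad
  have qbae := h b a e (by simp) (by simp) (by simp) nab nbe.symm nae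
  have qbcd := h b c d (by simp) (by simp) (by simp) nbc.symm nbd.symm ncd
  have qbce := h b c e (by simp) (by simp) (by simp) nbc.symm nbe.symm nce
  have qbde := h b d e (by simp) (by simp) (by simp) nbd.symm nbe.symm nde
  have qcab := h c a b (by simp) (by simp) (by simp) nac nbc nab
  have qcad := h c a d (by simp) (by simp) (by simp) nac ncd.symm nad
  have qcae := h c a e (by simp) (by simp) (by simp) nac nce.symm nae
  have qcbd := h c b d (by simp) (by simp) (by simp) nbc ncd.symm nbd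
  have qcbe := h c b e (by simp) (by simp) (by simp) nbc nce.symm nbe
  have qcde := h c d e (by simp) (by simp) (by simp) ncd.symm nce.symm nde
  have qdab := h d a b (by simp) (by simp) (by simp) nad nbd nab
  have qdac := h d a c (by simp) (by simp) (by simp) nad ncd nac
  have qdae := h d a e (by simp) (by simp) (by simp) nad nde.symm nae
  have qdbc := h d b c (by simp) (by simp) (by simp) nbd ncd nbc
  have qdbe := h d b e (by simp) (by simp) (by simp) nbd nde.symm nbe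
  have qdce := h d c e (by simp) (by simp) (by simp) ncd nde.symm nce
  have qeab := h e a b (by simp) (by simp) (by simp) nae nbe nab
  have qeac := h e a c (by simp) (by simp) (by simp) nae nce nac
  have qead := h e a d (by simp) (by simp) (by simp) nae nde nad
  have qebc := h e b c (by simp) (by simp) (by simp) nbe nce nbc
  have qebd := h e b d (by simp) (by simp) (by simp) nbe nde nbd
  have qecd := h e c d (by simp) (by simp) (by simp) nce nde ncd
  have key := five_logic (decide (G.Adj a b)) (decide (G.Adj a c)) (decide (G.Adj a d)) (decide (G.Adj a e)) (decide (G.Adj b c))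
    (decide (G.Adj b d)) (decide (G.Adj b e)) (decide (G.Adj c d)) (decide (G.Adj c e)) (decide (G.Adj d e)) (by
      simp only [Bool.and_eq_true, Bool.or_eq_true, decide_eq_true_eq]
      exact ⟨⟨⟨⟨⟨⟨⟨⟨⟨⟨⟨⟨⟨⟨⟨⟨⟨⟨⟨⟨⟨⟨⟨⟨⟨⟨⟨⟨⟨qabc,
        qabd⟩,
        qabe⟩,
        qacd⟩,
        qace⟩,
        qade⟩,
        qbac.imp (fun t => t.symm) (fun t => t)⟩,
        qbad.imp (fun t => t.symm) (fun t => t)⟩,
        qbae.imp (fun t => t.symm) (fun t => t)⟩,
        qbcd⟩,
        qbce⟩,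
        qbde⟩,
        qcab.imp (fun t => t.symm) (fun t => t.symm)⟩,
        qcad.imp (fun t => t.symm) (fun t => t)⟩,
        qcae.imp (fun t => t.symm) (fun t => t)⟩,
        qcbd.imp (fun t => t.symm) (fun t => t)⟩,
        qcbe.imp (fun t => t.symm) (fun t => t)⟩,
        qcde⟩,
        qdab.imp (fun t => t.symm) (fun t => t.symm)⟩,
        qdac.imp (fun t => t.symm) (fun t => t.symm)⟩,
        qdae.imp (fun t => t.symm) (fun t => t)⟩,
        qdbc.imp (fun t => t.symm) (fun t => t.symm)⟩,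
        qdbe.imp (fun t => t.symm) (fun t => t)⟩,
        qdce.imp (fun t => t.symm) (fun t => t)⟩,
        qeab.imp (fun t => t.symm) (fun t => t.symm)⟩,
        qeac.imp (fun t => t.symm) (fun t => t.symm)⟩,
        qead.imp (fun t => t.symm) (fun t => t.symm)⟩,
        qebc.imp (fun t => t.symm) (fun t => t.symm)⟩,
        qebd.imp (fun t => t.symm) (fun t => t.symm)⟩,
        qecd.imp (fun t => t.symm) (fun t => t.symm)⟩)
  simp only [Bool.and_eq_true, Bool.or_eq_true, decide_eq_true_eq] at key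
  rcases key with ((((((((((((((⟨⟨⟨⟨⟨⟨⟨h1, h2⟩, h3⟩, h4⟩, h5⟩, h6⟩, h7⟩, h8⟩ | ⟨⟨⟨⟨⟨⟨⟨h1, h2⟩, h3⟩, h4⟩, 
      h5⟩, h6⟩, h7⟩, h8⟩) | ⟨⟨⟨⟨⟨⟨⟨h1, h2⟩, h3⟩, h4⟩, h5⟩, h6⟩, h7⟩, h8⟩) | ⟨⟨⟨⟨⟨⟨⟨h1, h2⟩, h3⟩, 
      h4⟩, h5⟩, h6⟩, h7⟩, h8⟩) | ⟨⟨⟨⟨⟨⟨⟨h1, h2⟩, h3⟩, h4⟩, h5⟩, h6⟩, h7⟩, h8⟩) | ⟨⟨⟨⟨⟨⟨⟨h1, h2⟩, 
      h3⟩, h4⟩, h5⟩, h6⟩, h7⟩, h8⟩) | ⟨⟨⟨⟨⟨⟨⟨h1, h2⟩, h3⟩, h4⟩, h5⟩, h6⟩, h7⟩, h8⟩) | ⟨⟨⟨⟨⟨⟨⟨h1, 
      h2⟩, h3⟩, h4⟩, h5⟩, h6⟩, h7⟩, h8⟩) | ⟨⟨⟨⟨⟨⟨⟨h1, h2⟩, h3⟩, h4⟩, h5⟩, h6⟩, h7⟩, h8⟩) | 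
      ⟨⟨⟨⟨⟨⟨⟨h1, h2⟩, h3⟩, h4⟩, h5⟩, h6⟩, h7⟩, h8⟩) | ⟨⟨⟨⟨⟨⟨⟨h1, h2⟩, h3⟩, h4⟩, h5⟩, h6⟩, h7⟩, 
      h8⟩) | ⟨⟨⟨⟨⟨⟨⟨h1, h2⟩, h3⟩, h4⟩, h5⟩, h6⟩, h7⟩, h8⟩) | ⟨⟨⟨⟨⟨⟨⟨h1, h2⟩, h3⟩, h4⟩, h5⟩, h6⟩, 
      h7⟩, h8⟩) | ⟨⟨⟨⟨⟨⟨⟨h1, h2⟩, h3⟩, h4⟩, h5⟩, h6⟩, h7⟩, h8⟩) | ⟨⟨⟨⟨⟨⟨⟨h1, h2⟩, h3⟩, h4⟩, h5⟩, 
      h6⟩, h7⟩, h8⟩) 
  · exact k5_of (u1 := b) (u2 := c) (u3 := d) (u4 := e) va vb vc vd ve h1 h2 h3 h4 h5 h6 h7 h8 nbc nde
  · exact k5_of (u1 := b) (u2 := d) (u3 := c) (u4 := e) va vb vd vc ve h1 h2 h3 h4 h5 h6 h7.symm h8 nbd nce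
  · exact k5_of (u1 := b) (u2 := e) (u3 := c) (u4 := d) va vb ve vc vd h1 h2 h3 h4 h5 h6 h7.symm h8.symm nbe ncd
  · exact k5_of (u1 := a) (u2 := c) (u3 := d) (u4 := e) vb va vc vd ve h1.symm h2 h3 h4 h5 h6 h7 h8 nac nde
  · exact k5_of (u1 := a) (u2 := d) (u3 := c) (u4 := e) vb va vd vc ve h1.symm h2 h3 h4 h5 h6 h7.symm h8 nad nce
  · exact k5_of (u1 := a) (u2 := e) (u3 := c) (u4 := d) vb va ve vc vd h1.symm h2 h3 h4 h5 h6 h7.symm h8.symm nae ncd
  · exact k5_of (u1 := a) (u2 := b) (u3 := d) (u4 := e) vc va vb vd ve h1.symm h2.symm h3 h4 h5 h6 h7 h8 nab nde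
  · exact k5_of (u1 := a) (u2 := d) (u3 := b) (u4 := e) vc va vd vb ve h1.symm h2 h3.symm h4 h5 h6 h7.symm h8 nad nbe
  · exact k5_of (u1 := a) (u2 := e) (u3 := b) (u4 := d) vc va ve vb vd h1.symm h2 h3.symm h4 h5 h6 h7.symm h8.symm nae nbd
  · exact k5_of (u1 := a) (u2 := b) (u3 := c) (u4 := e) vd va vb vc ve h1.symm h2.symm h3.symm h4 h5 h6 h7 h8 nab nce
  · exact k5_of (u1 := a) (u2 := c) (u3 := b) (u4 := e) vd va vc vb ve h1.symm h2.symm h3.symm h4 h5 h6 h7.symm h8 nac nbe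
  · exact k5_of (u1 := a) (u2 := e) (u3 := b) (u4 := c) vd va ve vb vc h1.symm h2 h3.symm h4.symm h5 h6 h7.symm h8.symm nae nbc
  · exact k5_of (u1 := a) (u2 := b) (u3 := c) (u4 := d) ve va vb vc vd h1.symm h2.symm h3.symm h4.symm h5 h6 h7 h8 nab ncd
  · exact k5_of (u1 := a) (u2 := c) (u3 := b) (u4 := d) ve va vc vb vd h1.symm h2.symm h3.symm h4.symm h5 h6 h7.symm h8 nac nbd
  · exact k5_of (u1 := a) (u2 := d) (u3 := b) (u4 := c) ve va vd vb vc h1.symm h2.symm h3.symm h4.symm h5 h6 h7.symm h8.symm nad nbc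

theorem minor_local {V : Type} [Fintype V] (G : SimpleGraph V) (v : V) (h0 : (nb G v).Nonempty)
    (h5 : (nb G v).card ≤ 5) (h3 : ∀ w ∈ nb G v, 3 ≤ (nb G v ∩ nb G w).card) :
    IsMinor (⊤ : SimpleGraph (Fin 5)) G := by
  have hadj : ∀ w, w ∈ nb G v → G.Adj v w := by
    intro w hw
    simpa [nb] using hw
  have hself : ∀ w, w ∉ nb G w := by
    intro w hw
    simp [nb] at hw
  -- at most one non-neighbour
  have hone : ∀ w x y : V, w ∈ nb G v → x ∈ nb G v → y ∈ nb G v → x ≠ w → y ≠ w → x ≠ y →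
      G.Adj w x ∨ G.Adj w y := by
    intro w x y hw hx hy hxw hyw hxy
    by_contra hc
    rw [not_or] at hc
    have hsub : nb G v ∩ nb G w ⊆ (((nb G v).erase w).erase x).erase y := by
      intro t ht
      rw [Finset.mem_inter] at ht
      have ht2 : G.Adj w t := by simpa [nb] using ht.2
      rw [Finset.mem_erase, Finset.mem_erase, Finset.mem_erase]
      refine ⟨?_, ?_, ?_, ht.1⟩
      · rintro rfl
        exact hc.2 ht2
      · rintro rfl
        exact hc.1 ht2
      · rintro rfl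
        exact (G.loopless.irrefl _ ht2).elim
    have hcard := Finset.card_le_card hsub
    rw [Finset.card_erase_of_mem, Finset.card_erase_of_mem, Finset.card_erase_of_mem hw] at hcard
    · have := h3 w hw
      omega
    · rw [Finset.mem_erase]
      exact ⟨hxw, hx⟩
    · rw [Finset.mem_erase, Finset.mem_erase]
      exact ⟨hxy.symm, hyw, hy⟩
  obtain ⟨w0, hw0⟩ := h0
  have h4 : 4 ≤ (nb G v).card := by
    have hsub : nb G v ∩ nb G w0 ⊆ (nb G v).erase w0 := by
      intro t ht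
      rw [Finset.mem_inter] at ht
      rw [Finset.mem_erase]
      refine ⟨?_, ht.1⟩
      rintro rfl
      exact hself _ ht.2
    have hcard := Finset.card_le_card hsub
    rw [Finset.card_erase_of_mem hw0] at hcard
    have := h3 w0 hw0
    omega
  rcases (show (nb G v).card = 4 ∨ (nb G v).card = 5 by omega) with hc | hc
  · -- complete neighbourhood
    have hcomp : ∀ x y : V, x ∈ nb G v → y ∈ nb G v → x ≠ y → G.Adj x y := by
      intro x y hx hy hxy
      by_contra hn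
      have hsub : nb G v ∩ nb G x ⊆ ((nb G v).erase x).erase y := by
        intro t ht
        rw [Finset.mem_inter] at ht
        have ht2 : G.Adj x t := by simpa [nb] using ht.2
        rw [Finset.mem_erase, Finset.mem_erase]
        refine ⟨?_, ?_, ht.1⟩
        · rintro rfl
          exact hn ht2
        · rintro rfl
          exact (G.loopless.irrefl _ ht2).elim
      have hcard := Finset.card_le_card hsub
      rw [Finset.card_erase_of_mem, Finset.card_erase_of_mem hx] at hcard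
      · have := h3 x hx
        omega
      · rw [Finset.mem_erase]
        exact ⟨hxy.symm, hy⟩
    obtain ⟨a, t, hat, hN, ht⟩ := Finset.card_eq_succ.1 hc
    obtain ⟨b, c, d, hbc, hbd, hcd, rfl⟩ := Finset.card_eq_three.1 ht
    simp only [Finset.mem_insert, Finset.mem_singleton, not_or] at hat
    have ma : a ∈ nb G v := by rw [← hN]; simp
    have mb : b ∈ nb G v := by rw [← hN]; simp
    have mc : c ∈ nb G v := by rw [← hN]; simp
    have md : d ∈ nb G v := by rw [← hN]; simp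
    exact k5_of' (hadj a ma) (hadj b mb) (hadj c mc) (hadj d md) (hcomp a b ma mb hat.1)
      (hcomp a c ma mc hat.2.1) (hcomp a d ma md hat.2.2) (hcomp b c mb mc hbc)
      (hcomp b d mb md hbd) (hcomp c d mc md hcd)
  · obtain ⟨a, t, hat, hN, ht⟩ := Finset.card_eq_succ.1 hc
    obtain ⟨b, s, hbs, hs, hs3⟩ := Finset.card_eq_succ.1 ht
    obtain ⟨c, d, e, hcd, hce, hde, rfl⟩ := Finset.card_eq_three.1 hs3
    subst hs
    simp only [Finset.mem_insert, Finset.mem_singleton, not_or] at hat hbs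
    have hmem : ∀ w, w ∈ ({a, b, c, d, e} : Finset V) → w ∈ nb G v := by
      intro w hw
      rw [← hN]
      exact hw
    refine minor_five (a := a) (b := b) (c := c) (d := d) (e := e) (hadj a (hmem a (by simp)))
      (hadj b (hmem b (by simp))) (hadj c (hmem c (by simp))) (hadj d (hmem d (by simp)))
      (hadj e (hmem e (by simp))) hat.1 hat.2.1 hat.2.2.1 hat.2.2.2 hbs.1 hbs.2.1 hbs.2.2
      hcd hce hde ?_
    intro w x y hw hx hy
    exact hone w x y (hmem w hw) (hmem x hx) (hmem y hy)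

end

end Pool.Agent.Lib.MP_009d13_co.P5
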