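import Pool.Agent.Lib.MP_009d13_co.P5.MAD1
import Pool.Agent.Lib.MP_009d13_co.P5.MAD2
import Pool.Agent.Lib.MP_009d13_co.P5.MAD3

/-!
# Mader's bound: a graph without `K_5` minor on `n ≥ 3` vertices has at most `3 n - 6` edges
-/

set_option autoImplicit false

namespace Pool.Agent.Lib.MP_009d13_co.P5

open Finset Classical

noncomputable section

theorem card_coe' {V : Type} (S : Finset V) [Fintype ((S : Set V) : Type)] :
    Fintype.card ((S : Set V) : Type) = S.card :=
  Fintype.card_of_subtype S fun x => by simp

/-- the pairs inside `S` are pairs of the induced graph -/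
theorem pr_induce_le {V : Type} [Fintype V] (G : SimpleGraph V) (S : Finset V)
    [Fintype ((S : Set V) : Type)] :
    (pr G S S).card ≤ (pr (G.induce (S : Set V)) univ univ).card := by
  refine le_trans (card_le_card (?_ : pr G S S ⊆
    (pr (G.induce (S : Set V)) univ univ).image fun p => (p.1.1, p.2.1))) card_image_le
  intro p hp
  simp only [pr, mem_filter, mem_univ, true_and] at hp
  refine mem_image.2 ⟨(⟨p.1, by simpa using hp.1⟩, ⟨p.2, by simpa using hp.2.1⟩), ?_, rfl⟩
  simp only [pr, mem_filter, mem_univ, true_and]
  exact hp.2.2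

/-- the number of pairs is at least the sum of the degrees -/
theorem sum_nb_le {V : Type} [Fintype V] (G : SimpleGraph V) :
    ∑ v, (nb G v).card ≤ (pr G univ univ).card := by
  rw [← card_sigma]
  refine card_le_card_of_injOn (fun s : (_ : V) × V => (s.1, s.2)) ?_ ?_
  · intro s hs
    have hs' := hs
    simp only [coe_sigma, Set.mem_sigma_iff, mem_coe, mem_univ, true_and] at hs'
    simp only [nb, mem_filter, mem_univ, true_and] at hs'
    simp only [pr, coe_filter, mem_univ, true_and, Set.mem_ofPred_eq]
    exact hs'
  · rintro ⟨a, b⟩ - ⟨c, d⟩ - h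
    simp only [Prod.mk.injEq] at h
    obtain ⟨rfl, rfl⟩ := h
    rfl

theorem pr_le_sq {V : Type} [Fintype V] (G : SimpleGraph V) (S : Finset V) :
    (pr G S S).card ≤ S.card * S.card - S.card := by
  rw [← offDiag_card]
  refine card_le_card ?_
  intro p hp
  simp only [pr, mem_filter, mem_univ, true_and] at hp
  exact mem_offDiag.2 ⟨hp.1, hp.2.1, hp.2.2.ne⟩

/-- deletion of edges until the number of pairs is `m` or `m + 1` -/
theorem exists_sub {V : Type} [Fintype V] (m : ℕ) : ∀ (k : ℕ) (G : SimpleGraph V),
    (pr G univ univ).card = k → m ≤ k →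
    ∃ G' ≤ G, m ≤ (pr G' univ univ).card ∧ (pr G' univ univ).card ≤ m + 1 := by
  intro k
  induction k using Nat.strong_induction_on with
  | _ k ih =>
    intro G hk hm
    by_cases h : k ≤ m + 1
    · exact ⟨G, le_rfl, by omega, by omega⟩
    · have hne : (pr G univ univ).Nonempty := by
        rw [← card_pos]; omega
      obtain ⟨⟨x, y⟩, hxy⟩ := hne
      have hadj : G.Adj x y := by
        simpa [pr] using hxy
      have hsub : pr (G.deleteEdges {s(x, y)}) univ univ
          = ((pr G univ univ).erase (x, y)).erase (y, x) := by
        ext ⟨a, b⟩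
        simp only [pr, mem_filter, mem_univ, true_and, SimpleGraph.deleteEdges_adj,
          Set.mem_singleton_iff, Sym2.eq, Sym2.rel_iff', Prod.mk.injEq, Prod.swap_prod_mk,
          mem_erase, ne_eq]
        tauto
      have hcard : (pr (G.deleteEdges {s(x, y)}) univ univ).card = k - 2 := by
        rw [hsub, card_erase_of_mem, card_erase_of_mem hxy, hk]
        · omega
        · refine mem_erase.2 ⟨?_, ?_⟩
          · intro h
            simp only [Prod.mk.injEq] at h
            exact hadj.ne h.2
          · simpa [pr] using hadj.symm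
      obtain ⟨G', hG', h1, h2⟩ := ih (k - 2) (by omega) _ hcard (by omega)
      exact ⟨G', hG'.trans (SimpleGraph.deleteEdges_le _), h1, h2⟩

theorem mader (n : ℕ) : ∀ {V : Type} [Fintype V] (G : SimpleGraph V), Fintype.card V = n →
    3 ≤ n → ¬ IsMinor (⊤ : SimpleGraph (Fin 5)) G → (pr G univ univ).card + 12 ≤ 6 * n := by
  induction n with
  | zero => intro V _ G h h3; omega
  | succ n ih =>
    intro V _ G hn h3 hG
    by_cases h4 : n + 1 = 3
    · have := pr_le_sq G (univ : Finset V)
      rw [card_univ, hn, h4] at this
      omega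
    by_contra hcon
    have hm : 6 * (n + 1) - 11 ≤ (pr G univ univ).card := by omega
    obtain ⟨G', hle, h1, h2⟩ := exists_sub (6 * (n + 1) - 11) _ G rfl hm
    have hG' : ¬ IsMinor (⊤ : SimpleGraph (Fin 5)) G' := fun h => hG (minor_mono hle h)
    -- a vertex of degree at most five
    obtain ⟨v, hv⟩ : ∃ v, (nb G' v).card ≤ 5 := by
      by_contra hall
      push Not at hall
      have h6 : ∑ _v : V, 6 ≤ ∑ v, (nb G' v).card := sum_le_sum fun v _ => hall v
      have h7 := sum_nb_le G'
      rw [sum_const, card_univ, hn, smul_eq_mul] at h6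
      omega
    -- it is not isolated
    have hv0 : (nb G' v).Nonempty := by
      by_contra hem
      rw [not_nonempty_iff_eq_empty] at hem
      have hiso : ∀ w, ¬ G'.Adj v w := by
        intro w hw
        have : w ∈ nb G' v := by simpa [nb] using hw
        rw [hem] at this
        exact absurd this (notMem_empty _)
      have hcard : Fintype.card (((univ.erase v : Finset V) : Set V) : Type) = n := by
        rw [card_coe', card_erase_of_mem (mem_univ v), card_univ, hn]
        rfl
      have h5 := ih (G'.induce ((univ.erase v : Finset V) : Set V)) hcard (by omega)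
        (fun h => hG' (minor_of_induce h))
      have h6 := pr_induce_le G' (univ.erase v)
      have h7 : pr G' univ univ ⊆ pr G' (univ.erase v) (univ.erase v) := by
        intro p hp
        simp only [pr, mem_filter, mem_univ, true_and] at hp
        simp only [pr, mem_filter, mem_univ, true_and, mem_erase, and_true]
        refine ⟨?_, ?_, hp⟩
        · intro h; rw [h] at hp; exact hiso _ hp
        · intro h; rw [h] at hp; exact hiso _ hp.symm
      have h8 := card_le_card h7
      omega
    refine hG' (minor_local G' v hv0 hv fun w hw => ?_)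
    have hadj : G'.Adj v w := by simpa [nb] using hw
    have h5 := pr_ct G' hadj
    have hcard : Fintype.card {u : V // u ≠ w} = n := by
      rw [Fintype.card_subtype_compl, Fintype.card_subtype_eq, hn]
      rfl
    have h6 := ih (ct G' v w) hcard (by omega) (fun h => hG' (minor_of_ct hadj h))
    omega

theorem sparse6_of_planar {V : Type} [Fintype V] (G : SimpleGraph V) (h : IsPlanar G) :
    Sparse6 G := by
  intro S
  by_cases h3 : 3 ≤ S.card
  · have h1 := pr_induce_le G S
    have hcard : Fintype.card ((S : Set V) : Type) = S.card := card_coe' S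
    have h2 := mader S.card (G.induce (S : Set V)) hcard h3 (fun h' => h.1 (minor_of_induce h'))
    omega
  · have h1 := pr_le_sq G S
    have h2 : S.card = 0 ∨ S.card = 1 ∨ S.card = 2 := by omega
    rcases h2 with h2 | h2 | h2 <;> rw [h2] at h1 ⊢ <;> omega

end

end Pool.Agent.Lib.MP_009d13_co.P5
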