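import Pool.Agent.Lib.MP_009d13_co.P5.Defs2

/-!
# Paths with five edges in planar graphs: sizes of the weights
-/

set_option autoImplicit false

namespace Pool.Agent.Lib.MP_009d13_co.P5

open Finset Classical

theorem BED1.sum_nb {V : Type} [Fintype V] (G : SimpleGraph V) (hS : Sparse6 G) :
    ∑ v : V, (nb G v).card ≤ 6 * Fintype.card V := by
  have h1 : (pr G univ univ).card = ∑ v : V, (nb G v).card := by
    unfold pr nb
    rw [← Finset.univ_product_univ]
    simp only [mem_univ, true_and, card_filter]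
    rw [sum_product]
  rw [← h1]
  exact hS univ

theorem BED1.mm_le {V : Type} [Fintype V] (G : SimpleGraph V) (H : Finset V) (a b : V) :
    mm G H a b ≤ dd G H a := by
  unfold mm dd
  exact card_le_card (sdiff_subset_sdiff inter_subset_left (Subset.refl _))

theorem sum_dd_le {V : Type} [Fintype V] (G : SimpleGraph V) (hS : Sparse6 G) (H : Finset V) :
    ∑ h ∈ H, dd G H h ≤ 6 * Fintype.card V := by
  calc ∑ h ∈ H, dd G H h ≤ ∑ h ∈ H, (nb G h).card :=
        sum_le_sum fun h _ => card_le_card sdiff_subset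
    _ ≤ ∑ v : V, (nb G v).card := sum_le_sum_of_subset (subset_univ _)
    _ ≤ _ := BED1.sum_nb G hS

theorem tt_le {V : Type} [Fintype V] (G : SimpleGraph V) (hS : Sparse6 G) (H : Finset V) (a : V) :
    tt G H a ≤ 6 * Fintype.card V * dd G H a := by
  unfold tt
  calc ∑ b ∈ H.erase a, mm G H a b * dd G H b ≤ ∑ b ∈ H.erase a, dd G H a * dd G H b :=
        sum_le_sum fun b _ => Nat.mul_le_mul_right _ (BED1.mm_le G H a b)
    _ ≤ ∑ b ∈ H, dd G H a * dd G H b := sum_le_sum_of_subset (erase_subset _ _)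
    _ = dd G H a * ∑ b ∈ H, dd G H b := by rw [mul_sum]
    _ ≤ dd G H a * (6 * Fintype.card V) := Nat.mul_le_mul_left _ (sum_dd_le G hS H)
    _ = _ := by ring

theorem BED1.sum_tt {V : Type} [Fintype V] (G : SimpleGraph V) (hS : Sparse6 G) (H K : Finset V)
    (hK : K ⊆ H) : ∑ h ∈ K, tt G H h ≤ 36 * Fintype.card V ^ 2 := by
  calc ∑ h ∈ K, tt G H h ≤ ∑ h ∈ H, tt G H h := sum_le_sum_of_subset hK
    _ ≤ ∑ h ∈ H, 6 * Fintype.card V * dd G H h := sum_le_sum fun h _ => tt_le G hS H h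
    _ = 6 * Fintype.card V * ∑ h ∈ H, dd G H h := by rw [mul_sum]
    _ ≤ 6 * Fintype.card V * (6 * Fintype.card V) := Nat.mul_le_mul_left _ (sum_dd_le G hS H)
    _ = _ := by ring

theorem om_le {V : Type} [Fintype V] (G : SimpleGraph V) (hS : Sparse6 G) (H : Finset V)
    (z z' : V) : om G H z z' ≤ 108 * Fintype.card V ^ 2 := by
  have h1 := BED1.sum_tt G hS H (kk G H z) inter_subset_right
  have h2 := BED1.sum_tt G hS H (kk G H z') inter_subset_right
  have h3 : ∑ h ∈ kk G H z, ∑ h' ∈ (kk G H z').erase h, dd G H h * dd G H h' ≤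
      36 * Fintype.card V ^ 2 := by
    calc ∑ h ∈ kk G H z, ∑ h' ∈ (kk G H z').erase h, dd G H h * dd G H h'
        ≤ ∑ h ∈ kk G H z, ∑ h' ∈ H, dd G H h * dd G H h' :=
          sum_le_sum fun h _ => sum_le_sum_of_subset ((erase_subset _ _).trans inter_subset_right)
      _ ≤ ∑ h ∈ H, ∑ h' ∈ H, dd G H h * dd G H h' := sum_le_sum_of_subset inter_subset_right
      _ = (∑ h ∈ H, dd G H h) * ∑ h ∈ H, dd G H h := by rw [sum_mul_sum]
      _ ≤ (6 * Fintype.card V) * (6 * Fintype.card V) :=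
          Nat.mul_le_mul (sum_dd_le G hS H) (sum_dd_le G hS H)
      _ = _ := by ring
  unfold om
  omega

end Pool.Agent.Lib.MP_009d13_co.P5
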