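import Pool.Agent.Lib.MP_009d13_co.P5.Defs2

/-!
# Copies of the path with six vertices and sixtuples of vertices
-/

set_option autoImplicit false

namespace Pool.Agent.Lib.MP_009d13_co.P5

open Finset Classical

noncomputable section

/-- the reversal of the path with six vertices -/
def revHom : SimpleGraph.pathGraph 6 →g SimpleGraph.pathGraph 6 where
  toFun := Fin.rev
  map_rel' := by
    intro a b h
    rw [SimpleGraph.pathGraph_adj] at *
    simp only [Fin.val_rev]
    have ha := a.isLt
    have hb := b.isLt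
    omega

/-- the reversal as a copy -/
def revCopy : SimpleGraph.Copy (SimpleGraph.pathGraph 6) (SimpleGraph.pathGraph 6) :=
  revHom.toCopy Fin.rev_injective

/-- the six vertices of a copy -/
def six {V : Type} {G : SimpleGraph V} (f : SimpleGraph.Copy (SimpleGraph.pathGraph 6) G) :
    Six V := (f 0, f 1, f 2, f 3, f 4, f 5)

theorem six_injective {V : Type} {G : SimpleGraph V} :
    Function.Injective (six (G := G)) := by
  intro f g h
  simp only [six, Prod.mk.injEq] at h
  obtain ⟨h0, h1, h2, h3, h4, h5⟩ := h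
  ext a
  fin_cases a
  · exact h0
  · exact h1
  · exact h2
  · exact h3
  · exact h4
  · exact h5

theorem isPath6_six {V : Type} {G : SimpleGraph V}
    (f : SimpleGraph.Copy (SimpleGraph.pathGraph 6) G) : IsPath6 G (six f) := by
  have hadj : ∀ i j : Fin 6, i.val + 1 = j.val → G.Adj (f i) (f j) := by
    intro i j hij
    exact f.toHom.map_adj (SimpleGraph.pathGraph_adj.mpr (Or.inl hij))
  have hne : ∀ i j : Fin 6, i ≠ j → f i ≠ f j := fun i j hij h => hij (f.injective h)
  refine ⟨hadj 0 1 rfl, hadj 1 2 rfl, hadj 2 3 rfl, hadj 3 4 rfl, hadj 4 5 rfl, ?_⟩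
  simp only [six, List.nodup_cons, List.mem_cons, List.not_mem_nil, or_false, not_or,
    not_false_eq_true, List.nodup_nil, and_true]
  refine ⟨⟨hne 0 1 (by decide), hne 0 2 (by decide), hne 0 3 (by decide), hne 0 4 (by decide),
    hne 0 5 (by decide)⟩, ⟨hne 1 2 (by decide), hne 1 3 (by decide), hne 1 4 (by decide),
    hne 1 5 (by decide)⟩, ⟨hne 2 3 (by decide), hne 2 4 (by decide), hne 2 5 (by decide)⟩,
    ⟨hne 3 4 (by decide), hne 3 5 (by decide)⟩, hne 4 5 (by decide)⟩

theorem toSubgraph_comp_rev {V : Type} {G : SimpleGraph V}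
    (f : SimpleGraph.Copy (SimpleGraph.pathGraph 6) G) :
    (f.comp revCopy).toSubgraph = f.toSubgraph := by
  have key : ∀ g : SimpleGraph.Copy (SimpleGraph.pathGraph 6) G,
      (g.comp revCopy).toSubgraph ≤ g.toSubgraph := by
    intro g
    refine ⟨?_, ?_⟩
    · rintro v ⟨i, -, rfl⟩
      exact ⟨Fin.rev i, trivial, rfl⟩
    · rintro v w ⟨i, j, hij, rfl, rfl⟩
      exact ⟨Fin.rev i, Fin.rev j, revHom.map_adj hij, rfl, rfl⟩
  apply le_antisymm (key f)
  have h2 := key (f.comp revCopy)
  have h3 : (f.comp revCopy).comp revCopy = f := by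
    ext a
    show f (Fin.rev (Fin.rev a)) = f a
    rw [Fin.rev_rev]
  rwa [h3] at h2

theorem copy_le {V : Type} [Fintype V] (G : SimpleGraph V) :
    2 * G.copyCount (SimpleGraph.pathGraph 6) ≤ T6 G := by
  rw [SimpleGraph.copyCount_eq_card_image_copyToSubgraph]
  refine (Finset.mul_card_image_le_card _ 2 ?_).trans ?_
  · intro G' hG'
    rw [Finset.mem_image] at hG'
    obtain ⟨f, -, rfl⟩ := hG'
    have hne : f ≠ f.comp revCopy := by
      intro h
      have h0 : f 0 = f 5 := by
        have := DFunLike.congr_fun h 0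
        exact this
      exact absurd (f.injective h0) (by decide)
    rw [← Finset.card_pair hne]
    apply Finset.card_le_card
    intro g hg
    rw [Finset.mem_insert, Finset.mem_singleton] at hg
    rw [Finset.mem_filter]
    refine ⟨Finset.mem_univ _, ?_⟩
    rcases hg with rfl | rfl
    · rfl
    · exact toSubgraph_comp_rev f
  · unfold T6
    refine Finset.card_le_card_of_injOn six ?_ (six_injective.injOn)
    intro f _
    simp only [Finset.coe_filter, Finset.mem_univ, true_and, Set.mem_ofPred_eq]
    exact isPath6_six f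

end

end Pool.Agent.Lib.MP_009d13_co.P5
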