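import Pool.Agent.Lib.MP_009d13_co.P5.COPY

/-!
# Sixtuples of vertices and copies of the path with six vertices: the converse inequality
-/

set_option autoImplicit false

namespace Pool.Agent.Lib.MP_009d13_co.P5

open Finset Classical

noncomputable section

/-- the vertices of a sixtuple -/
def vert {V : Type} (v : Six V) (i : Fin 6) : V :=
  if i.1 = 0 then v.1 else if i.1 = 1 then v.2.1 else if i.1 = 2 then v.2.2.1
    else if i.1 = 3 then v.2.2.2.1 else if i.1 = 4 then v.2.2.2.2.1 else v.2.2.2.2.2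

theorem vert_adj {V : Type} {G : SimpleGraph V} {v : Six V} (h : IsPath6 G v) {i j : Fin 6}
    (hij : i.1 + 1 = j.1) : G.Adj (vert v i) (vert v j) := by
  obtain ⟨h1, h2, h3, h4, h5, -⟩ := h
  obtain ⟨i, hi⟩ := i
  obtain ⟨j, hj⟩ := j
  simp only at hij
  subst hij
  have : i = 0 ∨ i = 1 ∨ i = 2 ∨ i = 3 ∨ i = 4 := by omega
  rcases this with rfl | rfl | rfl | rfl | rfl
  · exact h1
  · exact h2
  · exact h3
  · exact h4
  · exact h5

theorem vert_injective {V : Type} {G : SimpleGraph V} {v : Six V} (h : IsPath6 G v) :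
    Function.Injective (vert v) := by
  obtain ⟨-, -, -, -, -, h6⟩ := h
  have h7 := List.nodup_iff_injective_get.1 h6
  have h8 : ∀ i : Fin 6, vert v i = [v.1, v.2.1, v.2.2.1, v.2.2.2.1, v.2.2.2.2.1,
      v.2.2.2.2.2].get ⟨i.1, i.2⟩ := by
    rintro ⟨i, hi⟩
    have : i = 0 ∨ i = 1 ∨ i = 2 ∨ i = 3 ∨ i = 4 ∨ i = 5 := by omega
    rcases this with rfl | rfl | rfl | rfl | rfl | rfl <;> rfl
  intro i j hij
  rw [h8, h8] at hij
  have h9 := h7 hij
  exact Fin.ext (congrArg Fin.val h9)

/-- the copy given by a path -/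
def copyOf {V : Type} {G : SimpleGraph V} (v : Six V) (h : IsPath6 G v) :
    SimpleGraph.Copy (SimpleGraph.pathGraph 6) G :=
  SimpleGraph.Hom.toCopy
    (⟨vert v, by
      intro i j hij
      rw [SimpleGraph.pathGraph_adj] at hij
      rcases hij with hij | hij
      · exact vert_adj h hij
      · exact (vert_adj h hij).symm⟩ : SimpleGraph.pathGraph 6 →g G)
    (vert_injective h)

theorem six_copyOf {V : Type} {G : SimpleGraph V} (v : Six V) (h : IsPath6 G v) :
    six (copyOf v h) = v := by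
  have h1 : ∀ i, copyOf v h i = vert v i := fun i => rfl
  unfold six
  simp only [h1]
  simp [vert]

theorem eq_or_eq {s : Fin 6 → ℕ} (hlt : ∀ i, s i < 6) (hne : ∀ i j, i ≠ j → s i ≠ s j)
    (hadj : ∀ i j : Fin 6, i.1 + 1 = j.1 → s i + 1 = s j ∨ s j + 1 = s i) :
    (∀ i, s i = i.1) ∨ ∀ i, s i = 5 - i.1 := by
  have a01 := hadj 0 1 rfl
  have a12 := hadj 1 2 rfl
  have a23 := hadj 2 3 rfl
  have a34 := hadj 3 4 rfl
  have a45 := hadj 4 5 rfl
  have n02 := hne 0 2 (by decide)
  have n13 := hne 1 3 (by decide)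
  have n24 := hne 2 4 (by decide)
  have n35 := hne 3 5 (by decide)
  have l0 := hlt 0
  have l5 := hlt 5
  rcases a01 with h | h
  · left
    have b2 : s 1 + 1 = s 2 := by omega
    have b3 : s 2 + 1 = s 3 := by omega
    have b4 : s 3 + 1 = s 4 := by omega
    have b5 : s 4 + 1 = s 5 := by omega
    intro i
    fin_cases i <;> simp <;> omega
  · right
    have b2 : s 2 + 1 = s 1 := by omega
    have b3 : s 3 + 1 = s 2 := by omega
    have b4 : s 4 + 1 = s 3 := by omega
    have b5 : s 5 + 1 = s 4 := by omega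
    intro i
    fin_cases i <;> simp <;> omega

theorem copy_eq_or {V : Type} {G : SimpleGraph V}
    (f g : SimpleGraph.Copy (SimpleGraph.pathGraph 6) G) (h : g.toSubgraph = f.toSubgraph) :
    g = f ∨ g = f.comp revCopy := by
  have hv : ∀ i, ∃ j, f j = g i := by
    intro i
    have h1 : g i ∈ g.toSubgraph.verts := ⟨i, trivial, rfl⟩
    rw [h] at h1
    obtain ⟨j, -, hj⟩ := h1
    exact ⟨j, hj⟩
  choose σ hσ using hv
  have hadj : ∀ i j : Fin 6, i.1 + 1 = j.1 → (σ i).1 + 1 = (σ j).1 ∨ (σ j).1 + 1 = (σ i).1 := by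
    intro i j hij
    have h1 : g.toSubgraph.Adj (g i) (g j) :=
      ⟨i, j, SimpleGraph.pathGraph_adj.2 (Or.inl hij), rfl, rfl⟩
    rw [h] at h1
    obtain ⟨a, b, hab, ha, hb⟩ := h1
    have ha' : a = σ i := f.injective (ha.trans (hσ i).symm)
    have hb' : b = σ j := f.injective (hb.trans (hσ j).symm)
    subst ha' hb'
    exact SimpleGraph.pathGraph_adj.1 hab
  have hne : ∀ i j : Fin 6, i ≠ j → (σ i).1 ≠ (σ j).1 := by
    intro i j hij h1
    apply hij
    apply g.injective
    show g i = g j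
    rw [← hσ i, ← hσ j, Fin.ext h1]
  rcases eq_or_eq (s := fun i => (σ i).1) (fun i => (σ i).2) hne hadj with h1 | h1
  · left
    ext i
    rw [← hσ i]
    congr 1
    exact Fin.ext (h1 i)
  · right
    ext i
    show g i = f (Fin.rev i)
    rw [← hσ i]
    congr 1
    apply Fin.ext
    rw [h1 i, Fin.val_rev]
    have := i.2
    omega

theorem le_copy {V : Type} [Fintype V] (G : SimpleGraph V) :
    T6 G ≤ 2 * G.copyCount (SimpleGraph.pathGraph 6) := by
  rw [SimpleGraph.copyCount_eq_card_image_copyToSubgraph]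
  have h1 : T6 G ≤ (Finset.univ : Finset (SimpleGraph.Copy (SimpleGraph.pathGraph 6) G)).card := by
    unfold T6
    apply Finset.card_le_card_of_surjOn six
    intro v hv
    rw [Finset.mem_coe, Finset.mem_filter] at hv
    exact ⟨copyOf v hv.2, Finset.mem_coe.2 (Finset.mem_univ _), six_copyOf v hv.2⟩
  refine h1.trans (Finset.card_le_mul_card_image _ 2 ?_)
  intro G' hG'
  rw [Finset.mem_image] at hG'
  obtain ⟨f, -, rfl⟩ := hG'
  refine (Finset.card_le_card (t := {f, f.comp revCopy}) ?_).trans Finset.card_le_two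
  intro g hg
  rw [Finset.mem_filter] at hg
  rw [Finset.mem_insert, Finset.mem_singleton]
  exact copy_eq_or f g hg.2

end

end Pool.Agent.Lib.MP_009d13_co.P5
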