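import Pool.Agent.Lib.MP_009d13_co.P5.Defs2

/-!
# Paths with five edges in planar graphs: error patterns
-/

set_option autoImplicit false

namespace Pool.Agent.Lib.MP_009d13_co.P5

open Finset Classical

noncomputable section

theorem dec_mem_pr_univ {V : Type} [Fintype V] (G : SimpleGraph V) {a b : V} (h : G.Adj a b) :
    (a, b) ∈ pr G univ univ := by
  simp [pr, h]

/-- a bound by an injection into a product -/
theorem dec_pc_le_of_inj {V A : Type} [Fintype V] (G : SimpleGraph V)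
    (P0 P1 P2 P3 P4 P5 : Finset V) (f : Six V → A) (hf : Function.Injective f) (T : Finset A)
    (h : ∀ v : Six V, IsPath6 G v → v.1 ∈ P0 → v.2.1 ∈ P1 → v.2.2.1 ∈ P2 →
      v.2.2.2.1 ∈ P3 → v.2.2.2.2.1 ∈ P4 → v.2.2.2.2.2 ∈ P5 → f v ∈ T) :
    pc G P0 P1 P2 P3 P4 P5 ≤ T.card := by
  unfold pc
  refine Finset.card_le_card_of_injOn f ?_ hf.injOn
  intro v hv
  have hv' := (Finset.mem_filter.mp (Finset.mem_coe.mp hv)).2
  obtain ⟨h1, h2, h3, h4, h5, h6, h7⟩ := hv'
  exact Finset.mem_coe.mpr (h v h1 h2 h3 h4 h5 h6 h7)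

theorem pc_err {V : Type} [Fintype V] (G : SimpleGraph V) (H : Finset V)
    (he : (pr G univ univ).card ≤ 6 * Fintype.card V) :
    pc G univ H H H univ univ ≤ 6 * H.card ^ 3 * Fintype.card V ^ 2 ∧
    pc G H H H univ H univ ≤ H.card ^ 4 * Fintype.card V ^ 2 ∧
    pc G univ H H univ H H ≤ H.card ^ 4 * Fintype.card V ^ 2 ∧
    pc G H H univ H univ univ ≤ 6 * H.card ^ 3 * Fintype.card V ^ 2 ∧
    pc G H H univ univ H univ ≤ 6 * H.card ^ 3 * Fintype.card V ^ 2 ∧
    pc G univ univ H H univ univ ≤ 36 * H.card ^ 2 * Fintype.card V ^ 2 := by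
  have hn : (univ : Finset V).card = Fintype.card V := rfl
  refine ⟨?_, ?_, ?_, ?_, ?_, ?_⟩
  · have h := dec_pc_le_of_inj G univ H H H univ univ
      (fun v => ((v.1, v.2.1, v.2.2.1, v.2.2.2.1), (v.2.2.2.2.1, v.2.2.2.2.2)))
      (by
        rintro ⟨a, b, c, d, e, f⟩ ⟨a', b', c', d', e', f'⟩ h
        simp only [Prod.mk.injEq] at h ⊢
        tauto)
      ((univ ×ˢ H ×ˢ H ×ˢ H) ×ˢ pr G univ univ)
      (by
        rintro ⟨a, b, c, d, e, f⟩ h1 h2 h3 h4 h5 h6 h7
        simp only [mem_product, mem_univ, true_and]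
        exact ⟨⟨h3, h4, h5⟩, dec_mem_pr_univ G h1.2.2.2.2.1⟩)
    simp only [card_product, hn] at h
    calc _ ≤ _ := h
      _ ≤ Fintype.card V * (H.card * (H.card * H.card)) * (6 * Fintype.card V) :=
          Nat.mul_le_mul_left _ he
      _ = _ := by ring
  · have h := dec_pc_le_of_inj G H H H univ H univ
      (fun v => ((v.1, v.2.1, v.2.2.1, v.2.2.2.2.1), (v.2.2.2.1, v.2.2.2.2.2)))
      (by
        rintro ⟨a, b, c, d, e, f⟩ ⟨a', b', c', d', e', f'⟩ h
        simp only [Prod.mk.injEq] at h ⊢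
        tauto)
      ((H ×ˢ H ×ˢ H ×ˢ H) ×ˢ (univ ×ˢ univ))
      (by
        rintro ⟨a, b, c, d, e, f⟩ h1 h2 h3 h4 h5 h6 h7
        simp only [mem_product, mem_univ, and_true]
        exact ⟨h2, h3, h4, h6⟩)
    simp only [card_product, hn] at h
    calc _ ≤ _ := h
      _ = _ := by ring
  · have h := dec_pc_le_of_inj G univ H H univ H H
      (fun v => ((v.2.1, v.2.2.1, v.2.2.2.2.1, v.2.2.2.2.2), (v.1, v.2.2.2.1)))
      (by
        rintro ⟨a, b, c, d, e, f⟩ ⟨a', b', c', d', e', f'⟩ h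
        simp only [Prod.mk.injEq] at h ⊢
        tauto)
      ((H ×ˢ H ×ˢ H ×ˢ H) ×ˢ (univ ×ˢ univ))
      (by
        rintro ⟨a, b, c, d, e, f⟩ h1 h2 h3 h4 h5 h6 h7
        simp only [mem_product, mem_univ, and_true]
        exact ⟨h3, h4, h6, h7⟩)
    simp only [card_product, hn] at h
    calc _ ≤ _ := h
      _ = _ := by ring
  · have h := dec_pc_le_of_inj G H H univ H univ univ
      (fun v => ((v.1, v.2.1, v.2.2.1, v.2.2.2.1), (v.2.2.2.2.1, v.2.2.2.2.2)))
      (by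
        rintro ⟨a, b, c, d, e, f⟩ ⟨a', b', c', d', e', f'⟩ h
        simp only [Prod.mk.injEq] at h ⊢
        tauto)
      ((H ×ˢ H ×ˢ univ ×ˢ H) ×ˢ pr G univ univ)
      (by
        rintro ⟨a, b, c, d, e, f⟩ h1 h2 h3 h4 h5 h6 h7
        simp only [mem_product, mem_univ, true_and]
        exact ⟨⟨h2, h3, h5⟩, dec_mem_pr_univ G h1.2.2.2.2.1⟩)
    simp only [card_product, hn] at h
    calc _ ≤ _ := h
      _ ≤ H.card * (H.card * (Fintype.card V * H.card)) * (6 * Fintype.card V) :=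
          Nat.mul_le_mul_left _ he
      _ = _ := by ring
  · have h := dec_pc_le_of_inj G H H univ univ H univ
      (fun v => ((v.1, v.2.1, v.2.2.2.2.1, v.2.2.2.2.2), (v.2.2.1, v.2.2.2.1)))
      (by
        rintro ⟨a, b, c, d, e, f⟩ ⟨a', b', c', d', e', f'⟩ h
        simp only [Prod.mk.injEq] at h ⊢
        tauto)
      ((H ×ˢ H ×ˢ H ×ˢ univ) ×ˢ pr G univ univ)
      (by
        rintro ⟨a, b, c, d, e, f⟩ h1 h2 h3 h4 h5 h6 h7
        simp only [mem_product, mem_univ, and_true]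
        exact ⟨⟨h2, h3, h6⟩, dec_mem_pr_univ G h1.2.2.1⟩)
    simp only [card_product, hn] at h
    calc _ ≤ _ := h
      _ ≤ H.card * (H.card * (H.card * Fintype.card V)) * (6 * Fintype.card V) :=
          Nat.mul_le_mul_left _ he
      _ = _ := by ring
  · have h := dec_pc_le_of_inj G univ univ H H univ univ
      (fun v => ((v.2.2.1, v.2.2.2.1), (v.1, v.2.1), (v.2.2.2.2.1, v.2.2.2.2.2)))
      (by
        rintro ⟨a, b, c, d, e, f⟩ ⟨a', b', c', d', e', f'⟩ h
        simp only [Prod.mk.injEq] at h ⊢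
        tauto)
      ((H ×ˢ H) ×ˢ (pr G univ univ ×ˢ pr G univ univ))
      (by
        rintro ⟨a, b, c, d, e, f⟩ h1 h2 h3 h4 h5 h6 h7
        simp only [mem_product]
        exact ⟨⟨h4, h5⟩, dec_mem_pr_univ G h1.1, dec_mem_pr_univ G h1.2.2.2.2.1⟩)
    simp only [card_product] at h
    calc _ ≤ _ := h
      _ ≤ H.card * H.card * ((6 * Fintype.card V) * (6 * Fintype.card V)) :=
          Nat.mul_le_mul_left _ (Nat.mul_le_mul he he)
      _ = _ := by ring

end

end Pool.Agent.Lib.MP_009d13_co.P5
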