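import Pool.Agent.Lib.MP_009d13_co.P5.Defs2

/-!
# Paths with five edges in planar graphs: the patterns with three hubs
-/

set_option autoImplicit false

namespace Pool.Agent.Lib.MP_009d13_co.P5

open Finset Classical

noncomputable section

theorem dec_isPath6_iff {V : Type} [Fintype V] (G : SimpleGraph V) (a b c d e f : V) :
    IsPath6 G (a, b, c, d, e, f) ↔ (G.Adj a b ∧ G.Adj b c ∧ G.Adj c d ∧ G.Adj d e ∧ G.Adj e f) ∧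
      (a ≠ b ∧ a ≠ c ∧ a ≠ d ∧ a ≠ e ∧ a ≠ f) ∧ (b ≠ c ∧ b ≠ d ∧ b ≠ e ∧ b ≠ f) ∧
      (c ≠ d ∧ c ≠ e ∧ c ≠ f) ∧ (d ≠ e ∧ d ≠ f) ∧ e ≠ f := by
  simp only [IsPath6, List.nodup_cons, List.mem_cons, List.not_mem_nil, or_false, not_or,
    List.nodup_nil, and_true, not_false_eq_true]
  tauto

theorem dec_mem_nb {V : Type} [Fintype V] (G : SimpleGraph V) (a b : V) :
    b ∈ nb G a ↔ G.Adj a b := by
  simp [nb]

/-- a bound by an injection into a sum over triples of distinct hubs -/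
theorem dec_pc_le_triples {V : Type} [Fintype V] (G : SimpleGraph V) (H : Finset V)
    (P0 P1 P2 P3 P4 P5 : Finset V) (X Y Z : V → V → V → Finset V)
    (f : Six V → V × V × V × V × V × V) (hf : Function.Injective f)
    (h : ∀ v : Six V, IsPath6 G v → v.1 ∈ P0 → v.2.1 ∈ P1 → v.2.2.1 ∈ P2 →
      v.2.2.2.1 ∈ P3 → v.2.2.2.2.1 ∈ P4 → v.2.2.2.2.2 ∈ P5 →
      ((f v).1 ∈ H ∧ (f v).2.1 ∈ H.erase (f v).1 ∧ (f v).2.2.1 ∈ (H.erase (f v).1).erase (f v).2.1)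
      ∧ ((f v).2.2.2.1 ∈ X (f v).1 (f v).2.1 (f v).2.2.1 ∧
        (f v).2.2.2.2.1 ∈ Y (f v).1 (f v).2.1 (f v).2.2.1 ∧
        (f v).2.2.2.2.2 ∈ Z (f v).1 (f v).2.1 (f v).2.2.1)) :
    pc G P0 P1 P2 P3 P4 P5 ≤ ∑ b ∈ H, ∑ c ∈ H.erase b, ∑ a ∈ (H.erase b).erase c,
      (X b c a).card * ((Y b c a).card * (Z b c a).card) := by
  have e : ∑ b ∈ H, ∑ c ∈ H.erase b, ∑ a ∈ (H.erase b).erase c,
      (X b c a).card * ((Y b c a).card * (Z b c a).card)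
      = (H.sigma fun b => (H.erase b).sigma fun c => ((H.erase b).erase c).sigma fun a =>
          (X b c a) ×ˢ (Y b c a) ×ˢ (Z b c a)).card := by
    simp only [card_sigma, card_product]
  rw [e]
  unfold pc
  refine Finset.card_le_card_of_injOn
    (fun v => ⟨(f v).1, ⟨(f v).2.1, ⟨(f v).2.2.1, ((f v).2.2.2.1, (f v).2.2.2.2.1,
      (f v).2.2.2.2.2)⟩⟩⟩) ?_ ?_
  · intro v hv
    have hv' := (Finset.mem_filter.mp (Finset.mem_coe.mp hv)).2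
    obtain ⟨h1, h2, h3, h4, h5, h6, h7⟩ := hv'
    obtain ⟨⟨g1, g2, g3⟩, g4, g5, g6⟩ := h v h1 h2 h3 h4 h5 h6 h7
    refine Finset.mem_coe.mpr ?_
    simp only [mem_sigma, mem_product]
    exact ⟨g1, g2, g3, g4, g5, g6⟩
  · intro v _ w _ hvw
    simp only [Sigma.mk.injEq, heq_eq_eq, Prod.mk.injEq] at hvw
    obtain ⟨k1, k2, k3, k4, k5, k6⟩ := hvw
    exact hf (Prod.ext k1 (Prod.ext k2 (Prod.ext k3 (Prod.ext k4 (Prod.ext k5 k6)))))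

theorem pc_aa {V : Type} [Fintype V] (G : SimpleGraph V) (H : Finset V) :
    pc G H Hᶜ H Hᶜ H Hᶜ ≤ aa G H := by
  have h := dec_pc_le_triples G H H Hᶜ H Hᶜ H Hᶜ
    (fun b _ a => (nb G a ∩ nb G b) \ H) (fun b c _ => (nb G b ∩ nb G c) \ H)
    (fun _ c _ => nb G c \ H)
    (fun v => (v.2.2.1, v.2.2.2.2.1, v.1, v.2.1, v.2.2.2.1, v.2.2.2.2.2))
    (by
      rintro ⟨a, b, c, d, e, f⟩ ⟨a', b', c', d', e', f'⟩ h
      simp only [Prod.mk.injEq] at h ⊢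
      tauto)
    (by
      rintro ⟨a, b, c, d, e, f⟩ hP h1 h2 h3 h4 h5 h6
      rw [dec_isPath6_iff] at hP
      obtain ⟨⟨e1, e2, e3, e4, e5⟩, ⟨n1, n2, n3, n4, n5⟩, ⟨m1, m2, m3, m4⟩, ⟨l1, l2, l3⟩,
        ⟨k1, k2⟩, j1⟩ := hP
      simp only [mem_compl] at h1 h2 h3 h4 h5 h6
      simp only [mem_erase, mem_sdiff, mem_inter, dec_mem_nb]
      exact ⟨⟨h3, ⟨l2.symm, h5⟩, ⟨n4, n2, h1⟩⟩, ⟨⟨e1, e2.symm⟩, h2⟩, ⟨⟨e3, e4.symm⟩, h4⟩,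
        e5, h6⟩)
  refine h.trans (le_of_eq ?_)
  unfold aa mm dd
  refine Finset.sum_congr rfl fun b _ => Finset.sum_congr rfl fun c _ =>
    Finset.sum_congr rfl fun a _ => ?_
  ring

theorem pc_cc {V : Type} [Fintype V] (G : SimpleGraph V) (H : Finset V) :
    pc G Hᶜ H H Hᶜ H Hᶜ ≤ cc G H := by
  have h := dec_pc_le_triples G H Hᶜ H H Hᶜ H Hᶜ
    (fun _ _ a => nb G a \ H) (fun b c _ => (nb G b ∩ nb G c) \ H)
    (fun _ c _ => nb G c \ H)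
    (fun v => (v.2.2.1, v.2.2.2.2.1, v.2.1, v.1, v.2.2.2.1, v.2.2.2.2.2))
    (by
      rintro ⟨a, b, c, d, e, f⟩ ⟨a', b', c', d', e', f'⟩ h
      simp only [Prod.mk.injEq] at h ⊢
      tauto)
    (by
      rintro ⟨a, b, c, d, e, f⟩ hP h1 h2 h3 h4 h5 h6
      rw [dec_isPath6_iff] at hP
      obtain ⟨⟨e1, e2, e3, e4, e5⟩, ⟨n1, n2, n3, n4, n5⟩, ⟨m1, m2, m3, m4⟩, ⟨l1, l2, l3⟩,
        ⟨k1, k2⟩, j1⟩ := hP
      simp only [mem_compl] at h1 h2 h3 h4 h5 h6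
      simp only [mem_erase, mem_sdiff, mem_inter, dec_mem_nb]
      exact ⟨⟨h3, ⟨l2.symm, h5⟩, ⟨m3, m1, h2⟩⟩, ⟨e1.symm, h1⟩, ⟨⟨e3, e4.symm⟩, h4⟩,
        e5, h6⟩)
  refine h.trans (le_of_eq ?_)
  unfold cc mm dd
  refine Finset.sum_congr rfl fun b _ => Finset.sum_congr rfl fun c _ =>
    Finset.sum_congr rfl fun a _ => ?_
  ring

end

end Pool.Agent.Lib.MP_009d13_co.P5
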