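import Pool.Agent.Lib.MP_009d13_co.P5.DEC3

/-!
# Paths with five edges in planar graphs: the patterns with an edge between small vertices
-/

set_option autoImplicit false

namespace Pool.Agent.Lib.MP_009d13_co.P5

open Finset Classical

noncomputable section

theorem pc_bb1 {V : Type} [Fintype V] (G : SimpleGraph V) (H : Finset V) :
    pc G Hᶜ Hᶜ H Hᶜ H Hᶜ ≤ ∑ p ∈ pr G Hᶜ Hᶜ, ∑ h ∈ kk G H p.2, tt G H h := by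
  have e : ∑ p ∈ pr G Hᶜ Hᶜ, ∑ h ∈ kk G H p.2, tt G H h
      = ((pr G Hᶜ Hᶜ).sigma fun p => (kk G H p.2).sigma fun h => (H.erase h).sigma fun b =>
          ((nb G h ∩ nb G b) \ H) ×ˢ (nb G b \ H)).card := by
    simp only [card_sigma, card_product]
    rfl
  rw [e]
  unfold pc
  refine Finset.card_le_card_of_injOn
    (fun v => ⟨(v.1, v.2.1), ⟨v.2.2.1, ⟨v.2.2.2.2.1, (v.2.2.2.1, v.2.2.2.2.2)⟩⟩⟩) ?_ ?_
  · rintro ⟨a, b, c, d, e, f⟩ hv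
    have hv' := (Finset.mem_filter.mp (Finset.mem_coe.mp hv)).2
    obtain ⟨hP, h1, h2, h3, h4, h5, h6⟩ := hv'
    rw [dec_isPath6_iff] at hP
    obtain ⟨⟨e1, e2, e3, e4, e5⟩, ⟨n1, n2, n3, n4, n5⟩, ⟨m1, m2, m3, m4⟩, ⟨l1, l2, l3⟩,
        ⟨k1, k2⟩, j1⟩ := hP
    refine Finset.mem_coe.mpr ?_
    simp only [mem_compl] at h1 h2 h3 h4 h5 h6
    simp only [mem_sigma, mem_product, kk, pr, mem_filter, mem_univ, true_and, mem_compl,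
      mem_erase, mem_sdiff, mem_inter, dec_mem_nb]
    exact ⟨⟨h1, h2, e1⟩, ⟨e2, h3⟩, ⟨l2.symm, h5⟩, ⟨⟨e3, e4.symm⟩, h4⟩, e5, h6⟩
  · rintro ⟨a, b, c, d, e, f⟩ _ ⟨a', b', c', d', e', f'⟩ _ hvw
    simp only [Sigma.mk.injEq, heq_eq_eq, Prod.mk.injEq] at hvw ⊢
    tauto

theorem pc_bb2 {V : Type} [Fintype V] (G : SimpleGraph V) (H : Finset V) :
    pc G Hᶜ H Hᶜ Hᶜ H Hᶜ ≤ ∑ p ∈ pr G Hᶜ Hᶜ,
      ∑ h ∈ kk G H p.1, ∑ h' ∈ (kk G H p.2).erase h, dd G H h * dd G H h' := by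
  have e : ∑ p ∈ pr G Hᶜ Hᶜ,
      ∑ h ∈ kk G H p.1, ∑ h' ∈ (kk G H p.2).erase h, dd G H h * dd G H h'
      = ((pr G Hᶜ Hᶜ).sigma fun p => (kk G H p.1).sigma fun h =>
          ((kk G H p.2).erase h).sigma fun h' => (nb G h \ H) ×ˢ (nb G h' \ H)).card := by
    simp only [card_sigma, card_product]
    rfl
  rw [e]
  unfold pc
  refine Finset.card_le_card_of_injOn
    (fun v => ⟨(v.2.2.1, v.2.2.2.1), ⟨v.2.1, ⟨v.2.2.2.2.1, (v.1, v.2.2.2.2.2)⟩⟩⟩) ?_ ?_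
  · rintro ⟨a, b, c, d, e, f⟩ hv
    have hv' := (Finset.mem_filter.mp (Finset.mem_coe.mp hv)).2
    obtain ⟨hP, h1, h2, h3, h4, h5, h6⟩ := hv'
    rw [dec_isPath6_iff] at hP
    obtain ⟨⟨e1, e2, e3, e4, e5⟩, ⟨n1, n2, n3, n4, n5⟩, ⟨m1, m2, m3, m4⟩, ⟨l1, l2, l3⟩,
        ⟨k1, k2⟩, j1⟩ := hP
    refine Finset.mem_coe.mpr ?_
    simp only [mem_compl] at h1 h2 h3 h4 h5 h6
    simp only [mem_sigma, mem_product, kk, pr, mem_filter, mem_univ, true_and, mem_compl,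
      mem_erase, mem_sdiff, mem_inter, dec_mem_nb]
    exact ⟨⟨h3, h4, e3⟩, ⟨e2.symm, h2⟩, ⟨m3.symm, e4, h5⟩, ⟨e1.symm, h1⟩, e5, h6⟩
  · rintro ⟨a, b, c, d, e, f⟩ _ ⟨a', b', c', d', e', f'⟩ _ hvw
    simp only [Sigma.mk.injEq, heq_eq_eq, Prod.mk.injEq] at hvw ⊢
    tauto

theorem dec_sum_pr_swap {V : Type} [Fintype V] (G : SimpleGraph V) (H : Finset V) (F : V → ℕ) :
    ∑ p ∈ pr G Hᶜ Hᶜ, F p.1 = ∑ p ∈ pr G Hᶜ Hᶜ, F p.2 := by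
  refine Finset.sum_equiv (Equiv.prodComm V V) ?_ ?_
  · rintro ⟨a, b⟩
    simp only [pr, mem_filter, mem_univ, true_and, mem_compl, Equiv.prodComm_apply, Prod.swap]
    constructor
    · rintro ⟨h1, h2, h3⟩
      exact ⟨h2, h1, h3.symm⟩
    · rintro ⟨h1, h2, h3⟩
      exact ⟨h2, h1, h3.symm⟩
  · rintro ⟨a, b⟩ _
    rfl

theorem pc_bb {V : Type} [Fintype V] (G : SimpleGraph V) (H : Finset V) :
    2 * pc G Hᶜ Hᶜ H Hᶜ H Hᶜ + pc G Hᶜ H Hᶜ Hᶜ H Hᶜ ≤ bb G H := by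
  have h1 := pc_bb1 G H
  have h2 := pc_bb2 G H
  have h3 := dec_sum_pr_swap G H fun z => ∑ h ∈ kk G H z, tt G H h
  have h4 : bb G H = (∑ p ∈ pr G Hᶜ Hᶜ, ∑ h ∈ kk G H p.1, tt G H h)
      + (∑ p ∈ pr G Hᶜ Hᶜ, ∑ h ∈ kk G H p.2, tt G H h)
      + ∑ p ∈ pr G Hᶜ Hᶜ,
      ∑ h ∈ kk G H p.1, ∑ h' ∈ (kk G H p.2).erase h, dd G H h * dd G H h' := by
    unfold bb om
    rw [Finset.sum_add_distrib, Finset.sum_add_distrib]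
  rw [h4, h3]
  omega

end

end Pool.Agent.Lib.MP_009d13_co.P5
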