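import Pool.Agent.Lib.MP_009d13_co.P5.DEC1
import Pool.Agent.Lib.MP_009d13_co.P5.DEC2
import Pool.Agent.Lib.MP_009d13_co.P5.DEC3
import Pool.Agent.Lib.MP_009d13_co.P5.DEC4

/-!
# Module DEC: the paths and the patterns of hubs
-/

set_option autoImplicit false

namespace Pool.Agent.Lib.MP_009d13_co.P5

open Finset Classical

noncomputable section

/-! ### DEC (uses DEC1 DEC2 DEC3 DEC4) -/
theorem dec {V : Type} [Fintype V] (G : SimpleGraph V) (hS : Sparse6 G) (H : Finset V) :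
    T6 G ≤ bb G H + 2 * aa G H + 2 * cc G H + 2 * s12 G H
      + 100 * (H.card + 1) ^ 4 * Fintype.card V ^ 2 := by
  have he : (pr G univ univ).card ≤ 6 * Fintype.card V := by
    have := hS univ
    rwa [Finset.card_univ] at this
  obtain ⟨e1, e2, e3, e4, e5, e6⟩ := pc_err G H he
  have h1 := T6_le_patterns G H
  have h2 := pc_aa G H
  have h3 := pc_cc G H
  have h4 := pc_bb G H
  set h := H.card with hh
  set N := Fintype.card V ^ 2 with hN
  have h5 : 2 * (6 * h ^ 3 * N) + 2 * (h ^ 4 * N) + 2 * (h ^ 4 * N) + 2 * (6 * h ^ 3 * N)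
      + 2 * (6 * h ^ 3 * N) + 36 * h ^ 2 * N ≤ 100 * (h + 1) ^ 4 * N := by
    have h6 : 2 * (6 * h ^ 3) + 2 * (h ^ 4) + 2 * (h ^ 4) + 2 * (6 * h ^ 3)
      + 2 * (6 * h ^ 3) + 36 * h ^ 2 ≤ 100 * (h + 1) ^ 4 := by
      have h7 : (h + 1) ^ 4 = h ^ 4 + 4 * h ^ 3 + 6 * h ^ 2 + 4 * h + 1 := by ring
      rw [h7]
      nlinarith [Nat.zero_le (h ^ 4), Nat.zero_le (h ^ 3), Nat.zero_le (h ^ 2), Nat.zero_le h]
    calc _ = (2 * (6 * h ^ 3) + 2 * (h ^ 4) + 2 * (h ^ 4) + 2 * (6 * h ^ 3)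
      + 2 * (6 * h ^ 3) + 36 * h ^ 2) * N := by ring
      _ ≤ _ := Nat.mul_le_mul_right _ h6
  linarith

end

end Pool.Agent.Lib.MP_009d13_co.P5
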