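import Pool.Agent.Lib.MP_009d13_co.P5.Defs2

/-!
# Paths with five edges in planar graphs: the patterns
-/

set_option autoImplicit false

namespace Pool.Agent.Lib.MP_009d13_co.P5

open Finset Classical

noncomputable section

theorem isPath6_rev {V : Type} [Fintype V] (G : SimpleGraph V) (a b c d e f : V)
    (h : IsPath6 G (a, b, c, d, e, f)) : IsPath6 G (f, e, d, c, b, a) := by
  obtain ⟨h1, h2, h3, h4, h5, h6⟩ := h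
  refine ⟨h5.symm, h4.symm, h3.symm, h2.symm, h1.symm, ?_⟩
  have h7 := List.nodup_reverse.mpr h6
  simpa using h7

theorem pc_rev_le {V : Type} [Fintype V] (G : SimpleGraph V) (P0 P1 P2 P3 P4 P5 : Finset V) :
    pc G P0 P1 P2 P3 P4 P5 ≤ pc G P5 P4 P3 P2 P1 P0 := by
  unfold pc
  refine Finset.card_le_card_of_injOn
    (fun v : Six V => ((v.2.2.2.2.2, v.2.2.2.2.1, v.2.2.2.1, v.2.2.1, v.2.1, v.1) : Six V)) ?_ ?_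
  · rintro ⟨a, b, c, d, e, f⟩ hv
    simp only [coe_filter, mem_univ, true_and, Set.mem_ofPred_eq] at hv ⊢
    obtain ⟨h1, h2, h3, h4, h5, h6, h7⟩ := hv
    exact ⟨isPath6_rev G a b c d e f h1, h7, h6, h5, h4, h3, h2⟩
  · rintro ⟨a, b, c, d, e, f⟩ - ⟨a', b', c', d', e', f'⟩ - h
    simp only [Prod.mk.injEq] at h ⊢
    obtain ⟨h1, h2, h3, h4, h5, h6⟩ := h
    exact ⟨h6, h5, h4, h3, h2, h1⟩

theorem pc_rev {V : Type} [Fintype V] (G : SimpleGraph V) (P0 P1 P2 P3 P4 P5 : Finset V) :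
    pc G P0 P1 P2 P3 P4 P5 = pc G P5 P4 P3 P2 P1 P0 :=
  le_antisymm (pc_rev_le G P0 P1 P2 P3 P4 P5) (pc_rev_le G P5 P4 P3 P2 P1 P0)

theorem s12_eq_pc {V : Type} [Fintype V] (G : SimpleGraph V) (H : Finset V) :
    s12 G H = pc G univ Hᶜ Hᶜ univ univ univ := by
  unfold s12 pc
  congr 1
  ext v
  simp only [mem_filter, mem_univ, true_and, mem_compl, and_true]

theorem ind_patterns (P a0 a1 a2 a3 a4 a5 : Prop) :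
    (if P then 1 else 0 : ℕ) ≤
      ((if P ∧ ¬ a1 ∧ ¬ a2 then 1 else 0) + (if P ∧ ¬ a3 ∧ ¬ a4 then 1 else 0))
      + ((if P ∧ a1 ∧ a2 ∧ a3 then 1 else 0) + (if P ∧ a2 ∧ a3 ∧ a4 then 1 else 0))
      + ((if P ∧ a0 ∧ a1 ∧ a2 ∧ a4 then 1 else 0) + (if P ∧ a1 ∧ a3 ∧ a4 ∧ a5 then 1 else 0))
      + ((if P ∧ a1 ∧ a2 ∧ a4 ∧ a5 then 1 else 0) + (if P ∧ a0 ∧ a1 ∧ a3 ∧ a4 then 1 else 0))
      + ((if P ∧ ¬ a0 ∧ a1 ∧ a2 ∧ ¬ a3 ∧ a4 ∧ ¬ a5 then 1 else 0)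
        + (if P ∧ ¬ a0 ∧ a1 ∧ ¬ a2 ∧ a3 ∧ a4 ∧ ¬ a5 then 1 else 0))
      + ((if P ∧ a0 ∧ a1 ∧ a3 then 1 else 0) + (if P ∧ a2 ∧ a4 ∧ a5 then 1 else 0))
      + ((if P ∧ a0 ∧ ¬ a1 ∧ a2 ∧ ¬ a3 ∧ a4 ∧ ¬ a5 then 1 else 0)
        + (if P ∧ ¬ a0 ∧ a1 ∧ ¬ a2 ∧ a3 ∧ ¬ a4 ∧ a5 then 1 else 0))
      + ((if P ∧ ¬ a0 ∧ ¬ a1 ∧ a2 ∧ ¬ a3 ∧ a4 ∧ ¬ a5 then 1 else 0)
        + (if P ∧ ¬ a0 ∧ a1 ∧ ¬ a2 ∧ a3 ∧ ¬ a4 ∧ ¬ a5 then 1 else 0))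
      + ((if P ∧ a0 ∧ a1 ∧ a4 then 1 else 0) + (if P ∧ a1 ∧ a4 ∧ a5 then 1 else 0))
      + (if P ∧ ¬ a0 ∧ a1 ∧ ¬ a2 ∧ ¬ a3 ∧ a4 ∧ ¬ a5 then 1 else 0)
      + (if P ∧ a2 ∧ a3 then 1 else 0) := by
  by_cases hP : P
  swap
  · simp [hP]
  by_cases h1 : a1 <;> by_cases h2 : a2 <;> by_cases h3 : a3 <;> by_cases h4 : a4 <;>
    by_cases h0 : a0 <;> by_cases h5 : a5 <;>
    simp [hP, h0, h1, h2, h3, h4, h5]

theorem T6_le_patterns {V : Type} [Fintype V] (G : SimpleGraph V) (H : Finset V) :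
    T6 G ≤ 2 * s12 G H + 2 * pc G univ H H H univ univ + 2 * pc G H H H univ H univ
      + 2 * pc G univ H H univ H H + 2 * pc G Hᶜ H H Hᶜ H Hᶜ + 2 * pc G H H univ H univ univ
      + 2 * pc G H Hᶜ H Hᶜ H Hᶜ + 2 * pc G Hᶜ Hᶜ H Hᶜ H Hᶜ + 2 * pc G H H univ univ H univ
      + pc G Hᶜ H Hᶜ Hᶜ H Hᶜ + pc G univ univ H H univ univ := by
  have e1 := pc_rev G univ Hᶜ Hᶜ univ univ univ
  have e2 := pc_rev G univ H H H univ univ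
  have e3 := pc_rev G H H H univ H univ
  have e4 := pc_rev G univ H H univ H H
  have e5 := pc_rev G Hᶜ H H Hᶜ H Hᶜ
  have e6 := pc_rev G H H univ H univ univ
  have e7 := pc_rev G H Hᶜ H Hᶜ H Hᶜ
  have e8 := pc_rev G Hᶜ Hᶜ H Hᶜ H Hᶜ
  have e9 := pc_rev G H H univ univ H univ
  have key : T6 G ≤
      (pc G univ Hᶜ Hᶜ univ univ univ + pc G univ univ univ Hᶜ Hᶜ univ)
      + (pc G univ H H H univ univ + pc G univ univ H H H univ)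
      + (pc G H H H univ H univ + pc G univ H univ H H H)
      + (pc G univ H H univ H H + pc G H H univ H H univ)
      + (pc G Hᶜ H H Hᶜ H Hᶜ + pc G Hᶜ H Hᶜ H H Hᶜ)
      + (pc G H H univ H univ univ + pc G univ univ H univ H H)
      + (pc G H Hᶜ H Hᶜ H Hᶜ + pc G Hᶜ H Hᶜ H Hᶜ H)
      + (pc G Hᶜ Hᶜ H Hᶜ H Hᶜ + pc G Hᶜ H Hᶜ H Hᶜ Hᶜ)
      + (pc G H H univ univ H univ + pc G univ H univ univ H H)
      + pc G Hᶜ H Hᶜ Hᶜ H Hᶜ + pc G univ univ H H univ univ := by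
    unfold T6 pc
    simp only [Finset.card_filter, ← Finset.sum_add_distrib]
    refine Finset.sum_le_sum fun v _ => ?_
    have h := ind_patterns (IsPath6 G v) (v.1 ∈ H) (v.2.1 ∈ H) (v.2.2.1 ∈ H) (v.2.2.2.1 ∈ H)
      (v.2.2.2.2.1 ∈ H) (v.2.2.2.2.2 ∈ H)
    refine h.trans (le_of_eq ?_)
    simp only [mem_compl, mem_univ, true_and, and_true]
    congr!
  rw [s12_eq_pc]
  omega

end

end Pool.Agent.Lib.MP_009d13_co.P5
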