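import Pool.Agent.Lib.MP_009d13_co.P5.Defs

/-!
# Paths with five edges in planar graphs: auxiliary definitions
-/

set_option autoImplicit false

namespace Pool.Agent.Lib.MP_009d13_co.P5

open Finset Classical

noncomputable section

/-- contraction of the edge `x y` (the vertex `y` disappears) -/
def ct {V : Type} (G : SimpleGraph V) (x y : V) : SimpleGraph {v : V // v ≠ y} :=
  SimpleGraph.fromRel fun u v => G.Adj u.1 v.1 ∨ (u.1 = x ∧ G.Adj y v.1)

/-- number of paths with `v_i` in the set `P_i` -/
def pc {V : Type} [Fintype V] (G : SimpleGraph V) (P0 P1 P2 P3 P4 P5 : Finset V) : ℕ :=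
  (univ.filter fun v : Six V => IsPath6 G v ∧ v.1 ∈ P0 ∧ v.2.1 ∈ P1 ∧ v.2.2.1 ∈ P2 ∧
    v.2.2.2.1 ∈ P3 ∧ v.2.2.2.2.1 ∈ P4 ∧ v.2.2.2.2.2 ∈ P5).card

/-- the best partner of a hub -/
def gg {V : Type} [Fintype V] (G : SimpleGraph V) (H : Finset V) (a : V) : ℕ :=
  (H.erase a).sup fun b => ph G H a b

/-- the best pair of hubs for a small vertex without hubs -/
def f0 {V : Type} [Fintype V] (G : SimpleGraph V) (H : Finset V) : ℕ :=
  H.sup fun a => (H.erase a).sup fun b => tt G H a + tt G H b

/-- an upper bound for `om` in terms of the hubs of one end -/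
def ff {V : Type} [Fintype V] (G : SimpleGraph V) (H : Finset V) (z : V) : ℕ :=
  if (kk G H z).card = 2 then ∑ a ∈ kk G H z, ∑ b ∈ (kk G H z).erase a, ph G H a b
  else if (kk G H z).card = 1 then ∑ a ∈ kk G H z, (tt G H a + gg G H a)
  else f0 G H

/-- common neighbours of `a` and `b` -/
def YY {V : Type} [Fintype V] (G : SimpleGraph V) (a b : V) : Finset V := nb G a ∩ nb G b

/-- the vertices different from `a`, `b` -/
def WW {V : Type} [Fintype V] (a b : V) : Finset V := (univ.erase a).erase b

/-- the vertices different from `a`, `b` which are not common neighbours -/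
def OO {V : Type} [Fintype V] (G : SimpleGraph V) (a b : V) : Finset V := WW a b \ YY G a b

/-- degree in the set `W` -/
def dg {V : Type} [Fintype V] (G : SimpleGraph V) (W : Finset V) (v : V) : ℕ :=
  (nb G v ∩ W).card

/-- ordered pairs of adjacent vertices of `WW`, the second one adjacent to `h` -/
def xa {V : Type} [Fintype V] (G : SimpleGraph V) (a b h : V) : ℕ :=
  ((pr G (WW a b) (WW a b)).filter fun p => G.Adj p.2 h).card

/-- ordered pairs of adjacent vertices of `WW`, the first one adjacent to `a`, the second to `b` -/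
def xab {V : Type} [Fintype V] (G : SimpleGraph V) (a b : V) : ℕ :=
  ((pr G (WW a b) (WW a b)).filter fun p => G.Adj p.1 a ∧ G.Adj p.2 b).card

end

end Pool.Agent.Lib.MP_009d13_co.P5
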