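import Pool.Agent.Lib.MP_009d13_co.P5.Defs2

/-!
# Degrees in the extremal case

`a` and `b` are two vertices, `YY G a b` is the set of their common neighbours and `OO G a b`
the set of all other vertices.
-/

set_option autoImplicit false

namespace Pool.Agent.Lib.MP_009d13_co.P5

open Finset Classical

noncomputable section

namespace EX

variable {V : Type} [Fintype V] (G : SimpleGraph V)

theorem mem_nb {v w : V} : w ∈ nb G v ↔ G.Adj v w := by simp [nb]

theorem mem_pr {S T : Finset V} {p : V × V} :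
    p ∈ pr G S T ↔ p.1 ∈ S ∧ p.2 ∈ T ∧ G.Adj p.1 p.2 := by simp [pr]

/-- ordered pairs, counted at the first end -/
theorem card_pr_left (S T : Finset V) : (pr G S T).card = ∑ s ∈ S, dg G T s := by
  have h : pr G S T = (S.sigma (fun s => nb G s ∩ T)).map
      ⟨fun q : (_ : V) × V => (q.1, q.2), by
        rintro ⟨a, b⟩ ⟨c, d⟩ h
        simp only [Prod.mk.injEq] at h
        obtain ⟨rfl, rfl⟩ := h
        rfl⟩ := by
    ext p
    simp only [mem_pr, mem_map, mem_sigma, mem_inter, mem_nb]
    constructor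
    · rintro ⟨h1, h2, h3⟩
      exact ⟨⟨p.1, p.2⟩, ⟨h1, h3, h2⟩, rfl⟩
    · rintro ⟨⟨x, y⟩, ⟨h1, h3, h2⟩, rfl⟩
      exact ⟨h1, h2, h3⟩
  rw [h, card_map, card_sigma]
  rfl

theorem card_pr_comm (S T : Finset V) : (pr G S T).card = (pr G T S).card := by
  apply card_bij (fun p _ => (p.2, p.1))
  · intro p hp
    rw [mem_pr] at hp ⊢
    exact ⟨hp.2.1, hp.1, hp.2.2.symm⟩
  · rintro ⟨x, y⟩ _ ⟨u, v⟩ _ h
    simp only [Prod.mk.injEq] at h ⊢
    exact ⟨h.2, h.1⟩
  · rintro ⟨x, y⟩ hp
    rw [mem_pr] at hp
    exact ⟨(y, x), (mem_pr G).2 ⟨hp.2.1, hp.1, hp.2.2.symm⟩, rfl⟩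

/-- ordered pairs, counted at the second end -/
theorem card_pr_right (S T : Finset V) : (pr G S T).card = ∑ t ∈ T, dg G S t := by
  rw [card_pr_comm, card_pr_left]

theorem pr_mono {S S' T T' : Finset V} (h1 : S ⊆ S') (h2 : T ⊆ T') : pr G S T ⊆ pr G S' T' := by
  intro p hp
  rw [mem_pr] at hp ⊢
  exact ⟨h1 hp.1, h2 hp.2.1, hp.2.2⟩

theorem dg_union {S T : Finset V} (h : Disjoint S T) (v : V) :
    dg G (S ∪ T) v = dg G S v + dg G T v := by
  unfold dg
  rw [inter_union_distrib_left, card_union_of_disjoint]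
  exact h.mono inter_subset_right inter_subset_right

theorem card_pr_union_left {S T : Finset V} (h : Disjoint S T) (R : Finset V) :
    (pr G (S ∪ T) R).card = (pr G S R).card + (pr G T R).card := by
  rw [card_pr_left, card_pr_left, card_pr_left, sum_union h]

theorem card_pr_union_right {S T : Finset V} (h : Disjoint S T) (R : Finset V) :
    (pr G R (S ∪ T)).card = (pr G R S).card + (pr G R T).card := by
  rw [card_pr_comm, card_pr_union_left G h, card_pr_comm G S, card_pr_comm G T]

theorem dg_le (S : Finset V) (v : V) : dg G S v ≤ S.card := card_le_card inter_subset_right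

/-- three vertices have at most two common neighbours -/
theorem three_common (h : NoK33m G) {a b c : V}
    (hab : a ≠ b) (hac : a ≠ c) (hbc : b ≠ c) : (nb G a ∩ nb G b ∩ nb G c).card ≤ 2 := by
  by_contra hlt
  push Not at hlt
  obtain ⟨x, y, z, hx, hy, hz, hxy, hxz, hyz⟩ := two_lt_card_iff.1 hlt
  simp only [mem_inter, mem_nb] at hx hy hz
  refine h ![a, b, c] ![x, y, z] ![x, y, z] ?_ ?_ ?_ ?_ ?_
  · intro i j hij
    fin_cases i <;> fin_cases j <;> simp_all
  · intro i
    left
    rfl
  · intro i j hij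
    fin_cases i <;> fin_cases j <;> simp_all <;> tauto
  · have h1 : ∀ {u v : V}, G.Adj u v → u ≠ v := fun h => h.ne
    intro i j
    fin_cases i <;> fin_cases j <;> simp <;> first
      | exact h1 hx.1.1 | exact h1 hy.1.1 | exact h1 hz.1.1
      | exact h1 hx.1.2 | exact h1 hy.1.2 | exact h1 hz.1.2
      | exact h1 hx.2 | exact h1 hy.2 | exact h1 hz.2
  · intro i j
    left
    fin_cases i <;> fin_cases j <;> simp <;> first
      | exact hx.1.1 | exact hy.1.1 | exact hz.1.1
      | exact hx.1.2 | exact hy.1.2 | exact hz.1.2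
      | exact hx.2 | exact hy.2 | exact hz.2

theorem mem_WW {a b v : V} : v ∈ WW a b ↔ v ≠ a ∧ v ≠ b := by
  simp only [WW, mem_erase, mem_univ, and_true]
  tauto

theorem mem_YY {a b v : V} : v ∈ YY G a b ↔ G.Adj a v ∧ G.Adj b v := by
  simp [YY, mem_nb]

theorem YY_sub_WW (a b : V) : YY G a b ⊆ WW a b := by
  intro v hv
  rw [mem_YY] at hv
  rw [mem_WW]
  exact ⟨hv.1.ne', hv.2.ne'⟩

theorem disj_YO (a b : V) : Disjoint (YY G a b) (OO G a b) := disjoint_sdiff

theorem YY_union_OO (a b : V) : YY G a b ∪ OO G a b = WW a b := by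
  unfold OO
  exact union_sdiff_of_subset (YY_sub_WW G a b)

theorem dg_pair_ge {a b v : V} (hab : a ≠ b) (hv : v ∈ YY G a b) :
    2 ≤ dg G {a, b} v := by
  rw [mem_YY] at hv
  have h : ({a, b} : Finset V) ⊆ nb G v ∩ {a, b} := by
    intro w hw
    rw [mem_inter, mem_nb]
    refine ⟨?_, hw⟩
    rw [mem_insert, mem_singleton] at hw
    rcases hw with rfl | rfl
    · exact hv.1.symm
    · exact hv.2.symm
  calc 2 = ({a, b} : Finset V).card := (card_pair hab).symm
    _ ≤ _ := card_le_card h

end EX

open EX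

theorem dg_Y_le {V : Type} [Fintype V] (G : SimpleGraph V) (hK : NoK33m G) {a b v : V}
    (hab : a ≠ b) (hv : v ∈ WW a b) : dg G (YY G a b) v ≤ 2 := by
  rw [mem_WW] at hv
  have h := EX.three_common G hK hv.1 hv.2 hab
  unfold dg YY
  rwa [← inter_assoc]

theorem card_YO {V : Type} [Fintype V] (G : SimpleGraph V) {a b : V} (hab : a ≠ b) :
    (YY G a b).card + (OO G a b).card + 2 = Fintype.card V := by
  rw [← card_union_of_disjoint (disj_YO G a b), YY_union_OO]
  have h1 : (WW a b : Finset V) = univ \ {a, b} := by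
    ext v
    rw [mem_WW]
    simp
  rw [h1, card_sdiff_of_subset (subset_univ _), card_pair hab, card_univ]
  have h2 : 2 ≤ Fintype.card V := by
    rw [← card_univ, ← card_pair hab]
    exact card_le_card (subset_univ _)
  omega

theorem pr_YY {V : Type} [Fintype V] (G : SimpleGraph V) (hS : Sparse6 G) {a b : V}
    (hab : a ≠ b) : (pr G (YY G a b) (YY G a b)).card ≤ 2 * (YY G a b).card + 12 := by
  have hd : Disjoint (YY G a b) {a, b} := by
    rw [disjoint_right]
    intro w hw hw'
    have := YY_sub_WW G a b hw'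
    rw [mem_WW] at this
    rw [mem_insert, mem_singleton] at hw
    tauto
  have h := hS (YY G a b ∪ {a, b})
  rw [card_pr_union_left G hd, card_pr_union_right G hd, card_pr_union_right G hd,
    card_union_of_disjoint hd, card_pair hab, card_pr_comm G {a, b} (YY G a b)] at h
  have h2 : 2 * (YY G a b).card ≤ (pr G (YY G a b) {a, b}).card := by
    rw [card_pr_left, mul_comm, ← smul_eq_mul, ← sum_const]
    exact sum_le_sum fun v hv => dg_pair_ge G hab hv
  omega

theorem pr_YO {V : Type} [Fintype V] (G : SimpleGraph V) (hK : NoK33m G) {a b : V}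
    (hab : a ≠ b) : (pr G (YY G a b) (OO G a b)).card ≤ 2 * (OO G a b).card := by
  rw [card_pr_right, mul_comm, ← smul_eq_mul, ← sum_const]
  refine sum_le_sum fun v hv => dg_Y_le G hK hab ?_
  rw [← YY_union_OO G]
  exact mem_union_right _ hv

/-- all edges; `dd G {a, b} a` counts the neighbours of `a` different from `b` -/
theorem pr_all {V : Type} [Fintype V] (G : SimpleGraph V) (hS : Sparse6 G) {a b : V}
    (hab : a ≠ b) :
    (pr G (YY G a b) (YY G a b)).card + 2 * (pr G (YY G a b) (OO G a b)).card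
      + (pr G (OO G a b) (OO G a b)).card + 2 * (dd G {a, b} a + dd G {a, b} b)
      ≤ 6 * Fintype.card V := by
  have hd : Disjoint (WW a b) ({a, b} : Finset V) := by
    rw [disjoint_right]
    intro w hw hw'
    rw [mem_WW] at hw'
    rw [mem_insert, mem_singleton] at hw
    tauto
  have h := hS (WW a b ∪ {a, b})
  have hc : (WW a b ∪ {a, b} : Finset V).card ≤ Fintype.card V := card_le_univ _
  rw [card_pr_union_left G hd, card_pr_union_right G hd, card_pr_union_right G hd,
    card_pr_comm G (WW a b) {a, b}] at h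
  have hW : (pr G (WW a b) (WW a b)).card = (pr G (YY G a b) (YY G a b)).card
      + 2 * (pr G (YY G a b) (OO G a b)).card + (pr G (OO G a b) (OO G a b)).card := by
    rw [← YY_union_OO G a b, card_pr_union_left G (disj_YO G a b),
      card_pr_union_right G (disj_YO G a b), card_pr_union_right G (disj_YO G a b),
      card_pr_comm G (OO G a b) (YY G a b)]
    ring
  have hX : (pr G {a, b} (WW a b)).card = dd G {a, b} a + dd G {a, b} b := by
    rw [card_pr_left, sum_pair hab]
    have hh : ∀ v : V, nb G v ∩ WW a b = nb G v \ {a, b} := by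
      intro v
      ext w
      simp only [mem_inter, mem_WW, mem_sdiff, mem_insert, mem_singleton]
      tauto
    unfold dg dd
    rw [hh, hh]
  omega

end

end Pool.Agent.Lib.MP_009d13_co.P5
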