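import Pool.Agent.Lib.MP_009d13_co.P5.EXA

/-!
# Walks avoiding `a` and `b` in the extremal case
-/

set_option autoImplicit false

namespace Pool.Agent.Lib.MP_009d13_co.P5

open Finset Classical EX

noncomputable section

namespace EX

variable {V : Type} [Fintype V] (G : SimpleGraph V)

/-- a sum over ordered pairs as a double sum -/
theorem sum_pr_left (S T : Finset V) (F : V → V → ℕ) :
    ∑ p ∈ pr G S T, F p.1 p.2 = ∑ s ∈ S, ∑ t ∈ nb G s ∩ T, F s t := by
  rw [sum_sigma']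
  refine sum_bij' (fun p _ => ⟨p.1, p.2⟩) (fun q _ => (q.1, q.2)) ?_ ?_ ?_ ?_ ?_
  · intro p hp
    rw [mem_pr] at hp
    simp only [mem_sigma, mem_inter, mem_nb]
    exact ⟨hp.1, hp.2.2, hp.2.1⟩
  · rintro ⟨x, y⟩ hq
    simp only [mem_sigma, mem_inter, mem_nb] at hq
    rw [mem_pr]
    exact ⟨hq.1, hq.2.2, hq.2.1⟩
  · intro p _
    rfl
  · intro q _
    rfl
  · intro p _
    rfl

theorem sum_pr_swap (S T : Finset V) (F : V → V → ℕ) :
    ∑ p ∈ pr G S T, F p.1 p.2 = ∑ p ∈ pr G T S, F p.2 p.1 := by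
  refine sum_bij' (fun p _ => (p.2, p.1)) (fun q _ => (q.2, q.1)) ?_ ?_ ?_ ?_ ?_
  · intro p hp
    rw [mem_pr] at hp ⊢
    exact ⟨hp.2.1, hp.1, hp.2.2.symm⟩
  · intro p hp
    rw [mem_pr] at hp ⊢
    exact ⟨hp.2.1, hp.1, hp.2.2.symm⟩
  · intro p _
    rfl
  · intro q _
    rfl
  · intro p _
    rfl

theorem sum_union_le' {α : Type} [DecidableEq α] (S T : Finset α) (F : α → ℕ) :
    ∑ x ∈ S ∪ T, F x ≤ ∑ x ∈ S, F x + ∑ x ∈ T, F x := by
  rw [← sum_union_inter]
  exact Nat.le_add_right _ _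

theorem dg_WW (a b v : V) : dg G (WW a b) v = dg G (YY G a b) v + dg G (OO G a b) v := by
  rw [← dg_union G (disj_YO G a b), YY_union_OO]

theorem dg_W_le (hK : NoK33m G) {a b v : V} (hab : a ≠ b) (hv : v ∈ WW a b) :
    dg G (WW a b) v ≤ 2 + dg G (OO G a b) v := by
  rw [dg_WW]
  have := dg_Y_le G hK hab hv
  omega

theorem dg_W_le' (hK : NoK33m G) {a b v : V} (hab : a ≠ b) (hv : v ∈ WW a b) :
    dg G (WW a b) v ≤ 2 + (OO G a b).card := by
  have h1 := dg_W_le G hK hab hv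
  have h2 := dg_le G (OO G a b) v
  omega

theorem mem_W_of_Y {a b v : V} (h : v ∈ YY G a b) : v ∈ WW a b := YY_sub_WW G a b h

theorem mem_W_of_O {a b v : V} (h : v ∈ OO G a b) : v ∈ WW a b := (mem_sdiff.1 h).1

/-- the sum of the degrees of the exceptional vertices -/
theorem sum_O_dg (hS : Sparse6 G) (hK : NoK33m G) {a b : V} (hab : a ≠ b) :
    ∑ v ∈ OO G a b, dg G (WW a b) v ≤ 8 * (OO G a b).card := by
  have h1 : ∑ v ∈ OO G a b, dg G (WW a b) v
      = (pr G (YY G a b) (OO G a b)).card + (pr G (OO G a b) (OO G a b)).card := by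
    rw [card_pr_right, card_pr_right, ← sum_add_distrib]
    exact sum_congr rfl fun v _ => dg_WW G a b v
  have h2 := pr_YO G hK hab
  have h3 := hS (OO G a b)
  omega

/-- the edges between common neighbours and exceptional vertices -/
theorem sum_Y_dgO (hK : NoK33m G) {a b : V} (hab : a ≠ b) :
    ∑ v ∈ YY G a b, dg G (OO G a b) v ≤ 2 * (OO G a b).card := by
  rw [← card_pr_left]
  exact pr_YO G hK hab

theorem sum_Y_dgO_sq (hK : NoK33m G) {a b : V} (hab : a ≠ b) :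
    ∑ v ∈ YY G a b, dg G (OO G a b) v ^ 2 ≤ 2 * (OO G a b).card ^ 2 := by
  calc ∑ v ∈ YY G a b, dg G (OO G a b) v ^ 2
      ≤ ∑ v ∈ YY G a b, (OO G a b).card * dg G (OO G a b) v := by
        refine sum_le_sum fun v _ => ?_
        rw [sq]
        exact Nat.mul_le_mul_right _ (dg_le G _ v)
    _ = (OO G a b).card * ∑ v ∈ YY G a b, dg G (OO G a b) v := by rw [mul_sum]
    _ ≤ (OO G a b).card * (2 * (OO G a b).card) :=
        Nat.mul_le_mul_left _ (sum_Y_dgO G hK hab)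
    _ = _ := by ring

end EX

theorem w1_le {V : Type} [Fintype V] (G : SimpleGraph V) (hS : Sparse6 G) {a b : V}
    (hab : a ≠ b) : (pr G (WW a b) (WW a b)).card ≤ 6 * Fintype.card V := by
  have h := hS (WW a b)
  have hc : (WW a b : Finset V).card ≤ Fintype.card V := card_le_univ _
  omega

theorem w2_le {V : Type} [Fintype V] (G : SimpleGraph V) (hS : Sparse6 G) (hK : NoK33m G)
    {a b : V} (hab : a ≠ b) :
    ∑ v ∈ WW a b, dg G (WW a b) v ^ 2
      ≤ 100 * (Fintype.card V + (OO G a b).card ^ 2) := by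
  have hn := card_YO G hab
  set t := (OO G a b).card with ht
  set N := (YY G a b).card with hN
  have h1 : ∑ v ∈ YY G a b, dg G (WW a b) v ^ 2 ≤ 8 * N + 2 * (2 * t ^ 2) := by
    calc ∑ v ∈ YY G a b, dg G (WW a b) v ^ 2
        ≤ ∑ v ∈ YY G a b, (8 + 2 * dg G (OO G a b) v ^ 2) := by
          refine sum_le_sum fun v hv => ?_
          have h := dg_W_le G hK hab (mem_W_of_Y G hv)
          set x := dg G (OO G a b) v
          calc dg G (WW a b) v ^ 2 ≤ (2 + x) ^ 2 := Nat.pow_le_pow_left h 2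
            _ ≤ 8 + 2 * x ^ 2 := by
              zify
              nlinarith [sq_nonneg ((x : ℤ) - 2)]
      _ = 8 * N + 2 * ∑ v ∈ YY G a b, dg G (OO G a b) v ^ 2 := by
          rw [sum_add_distrib, sum_const, smul_eq_mul, mul_sum, mul_comm 8 N]
      _ ≤ _ := by
          have := sum_Y_dgO_sq G hK hab
          rw [← ht] at this
          omega
  have h2 : ∑ v ∈ OO G a b, dg G (WW a b) v ^ 2 ≤ (2 + t) * (8 * t) := by
    calc ∑ v ∈ OO G a b, dg G (WW a b) v ^ 2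
        ≤ ∑ v ∈ OO G a b, (2 + t) * dg G (WW a b) v := by
          refine sum_le_sum fun v hv => ?_
          rw [sq]
          exact Nat.mul_le_mul_right _ (dg_W_le' G hK hab (mem_W_of_O G hv))
      _ = (2 + t) * ∑ v ∈ OO G a b, dg G (WW a b) v := by rw [mul_sum]
      _ ≤ _ := Nat.mul_le_mul_left _ (sum_O_dg G hS hK hab)
  have h3 : ∑ v ∈ WW a b, dg G (WW a b) v ^ 2
      = ∑ v ∈ YY G a b, dg G (WW a b) v ^ 2 + ∑ v ∈ OO G a b, dg G (WW a b) v ^ 2 := by
    rw [← sum_union (disj_YO G a b), YY_union_OO]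
  rw [h3, ← hn]
  nlinarith [h1, h2, Nat.zero_le (t ^ 2)]

theorem r_le {V : Type} [Fintype V] (G : SimpleGraph V) (hS : Sparse6 G) (hK : NoK33m G)
    {a b v : V} (hab : a ≠ b) (hv : v ∈ WW a b) :
    ∑ u ∈ nb G v ∩ WW a b, dg G (WW a b) u ≤ 10 * (OO G a b).card + 4 := by
  have h0 : nb G v ∩ WW a b = (nb G v ∩ YY G a b) ∪ (nb G v ∩ OO G a b) := by
    rw [← inter_union_distrib_left, YY_union_OO]
  have hd : Disjoint (nb G v ∩ YY G a b) (nb G v ∩ OO G a b) :=
    (disj_YO G a b).mono inter_subset_right inter_subset_right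
  rw [h0, sum_union hd]
  have h1 : ∑ u ∈ nb G v ∩ YY G a b, dg G (WW a b) u ≤ 2 * (2 + (OO G a b).card) := by
    calc ∑ u ∈ nb G v ∩ YY G a b, dg G (WW a b) u
        ≤ ∑ _u ∈ nb G v ∩ YY G a b, (2 + (OO G a b).card) := by
          refine sum_le_sum fun u hu => ?_
          exact dg_W_le' G hK hab (mem_W_of_Y G (mem_inter.1 hu).2)
      _ = (nb G v ∩ YY G a b).card * (2 + (OO G a b).card) := by
          rw [sum_const, smul_eq_mul]
      _ ≤ _ := Nat.mul_le_mul_right _ (dg_Y_le G hK hab hv)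
  have h2 : ∑ u ∈ nb G v ∩ OO G a b, dg G (WW a b) u ≤ 8 * (OO G a b).card :=
    (sum_le_sum_of_subset inter_subset_right).trans (sum_O_dg G hS hK hab)
  omega

theorem w3_le {V : Type} [Fintype V] (G : SimpleGraph V) (hS : Sparse6 G) (hK : NoK33m G)
    {a b : V} (hab : a ≠ b) :
    ∑ p ∈ pr G (WW a b) (WW a b), dg G (WW a b) p.1 * dg G (WW a b) p.2
      ≤ 200 * (Fintype.card V + (OO G a b).card ^ 2) := by
  have hn := card_YO G hab
  set W := WW a b with hW
  set Y := YY G a b with hY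
  set O := OO G a b with hO
  set t := O.card with ht
  set N := Y.card with hN
  -- pairs with the first end exceptional
  have hOW : ∑ p ∈ pr G O W, dg G W p.1 * dg G W p.2 ≤ (10 * t + 4) * (8 * t) := by
    rw [sum_pr_left G O W (fun x y => dg G W x * dg G W y)]
    calc ∑ s ∈ O, ∑ u ∈ nb G s ∩ W, dg G W s * dg G W u
        = ∑ s ∈ O, dg G W s * ∑ u ∈ nb G s ∩ W, dg G W u := by
          refine sum_congr rfl fun s _ => ?_
          rw [mul_sum]
      _ ≤ ∑ s ∈ O, dg G W s * (10 * t + 4) := by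
          refine sum_le_sum fun s hs => ?_
          exact Nat.mul_le_mul_left _ (r_le G hS hK hab (mem_W_of_O G hs))
      _ = (10 * t + 4) * ∑ s ∈ O, dg G W s := by rw [← sum_mul, mul_comm]
      _ ≤ _ := Nat.mul_le_mul_left _ (sum_O_dg G hS hK hab)
  have hYO : ∑ p ∈ pr G Y O, dg G W p.1 * dg G W p.2 ≤ (10 * t + 4) * (8 * t) := by
    rw [sum_pr_swap G Y O (fun x y => dg G W x * dg G W y)]
    refine le_trans ?_ hOW
    refine le_trans (sum_le_sum_of_subset (pr_mono G (Subset.refl O) (YY_sub_WW G a b))) ?_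
    refine le_of_eq (sum_congr rfl fun p _ => mul_comm _ _)
  have hYY : ∑ p ∈ pr G Y Y, dg G W p.1 * dg G W p.2
      ≤ 4 * (2 * N + 12) + 2 * (2 * (2 * (2 * t))) + 2 * (2 * t ^ 2) := by
    -- `(2 + x) (2 + y) ≤ 4 + 2 x + 2 y + (x ^ 2 + y ^ 2) / 2`
    have hp1 : ∑ p ∈ pr G Y Y, dg G O p.1 ≤ 2 * (2 * t) := by
      rw [sum_pr_left G Y Y (fun x _ => dg G O x)]
      calc ∑ s ∈ Y, ∑ _u ∈ nb G s ∩ Y, dg G O s
          = ∑ s ∈ Y, dg G Y s * dg G O s := by
            refine sum_congr rfl fun s _ => ?_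
            rw [sum_const, smul_eq_mul]
            rfl
        _ ≤ ∑ s ∈ Y, 2 * dg G O s := by
            refine sum_le_sum fun s hs => ?_
            exact Nat.mul_le_mul_right _ (dg_Y_le G hK hab (mem_W_of_Y G hs))
        _ = 2 * ∑ s ∈ Y, dg G O s := by rw [mul_sum]
        _ ≤ _ := Nat.mul_le_mul_left _ (sum_Y_dgO G hK hab)
    have hp2 : ∑ p ∈ pr G Y Y, dg G O p.1 ^ 2 ≤ 2 * (2 * t ^ 2) := by
      rw [sum_pr_left G Y Y (fun x _ => dg G O x ^ 2)]
      calc ∑ s ∈ Y, ∑ _u ∈ nb G s ∩ Y, dg G O s ^ 2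
          = ∑ s ∈ Y, dg G Y s * dg G O s ^ 2 := by
            refine sum_congr rfl fun s _ => ?_
            rw [sum_const, smul_eq_mul]
            rfl
        _ ≤ ∑ s ∈ Y, 2 * dg G O s ^ 2 := by
            refine sum_le_sum fun s hs => ?_
            exact Nat.mul_le_mul_right _ (dg_Y_le G hK hab (mem_W_of_Y G hs))
        _ = 2 * ∑ s ∈ Y, dg G O s ^ 2 := by rw [mul_sum]
        _ ≤ _ := Nat.mul_le_mul_left _ (sum_Y_dgO_sq G hK hab)
    have hq1 : ∑ p ∈ pr G Y Y, dg G O p.2 = ∑ p ∈ pr G Y Y, dg G O p.1 :=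
      sum_pr_swap G Y Y (fun _ y => dg G O y)
    have hq2 : ∑ p ∈ pr G Y Y, dg G O p.2 ^ 2 = ∑ p ∈ pr G Y Y, dg G O p.1 ^ 2 :=
      sum_pr_swap G Y Y (fun _ y => dg G O y ^ 2)
    have hYY2 := pr_YY G hS hab
    have hdouble : 2 * ∑ p ∈ pr G Y Y, dg G W p.1 * dg G W p.2
        ≤ ∑ p ∈ pr G Y Y, (8 + 4 * dg G O p.1 + 4 * dg G O p.2 + dg G O p.1 ^ 2
            + dg G O p.2 ^ 2) := by
      rw [mul_sum]
      refine sum_le_sum fun p hp => ?_
      rw [mem_pr] at hp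
      have e1 := dg_W_le G hK hab (mem_W_of_Y G hp.1)
      have e2 := dg_W_le G hK hab (mem_W_of_Y G hp.2.1)
      rw [← hW, ← hO] at e1 e2
      set x := dg G O p.1
      set y := dg G O p.2
      calc 2 * (dg G W p.1 * dg G W p.2) ≤ 2 * ((2 + x) * (2 + y)) :=
            Nat.mul_le_mul_left _ (Nat.mul_le_mul e1 e2)
        _ ≤ _ := by
            zify
            nlinarith [sq_nonneg ((x : ℤ) - y)]
    have hsum : ∑ p ∈ pr G Y Y, (8 + 4 * dg G O p.1 + 4 * dg G O p.2 + dg G O p.1 ^ 2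
            + dg G O p.2 ^ 2)
        = 8 * (pr G Y Y).card + 8 * ∑ p ∈ pr G Y Y, dg G O p.1
          + 2 * ∑ p ∈ pr G Y Y, dg G O p.1 ^ 2 := by
      rw [sum_add_distrib, sum_add_distrib, sum_add_distrib, sum_add_distrib, sum_const,
        ← mul_sum, ← mul_sum, hq1, hq2, smul_eq_mul]
      ring
    rw [hsum] at hdouble
    rw [← hY, ← hN] at hYY2
    omega
  have hsplit : ∑ p ∈ pr G W W, dg G W p.1 * dg G W p.2
      ≤ ∑ p ∈ pr G Y Y, dg G W p.1 * dg G W p.2 + ∑ p ∈ pr G Y O, dg G W p.1 * dg G W p.2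
        + ∑ p ∈ pr G O W, dg G W p.1 * dg G W p.2 := by
    have hsub : pr G W W ⊆ (pr G Y Y ∪ pr G Y O) ∪ pr G O W := by
      intro p hp
      rw [mem_pr] at hp
      have hu := YY_union_OO G a b
      rw [← hW, ← hY, ← hO] at hu
      have h1 : p.1 ∈ Y ∪ O := by rw [hu]; exact hp.1
      have h2 : p.2 ∈ Y ∪ O := by rw [hu]; exact hp.2.1
      simp only [mem_union, mem_pr] at h1 h2 ⊢
      tauto
    refine (sum_le_sum_of_subset hsub).trans ?_
    refine (sum_union_le' _ _ _).trans ?_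
    exact Nat.add_le_add_right (sum_union_le' _ _ _) _
  nlinarith [hsplit, hOW, hYO, hYY, Nat.zero_le (t ^ 2)]

end

end Pool.Agent.Lib.MP_009d13_co.P5
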