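import Pool.Agent.Lib.MP_009d13_co.P5.Defs2

/-!
# Module EXC: the paths containing `a` and `b` with three nonempty segments
-/

set_option autoImplicit false

namespace Pool.Agent.Lib.MP_009d13_co.P5

open Finset Classical

noncomputable section

theorem exc_nb {V : Type} [Fintype V] (G : SimpleGraph V) {a b v : V} (h : v ∈ WW a b)
    (c : V) (hc : G.Adj c v) : v ∈ nb G c \ {a, b} := by
  simp only [WW, mem_erase, mem_univ, and_true] at h
  simp only [nb, mem_sdiff, mem_filter, mem_univ, true_and, mem_insert, mem_singleton, not_or]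
  exact ⟨hc, h.2, h.1⟩

/-- an edge followed by `c`, then a common neighbour, then `d`, then a neighbour of `d` -/
theorem exc_one {V : Type} [Fintype V] (G : SimpleGraph V) {a b : V} (c d : V)
    (hcd : ∀ v, G.Adj c v → G.Adj v d → v ∈ YY G a b) :
    pc G (WW a b) (WW a b) {c} (WW a b) {d} (WW a b)
      ≤ (YY G a b).card * (dd G {a, b} d * xa G a b c) := by
  have h : pc G (WW a b) (WW a b) {c} (WW a b) {d} (WW a b)
      ≤ ((YY G a b) ×ˢ ((nb G d \ {a, b}) ×ˢ
        ((pr G (WW a b) (WW a b)).filter fun p => G.Adj p.2 c))).card := by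
    apply Finset.card_le_card_of_injOn
      (fun v : Six V => (v.2.2.2.1, v.2.2.2.2.2, (v.1, v.2.1)))
    · rintro ⟨v0, v1, v2, v3, v4, v5⟩ hv
      simp only [IsPath6, coe_filter, mem_univ, true_and, mem_singleton, Set.mem_ofPred_eq] at hv
      obtain ⟨⟨e1, e2, e3, e4, e5, _⟩, m0, m1, rfl, m3, rfl, m5⟩ := hv
      simp only [coe_product, Set.mem_prod, mem_coe]
      refine ⟨hcd _ e3 e4, exc_nb G m5 _ e5, ?_⟩
      simp only [pr, mem_filter, mem_univ, true_and]
      exact ⟨⟨m0, m1, e1⟩, e2⟩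
    · rintro ⟨v0, v1, v2, v3, v4, v5⟩ hv ⟨w0, w1, w2, w3, w4, w5⟩ hw hvw
      simp only [coe_filter, mem_univ, true_and, mem_singleton, Set.mem_ofPred_eq] at hv hw
      obtain ⟨_, _, _, rfl, _, rfl, _⟩ := hv
      obtain ⟨_, _, _, rfl, _, rfl, _⟩ := hw
      simp only [Prod.mk.injEq] at hvw ⊢
      tauto
  rw [card_product, card_product] at h
  exact h

theorem exc_two {V : Type} [Fintype V] (G : SimpleGraph V) {a b : V} (c d : V)
    (hcd : ∀ v, G.Adj c v → G.Adj v d → v ∈ YY G a b) :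
    pc G (WW a b) {d} (WW a b) {c} (WW a b) (WW a b)
      ≤ (YY G a b).card * (dd G {a, b} d * xa G a b c) := by
  have h : pc G (WW a b) {d} (WW a b) {c} (WW a b) (WW a b)
      ≤ ((YY G a b) ×ˢ ((nb G d \ {a, b}) ×ˢ
        ((pr G (WW a b) (WW a b)).filter fun p => G.Adj p.2 c))).card := by
    apply Finset.card_le_card_of_injOn
      (fun v : Six V => (v.2.2.1, v.1, (v.2.2.2.2.2, v.2.2.2.2.1)))
    · rintro ⟨v0, v1, v2, v3, v4, v5⟩ hv
      simp only [IsPath6, coe_filter, mem_univ, true_and, mem_singleton, Set.mem_ofPred_eq] at hv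
      obtain ⟨⟨e1, e2, e3, e4, e5, _⟩, m0, rfl, m2, rfl, m4, m5⟩ := hv
      simp only [coe_product, Set.mem_prod, mem_coe]
      refine ⟨hcd _ e3.symm e2.symm, exc_nb G m0 _ e1.symm, ?_⟩
      simp only [pr, mem_filter, mem_univ, true_and]
      exact ⟨⟨m5, m4, e5.symm⟩, e4.symm⟩
    · rintro ⟨v0, v1, v2, v3, v4, v5⟩ hv ⟨w0, w1, w2, w3, w4, w5⟩ hw hvw
      simp only [coe_filter, mem_univ, true_and, mem_singleton, Set.mem_ofPred_eq] at hv hw
      obtain ⟨_, _, rfl, _, rfl, _⟩ := hv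
      obtain ⟨_, _, rfl, _, rfl, _⟩ := hw
      simp only [Prod.mk.injEq] at hvw ⊢
      tauto
  rw [card_product, card_product] at h
  exact h

theorem exc_three {V : Type} [Fintype V] (G : SimpleGraph V) (a b : V) :
    pc G (WW a b) {a} (WW a b) (WW a b) {b} (WW a b)
      ≤ dd G {a, b} a * (dd G {a, b} b * xab G a b) := by
  have h : pc G (WW a b) {a} (WW a b) (WW a b) {b} (WW a b)
      ≤ ((nb G a \ {a, b}) ×ˢ ((nb G b \ {a, b}) ×ˢ
        ((pr G (WW a b) (WW a b)).filter fun p => G.Adj p.1 a ∧ G.Adj p.2 b))).card := by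
    apply Finset.card_le_card_of_injOn
      (fun v : Six V => (v.1, v.2.2.2.2.2, (v.2.2.1, v.2.2.2.1)))
    · rintro ⟨v0, v1, v2, v3, v4, v5⟩ hv
      simp only [IsPath6, coe_filter, mem_univ, true_and, mem_singleton, Set.mem_ofPred_eq] at hv
      obtain ⟨⟨e1, e2, e3, e4, e5, _⟩, m0, rfl, m2, m3, rfl, m5⟩ := hv
      simp only [coe_product, Set.mem_prod, mem_coe]
      refine ⟨exc_nb G m0 _ e1.symm, exc_nb G m5 _ e5, ?_⟩
      simp only [pr, mem_filter, mem_univ, true_and]
      exact ⟨⟨m2, m3, e3⟩, e2.symm, e4⟩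
    · rintro ⟨v0, v1, v2, v3, v4, v5⟩ hv ⟨w0, w1, w2, w3, w4, w5⟩ hw hvw
      simp only [coe_filter, mem_univ, true_and, mem_singleton, Set.mem_ofPred_eq] at hv hw
      obtain ⟨_, _, rfl, _, _, rfl, _⟩ := hv
      obtain ⟨_, _, rfl, _, _, rfl, _⟩ := hw
      simp only [Prod.mk.injEq] at hvw ⊢
      tauto
  rw [card_product, card_product] at h
  exact h

theorem exc_four {V : Type} [Fintype V] (G : SimpleGraph V) (a b : V) :
    pc G (WW a b) {b} (WW a b) (WW a b) {a} (WW a b)
      ≤ dd G {a, b} a * (dd G {a, b} b * xab G a b) := by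
  have h : pc G (WW a b) {b} (WW a b) (WW a b) {a} (WW a b)
      ≤ ((nb G a \ {a, b}) ×ˢ ((nb G b \ {a, b}) ×ˢ
        ((pr G (WW a b) (WW a b)).filter fun p => G.Adj p.1 a ∧ G.Adj p.2 b))).card := by
    apply Finset.card_le_card_of_injOn
      (fun v : Six V => (v.2.2.2.2.2, v.1, (v.2.2.2.1, v.2.2.1)))
    · rintro ⟨v0, v1, v2, v3, v4, v5⟩ hv
      simp only [IsPath6, coe_filter, mem_univ, true_and, mem_singleton, Set.mem_ofPred_eq] at hv
      obtain ⟨⟨e1, e2, e3, e4, e5, _⟩, m0, rfl, m2, m3, rfl, m5⟩ := hv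
      simp only [coe_product, Set.mem_prod, mem_coe]
      refine ⟨exc_nb G m5 _ e5, exc_nb G m0 _ e1.symm, ?_⟩
      simp only [pr, mem_filter, mem_univ, true_and]
      exact ⟨⟨m3, m2, e3.symm⟩, e4, e2.symm⟩
    · rintro ⟨v0, v1, v2, v3, v4, v5⟩ hv ⟨w0, w1, w2, w3, w4, w5⟩ hw hvw
      simp only [coe_filter, mem_univ, true_and, mem_singleton, Set.mem_ofPred_eq] at hv hw
      obtain ⟨_, _, rfl, _, _, rfl, _⟩ := hv
      obtain ⟨_, _, rfl, _, _, rfl, _⟩ := hw
      simp only [Prod.mk.injEq] at hvw ⊢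
      tauto
  rw [card_product, card_product] at h
  exact h

/-- the paths containing `a` and `b` with three nonempty segments -/
theorem ext_main_patterns {V : Type} [Fintype V] (G : SimpleGraph V) {a b : V} (hab : a ≠ b) :
    pc G (WW a b) (WW a b) {a} (WW a b) {b} (WW a b)
      + pc G (WW a b) (WW a b) {b} (WW a b) {a} (WW a b)
      + pc G (WW a b) {a} (WW a b) {b} (WW a b) (WW a b)
      + pc G (WW a b) {b} (WW a b) {a} (WW a b) (WW a b)
      + pc G (WW a b) {a} (WW a b) (WW a b) {b} (WW a b)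
      + pc G (WW a b) {b} (WW a b) (WW a b) {a} (WW a b)
      ≤ 2 * ((YY G a b).card * (dd G {a, b} b * xa G a b a + dd G {a, b} a * xa G a b b)
        + dd G {a, b} a * dd G {a, b} b * xab G a b) := by
  have hy : ∀ v, G.Adj a v → G.Adj v b → v ∈ YY G a b := by
    intro v h1 h2
    simp only [YY, nb, mem_inter, mem_filter, mem_univ, true_and]
    exact ⟨h1, h2.symm⟩
  have hy' : ∀ v, G.Adj b v → G.Adj v a → v ∈ YY G a b := fun v h1 h2 => hy v h2.symm h1.symm
  have h1 := exc_one G a b hy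
  have h2 := exc_one G b a hy'
  have h3 := exc_two G b a hy'
  have h4 := exc_two G a b hy
  have h5 := exc_three G a b
  have h6 := exc_four G a b
  have e : 2 * ((YY G a b).card * (dd G {a, b} b * xa G a b a + dd G {a, b} a * xa G a b b)
        + dd G {a, b} a * dd G {a, b} b * xab G a b)
      = (YY G a b).card * (dd G {a, b} b * xa G a b a)
        + (YY G a b).card * (dd G {a, b} a * xa G a b b)
        + (YY G a b).card * (dd G {a, b} a * xa G a b b)
        + (YY G a b).card * (dd G {a, b} b * xa G a b a)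
        + dd G {a, b} a * (dd G {a, b} b * xab G a b)
        + dd G {a, b} a * (dd G {a, b} b * xab G a b) := by ring
  rw [e]
  exact add_le_add (add_le_add (add_le_add (add_le_add (add_le_add h1 h2) h3) h4) h5) h6

end

end Pool.Agent.Lib.MP_009d13_co.P5
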