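import Pool.Agent.Lib.MP_009d13_co.P5.EXC
import Pool.Agent.Lib.MP_009d13_co.P5.DEC1

/-!
# Module EXD: decomposition of the paths according to the positions of two vertices
-/

set_option autoImplicit false

namespace Pool.Agent.Lib.MP_009d13_co.P5

open Finset Classical

noncomputable section

variable {V : Type} [Fintype V] (G : SimpleGraph V)

/-- walks with two edges starting in `v` -/
def xr (W : Finset V) (v : V) : Finset (Σ _ : V, V) := (nb G v ∩ W).sigma fun u => nb G u ∩ W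

theorem card_xr (W : Finset V) (v : V) :
    (xr G W v).card = ∑ u ∈ nb G v ∩ W, dg G W u := by
  unfold xr
  rw [Finset.card_sigma]
  rfl

/-- the sets of walks inside `W` -/
def x2 (W : Finset V) : Finset (V × V × V) := univ.filter fun v =>
  v.1 ∈ W ∧ v.2.1 ∈ W ∧ v.2.2 ∈ W ∧ G.Adj v.1 v.2.1 ∧ G.Adj v.2.1 v.2.2

def x3 (W : Finset V) : Finset (V × V × V × V) := univ.filter fun v =>
  v.1 ∈ W ∧ v.2.1 ∈ W ∧ v.2.2.1 ∈ W ∧ v.2.2.2 ∈ W ∧ G.Adj v.1 v.2.1 ∧ G.Adj v.2.1 v.2.2.1 ∧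
    G.Adj v.2.2.1 v.2.2.2

def x4 (W : Finset V) : Finset (V × V × V × V × V) := univ.filter fun v =>
  v.1 ∈ W ∧ v.2.1 ∈ W ∧ v.2.2.1 ∈ W ∧ v.2.2.2.1 ∈ W ∧ v.2.2.2.2 ∈ W ∧ G.Adj v.1 v.2.1 ∧
    G.Adj v.2.1 v.2.2.1 ∧ G.Adj v.2.2.1 v.2.2.2.1 ∧ G.Adj v.2.2.2.1 v.2.2.2.2

theorem mem_nbW {W : Finset V} {u v : V} : u ∈ nb G v ∩ W ↔ G.Adj v u ∧ u ∈ W := by
  unfold nb
  simp

theorem card_x2 (W : Finset V) : (x2 G W).card ≤ ∑ v ∈ W, dg G W v ^ 2 := by
  have h1 : (x2 G W).card ≤ (W.sigma fun v => (nb G v ∩ W) ×ˢ (nb G v ∩ W)).card := by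
    apply Finset.card_le_card_of_injOn (fun p => (⟨p.2.1, (p.1, p.2.2)⟩ : Σ _ : V, V × V))
    · rintro ⟨u, v, x⟩ hp
      simp only [x2, Finset.mem_coe, Finset.mem_filter, Finset.mem_univ, true_and] at hp
      simp only [Finset.mem_coe, Finset.mem_sigma, Finset.mem_product, mem_nbW]
      exact ⟨hp.2.1, ⟨hp.2.2.2.1.symm, hp.1⟩, hp.2.2.2.2, hp.2.2.1⟩
    · rintro ⟨u, v, x⟩ _ ⟨u', v', x'⟩ _ h
      simp only [Sigma.mk.injEq, heq_eq_eq, Prod.mk.injEq] at h ⊢
      exact ⟨h.2.1, h.1, h.2.2⟩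
  refine h1.trans (le_of_eq ?_)
  rw [Finset.card_sigma]
  apply Finset.sum_congr rfl
  intro v _
  rw [Finset.card_product, sq]
  rfl

theorem card_x3 (W : Finset V) :
    (x3 G W).card ≤ ∑ p ∈ pr G W W, dg G W p.1 * dg G W p.2 := by
  have h1 : (x3 G W).card
      ≤ ((pr G W W).sigma fun p => (nb G p.1 ∩ W) ×ˢ (nb G p.2 ∩ W)).card := by
    apply Finset.card_le_card_of_injOn
      (fun p => (⟨(p.2.1, p.2.2.1), (p.1, p.2.2.2)⟩ : Σ _ : V × V, V × V))
    · rintro ⟨u, v, x, y⟩ hp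
      simp only [x3, Finset.mem_coe, Finset.mem_filter, Finset.mem_univ, true_and] at hp
      simp only [Finset.mem_coe, Finset.mem_sigma, Finset.mem_product, mem_nbW, pr,
        Finset.mem_filter, Finset.mem_univ, true_and]
      obtain ⟨h1, h2, h3, h4, h5, h6, h7⟩ := hp
      exact ⟨⟨h2, h3, h6⟩, ⟨h5.symm, h1⟩, h7, h4⟩
    · rintro ⟨u, v, x, y⟩ _ ⟨u', v', x', y'⟩ _ h
      simp only [Sigma.mk.injEq, heq_eq_eq, Prod.mk.injEq] at h ⊢
      exact ⟨h.2.1, h.1.1, h.1.2, h.2.2⟩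
  refine h1.trans (le_of_eq ?_)
  rw [Finset.card_sigma]
  apply Finset.sum_congr rfl
  intro v _
  rw [Finset.card_product]
  rfl

/-- `Σ_v Σ_{u ~ v} deg u = Σ_u (deg u)^2` -/
theorem sum_xr (W : Finset V) :
    ∑ v ∈ W, ∑ u ∈ nb G v ∩ W, dg G W u = ∑ v ∈ W, dg G W v ^ 2 := by
  have h1 : ∀ v ∈ W, ∑ u ∈ nb G v ∩ W, dg G W u
      = ∑ u ∈ W, if G.Adj v u then dg G W u else 0 := by
    intro v _
    rw [← Finset.sum_filter]
    apply Finset.sum_congr _ (fun _ _ => rfl)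
    ext u
    rw [mem_nbW, Finset.mem_filter, and_comm]
  rw [Finset.sum_congr rfl h1, Finset.sum_comm]
  apply Finset.sum_congr rfl
  intro u _
  rw [← Finset.sum_filter, Finset.sum_const, smul_eq_mul, sq]
  congr 1
  unfold dg
  congr 1
  ext v
  rw [mem_nbW, Finset.mem_filter, and_comm, SimpleGraph.adj_comm]

theorem card_x4 (W : Finset V) (R : ℕ) (hR : ∀ v ∈ W, ∑ u ∈ nb G v ∩ W, dg G W u ≤ R) :
    (x4 G W).card ≤ R * ∑ v ∈ W, dg G W v ^ 2 := by
  have h1 : (x4 G W).card ≤ (W.sigma fun v => (xr G W v) ×ˢ (xr G W v)).card := by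
    apply Finset.card_le_card_of_injOn
      (fun p => (⟨p.2.2.1, (⟨p.2.1, p.1⟩, ⟨p.2.2.2.1, p.2.2.2.2⟩)⟩ :
        Σ _ : V, (Σ _ : V, V) × (Σ _ : V, V)))
    · rintro ⟨v1, v2, v3, v4, v5⟩ hp
      simp only [x4, Finset.mem_coe, Finset.mem_filter, Finset.mem_univ, true_and] at hp
      simp only [Finset.mem_coe, Finset.mem_sigma, Finset.mem_product, mem_nbW, xr]
      obtain ⟨h1, h2, h3, h4, h5, h6, h7, h8, h9⟩ := hp
      exact ⟨h3, ⟨⟨h7.symm, h2⟩, h6.symm, h1⟩, ⟨h8, h4⟩, h9, h5⟩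
    · rintro ⟨v1, v2, v3, v4, v5⟩ _ ⟨w1, w2, w3, w4, w5⟩ _ h
      simp only [Sigma.mk.injEq, heq_eq_eq, Prod.mk.injEq] at h ⊢
      exact ⟨h.2.1.2, h.2.1.1, h.1, h.2.2.1, h.2.2.2⟩
  refine h1.trans ?_
  rw [Finset.card_sigma, ← sum_xr, Finset.mul_sum]
  apply Finset.sum_le_sum
  intro v hv
  rw [Finset.card_product, card_xr]
  exact Nat.mul_le_mul_right _ (hR v hv)

theorem pc_none (W : Finset V) (R : ℕ) (hR : ∀ v ∈ W, ∑ u ∈ nb G v ∩ W, dg G W u ≤ R) :
    pc G W W W W W W ≤ R * ∑ p ∈ pr G W W, dg G W p.1 * dg G W p.2 := by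
  have h1 : pc G W W W W W W ≤ ((pr G W W).sigma fun p => (nb G p.1 ∩ W) ×ˢ
      ((nb G p.2 ∩ W).sigma fun u => xr G W u)).card := by
    unfold pc
    apply Finset.card_le_card_of_injOn
      (fun v : Six V => (⟨(v.2.1, v.2.2.1), (v.1, ⟨v.2.2.2.1, ⟨v.2.2.2.2.1, v.2.2.2.2.2⟩⟩)⟩ :
        Σ _ : V × V, V × (Σ _ : V, (Σ _ : V, V))))
    · rintro ⟨v0, v1, v2, v3, v4, v5⟩ hp
      replace hp := (Finset.mem_filter.1 (Finset.mem_coe.1 hp)).2
      simp only [IsPath6] at hp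
      simp only [Finset.mem_coe, Finset.mem_sigma, Finset.mem_product, mem_nbW, xr, pr,
        Finset.mem_filter, Finset.mem_univ, true_and]
      obtain ⟨⟨a1, a2, a3, a4, a5, _⟩, h0, h1, h2, h3, h4, h5⟩ := hp
      exact ⟨⟨h1, h2, a2⟩, ⟨a1.symm, h0⟩, ⟨a3, h3⟩, ⟨a4, h4⟩, a5, h5⟩
    · rintro ⟨v0, v1, v2, v3, v4, v5⟩ _ ⟨w0, w1, w2, w3, w4, w5⟩ _ h
      simp only [Sigma.mk.injEq, heq_eq_eq, Prod.mk.injEq] at h ⊢
      exact ⟨h.2.1, h.1.1, h.1.2, h.2.2.1, h.2.2.2.1, h.2.2.2.2⟩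
  refine h1.trans ?_
  rw [Finset.card_sigma, Finset.mul_sum]
  apply Finset.sum_le_sum
  intro p hp
  rw [Finset.card_product, Finset.card_sigma]
  have h2 : ∑ u ∈ nb G p.2 ∩ W, (xr G W u).card ≤ ∑ u ∈ nb G p.2 ∩ W, R := by
    apply Finset.sum_le_sum
    intro u hu
    rw [card_xr]
    exact hR u (Finset.mem_inter.1 hu).2
  rw [Finset.sum_const, smul_eq_mul] at h2
  calc (nb G p.1 ∩ W).card * ∑ u ∈ nb G p.2 ∩ W, (xr G W u).card
      ≤ (nb G p.1 ∩ W).card * ((nb G p.2 ∩ W).card * R) := Nat.mul_le_mul_left _ h2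
    _ = R * ((nb G p.1 ∩ W).card * (nb G p.2 ∩ W).card) := by ring
    _ = _ := rfl

/-! one special vertex -/

theorem pc_one0 (W : Finset V) (x : V) (R : ℕ)
    (hR : ∀ v ∈ W, ∑ u ∈ nb G v ∩ W, dg G W u ≤ R) :
    pc G {x} W W W W W ≤ R * ∑ v ∈ W, dg G W v ^ 2 := by
  refine le_trans ?_ (card_x4 G W R hR)
  unfold pc
  apply Finset.card_le_card_of_injOn (fun v : Six V => v.2)
  · rintro ⟨v0, v1, v2, v3, v4, v5⟩ hp
    replace hp := (Finset.mem_filter.1 (Finset.mem_coe.1 hp)).2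
    simp only [IsPath6] at hp
    simp only [Finset.mem_coe, x4, Finset.mem_filter, Finset.mem_univ, true_and]
    obtain ⟨⟨a1, a2, a3, a4, a5, _⟩, h0, h1, h2, h3, h4, h5⟩ := hp
    exact ⟨h1, h2, h3, h4, h5, a2, a3, a4, a5⟩
  · rintro ⟨v0, v1, v2, v3, v4, v5⟩ hv ⟨w0, w1, w2, w3, w4, w5⟩ hw h
    replace hv := (Finset.mem_filter.1 (Finset.mem_coe.1 hv)).2
    replace hw := (Finset.mem_filter.1 (Finset.mem_coe.1 hw)).2
    simp only [Finset.mem_singleton] at hv hw
    simp only [Prod.mk.injEq] at h ⊢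
    exact ⟨hv.2.1.trans hw.2.1.symm, h⟩

theorem pc_one1 (W : Finset V) (x : V) :
    pc G W {x} W W W W
      ≤ Fintype.card V * ∑ p ∈ pr G W W, dg G W p.1 * dg G W p.2 := by
  have h1 : pc G W {x} W W W W ≤ ((univ : Finset V) ×ˢ x3 G W).card := by
    unfold pc
    apply Finset.card_le_card_of_injOn
      (fun v : Six V => (v.1, (v.2.2.1, v.2.2.2.1, v.2.2.2.2.1, v.2.2.2.2.2)))
    · rintro ⟨v0, v1, v2, v3, v4, v5⟩ hp
      replace hp := (Finset.mem_filter.1 (Finset.mem_coe.1 hp)).2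
      simp only [IsPath6] at hp
      simp only [Finset.mem_coe, x3, Finset.mem_product, Finset.mem_filter, Finset.mem_univ,
        true_and]
      obtain ⟨⟨a1, a2, a3, a4, a5, _⟩, h0, h1, h2, h3, h4, h5⟩ := hp
      exact ⟨h2, h3, h4, h5, a3, a4, a5⟩
    · rintro ⟨v0, v1, v2, v3, v4, v5⟩ hv ⟨w0, w1, w2, w3, w4, w5⟩ hw h
      replace hv := (Finset.mem_filter.1 (Finset.mem_coe.1 hv)).2
      replace hw := (Finset.mem_filter.1 (Finset.mem_coe.1 hw)).2
      simp only [Finset.mem_singleton] at hv hw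
      simp only [Prod.mk.injEq] at h ⊢
      exact ⟨h.1, hv.2.2.1.trans hw.2.2.1.symm, h.2⟩
  rw [Finset.card_product, Finset.card_univ] at h1
  exact h1.trans (Nat.mul_le_mul_left _ (card_x3 G W))

theorem pc_one2 (W : Finset V) (x : V) :
    pc G W W {x} W W W ≤ (pr G W W).card * ∑ v ∈ W, dg G W v ^ 2 := by
  have h1 : pc G W W {x} W W W ≤ (pr G W W ×ˢ x2 G W).card := by
    unfold pc
    apply Finset.card_le_card_of_injOn
      (fun v : Six V => ((v.1, v.2.1), (v.2.2.2.1, v.2.2.2.2.1, v.2.2.2.2.2)))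
    · rintro ⟨v0, v1, v2, v3, v4, v5⟩ hp
      replace hp := (Finset.mem_filter.1 (Finset.mem_coe.1 hp)).2
      simp only [IsPath6] at hp
      simp only [Finset.mem_coe, x2, pr, Finset.mem_product, Finset.mem_filter, Finset.mem_univ,
        true_and]
      obtain ⟨⟨a1, a2, a3, a4, a5, _⟩, h0, h1, h2, h3, h4, h5⟩ := hp
      exact ⟨⟨h0, h1, a1⟩, h3, h4, h5, a4, a5⟩
    · rintro ⟨v0, v1, v2, v3, v4, v5⟩ hv ⟨w0, w1, w2, w3, w4, w5⟩ hw h
      replace hv := (Finset.mem_filter.1 (Finset.mem_coe.1 hv)).2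
      replace hw := (Finset.mem_filter.1 (Finset.mem_coe.1 hw)).2
      simp only [Finset.mem_singleton] at hv hw
      simp only [Prod.mk.injEq] at h ⊢
      exact ⟨h.1.1, h.1.2, hv.2.2.2.1.trans hw.2.2.2.1.symm, h.2⟩
  rw [Finset.card_product] at h1
  exact h1.trans (Nat.mul_le_mul_left _ (card_x2 G W))

/-! two special vertices, an empty segment -/

theorem pc_two01 (W : Finset V) (x y : V) :
    pc G {x} {y} W W W W ≤ ∑ p ∈ pr G W W, dg G W p.1 * dg G W p.2 := by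
  refine le_trans ?_ (card_x3 G W)
  unfold pc
  apply Finset.card_le_card_of_injOn
    (fun v : Six V => (v.2.2.1, v.2.2.2.1, v.2.2.2.2.1, v.2.2.2.2.2))
  · rintro ⟨v0, v1, v2, v3, v4, v5⟩ hp
    replace hp := (Finset.mem_filter.1 (Finset.mem_coe.1 hp)).2
    simp only [IsPath6] at hp
    simp only [Finset.mem_coe, x3, Finset.mem_filter, Finset.mem_univ, true_and]
    obtain ⟨⟨a1, a2, a3, a4, a5, _⟩, h0, h1, h2, h3, h4, h5⟩ := hp
    exact ⟨h2, h3, h4, h5, a3, a4, a5⟩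
  · rintro ⟨v0, v1, v2, v3, v4, v5⟩ hv ⟨w0, w1, w2, w3, w4, w5⟩ hw h
    replace hv := (Finset.mem_filter.1 (Finset.mem_coe.1 hv)).2
    replace hw := (Finset.mem_filter.1 (Finset.mem_coe.1 hw)).2
    simp only [Finset.mem_singleton] at hv hw
    simp only [Prod.mk.injEq] at h ⊢
    exact ⟨hv.2.1.trans hw.2.1.symm, hv.2.2.1.trans hw.2.2.1.symm, h⟩

theorem pc_two05 (W : Finset V) (x y : V) :
    pc G {x} W W W W {y} ≤ ∑ p ∈ pr G W W, dg G W p.1 * dg G W p.2 := by
  refine le_trans ?_ (card_x3 G W)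
  unfold pc
  apply Finset.card_le_card_of_injOn
    (fun v : Six V => (v.2.1, v.2.2.1, v.2.2.2.1, v.2.2.2.2.1))
  · rintro ⟨v0, v1, v2, v3, v4, v5⟩ hp
    replace hp := (Finset.mem_filter.1 (Finset.mem_coe.1 hp)).2
    simp only [IsPath6] at hp
    simp only [Finset.mem_coe, x3, Finset.mem_filter, Finset.mem_univ, true_and]
    obtain ⟨⟨a1, a2, a3, a4, a5, _⟩, h0, h1, h2, h3, h4, h5⟩ := hp
    exact ⟨h1, h2, h3, h4, a2, a3, a4⟩
  · rintro ⟨v0, v1, v2, v3, v4, v5⟩ hv ⟨w0, w1, w2, w3, w4, w5⟩ hw h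
    replace hv := (Finset.mem_filter.1 (Finset.mem_coe.1 hv)).2
    replace hw := (Finset.mem_filter.1 (Finset.mem_coe.1 hw)).2
    simp only [Finset.mem_singleton] at hv hw
    simp only [Prod.mk.injEq] at h ⊢
    exact ⟨hv.2.1.trans hw.2.1.symm, h.1, h.2.1, h.2.2.1, h.2.2.2,
      hv.2.2.2.2.2.2.trans hw.2.2.2.2.2.2.symm⟩

theorem pc_two02 (W : Finset V) (x y : V) :
    pc G {x} W {y} W W W ≤ Fintype.card V * ∑ v ∈ W, dg G W v ^ 2 := by
  have h1 : pc G {x} W {y} W W W ≤ ((univ : Finset V) ×ˢ x2 G W).card := by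
    unfold pc
    apply Finset.card_le_card_of_injOn
      (fun v : Six V => (v.2.1, (v.2.2.2.1, v.2.2.2.2.1, v.2.2.2.2.2)))
    · rintro ⟨v0, v1, v2, v3, v4, v5⟩ hp
      replace hp := (Finset.mem_filter.1 (Finset.mem_coe.1 hp)).2
      simp only [IsPath6] at hp
      simp only [Finset.mem_coe, x2, Finset.mem_product, Finset.mem_filter, Finset.mem_univ,
        true_and]
      obtain ⟨⟨a1, a2, a3, a4, a5, _⟩, h0, h1, h2, h3, h4, h5⟩ := hp
      exact ⟨h3, h4, h5, a4, a5⟩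
    · rintro ⟨v0, v1, v2, v3, v4, v5⟩ hv ⟨w0, w1, w2, w3, w4, w5⟩ hw h
      replace hv := (Finset.mem_filter.1 (Finset.mem_coe.1 hv)).2
      replace hw := (Finset.mem_filter.1 (Finset.mem_coe.1 hw)).2
      simp only [Finset.mem_singleton] at hv hw
      simp only [Prod.mk.injEq] at h ⊢
      exact ⟨hv.2.1.trans hw.2.1.symm, h.1, hv.2.2.2.1.trans hw.2.2.2.1.symm, h.2⟩
  rw [Finset.card_product, Finset.card_univ] at h1
  exact h1.trans (Nat.mul_le_mul_left _ (card_x2 G W))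

theorem pc_two03 (W : Finset V) (x y : V) :
    pc G {x} W W {y} W W ≤ (pr G W W).card * (pr G W W).card := by
  have h1 : pc G {x} W W {y} W W ≤ (pr G W W ×ˢ pr G W W).card := by
    unfold pc
    apply Finset.card_le_card_of_injOn
      (fun v : Six V => ((v.2.1, v.2.2.1), (v.2.2.2.2.1, v.2.2.2.2.2)))
    · rintro ⟨v0, v1, v2, v3, v4, v5⟩ hp
      replace hp := (Finset.mem_filter.1 (Finset.mem_coe.1 hp)).2
      simp only [IsPath6] at hp
      simp only [Finset.mem_coe, pr, Finset.mem_product, Finset.mem_filter, Finset.mem_univ,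
        true_and]
      obtain ⟨⟨a1, a2, a3, a4, a5, _⟩, h0, h1, h2, h3, h4, h5⟩ := hp
      exact ⟨⟨h1, h2, a2⟩, h4, h5, a5⟩
    · rintro ⟨v0, v1, v2, v3, v4, v5⟩ hv ⟨w0, w1, w2, w3, w4, w5⟩ hw h
      replace hv := (Finset.mem_filter.1 (Finset.mem_coe.1 hv)).2
      replace hw := (Finset.mem_filter.1 (Finset.mem_coe.1 hw)).2
      simp only [Finset.mem_singleton] at hv hw
      simp only [Prod.mk.injEq] at h ⊢
      exact ⟨hv.2.1.trans hw.2.1.symm, h.1.1, h.1.2, hv.2.2.2.2.1.trans hw.2.2.2.2.1.symm, h.2⟩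
  rwa [Finset.card_product] at h1

theorem pc_two04 (W : Finset V) (x y : V) :
    pc G {x} W W W {y} W ≤ Fintype.card V * ∑ v ∈ W, dg G W v ^ 2 := by
  have h1 : pc G {x} W W W {y} W ≤ ((univ : Finset V) ×ˢ x2 G W).card := by
    unfold pc
    apply Finset.card_le_card_of_injOn
      (fun v : Six V => (v.2.2.2.2.2, (v.2.1, v.2.2.1, v.2.2.2.1)))
    · rintro ⟨v0, v1, v2, v3, v4, v5⟩ hp
      replace hp := (Finset.mem_filter.1 (Finset.mem_coe.1 hp)).2
      simp only [IsPath6] at hp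
      simp only [Finset.mem_coe, x2, Finset.mem_product, Finset.mem_filter, Finset.mem_univ,
        true_and]
      obtain ⟨⟨a1, a2, a3, a4, a5, _⟩, h0, h1, h2, h3, h4, h5⟩ := hp
      exact ⟨h1, h2, h3, a2, a3⟩
    · rintro ⟨v0, v1, v2, v3, v4, v5⟩ hv ⟨w0, w1, w2, w3, w4, w5⟩ hw h
      replace hv := (Finset.mem_filter.1 (Finset.mem_coe.1 hv)).2
      replace hw := (Finset.mem_filter.1 (Finset.mem_coe.1 hw)).2
      simp only [Finset.mem_singleton] at hv hw
      simp only [Prod.mk.injEq] at h ⊢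
      exact ⟨hv.2.1.trans hw.2.1.symm, h.2.1, h.2.2.1, h.2.2.2,
        hv.2.2.2.2.2.1.trans hw.2.2.2.2.2.1.symm, h.1⟩
  rw [Finset.card_product, Finset.card_univ] at h1
  exact h1.trans (Nat.mul_le_mul_left _ (card_x2 G W))

theorem pc_two12 (W : Finset V) (x y : V) :
    pc G W {x} {y} W W W ≤ Fintype.card V * ∑ v ∈ W, dg G W v ^ 2 := by
  have h1 : pc G W {x} {y} W W W ≤ ((univ : Finset V) ×ˢ x2 G W).card := by
    unfold pc
    apply Finset.card_le_card_of_injOn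
      (fun v : Six V => (v.1, (v.2.2.2.1, v.2.2.2.2.1, v.2.2.2.2.2)))
    · rintro ⟨v0, v1, v2, v3, v4, v5⟩ hp
      replace hp := (Finset.mem_filter.1 (Finset.mem_coe.1 hp)).2
      simp only [IsPath6] at hp
      simp only [Finset.mem_coe, x2, Finset.mem_product, Finset.mem_filter, Finset.mem_univ,
        true_and]
      obtain ⟨⟨a1, a2, a3, a4, a5, _⟩, h0, h1, h2, h3, h4, h5⟩ := hp
      exact ⟨h3, h4, h5, a4, a5⟩
    · rintro ⟨v0, v1, v2, v3, v4, v5⟩ hv ⟨w0, w1, w2, w3, w4, w5⟩ hw h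
      replace hv := (Finset.mem_filter.1 (Finset.mem_coe.1 hv)).2
      replace hw := (Finset.mem_filter.1 (Finset.mem_coe.1 hw)).2
      simp only [Finset.mem_singleton] at hv hw
      simp only [Prod.mk.injEq] at h ⊢
      exact ⟨h.1, hv.2.2.1.trans hw.2.2.1.symm, hv.2.2.2.1.trans hw.2.2.2.1.symm, h.2⟩
  rw [Finset.card_product, Finset.card_univ] at h1
  exact h1.trans (Nat.mul_le_mul_left _ (card_x2 G W))

theorem pc_two23 (W : Finset V) (x y : V) :
    pc G W W {x} {y} W W ≤ (pr G W W).card * (pr G W W).card := by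
  have h1 : pc G W W {x} {y} W W ≤ (pr G W W ×ˢ pr G W W).card := by
    unfold pc
    apply Finset.card_le_card_of_injOn
      (fun v : Six V => ((v.1, v.2.1), (v.2.2.2.2.1, v.2.2.2.2.2)))
    · rintro ⟨v0, v1, v2, v3, v4, v5⟩ hp
      replace hp := (Finset.mem_filter.1 (Finset.mem_coe.1 hp)).2
      simp only [IsPath6] at hp
      simp only [Finset.mem_coe, pr, Finset.mem_product, Finset.mem_filter, Finset.mem_univ,
        true_and]
      obtain ⟨⟨a1, a2, a3, a4, a5, _⟩, h0, h1, h2, h3, h4, h5⟩ := hp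
      exact ⟨⟨h0, h1, a1⟩, h4, h5, a5⟩
    · rintro ⟨v0, v1, v2, v3, v4, v5⟩ hv ⟨w0, w1, w2, w3, w4, w5⟩ hw h
      replace hv := (Finset.mem_filter.1 (Finset.mem_coe.1 hv)).2
      replace hw := (Finset.mem_filter.1 (Finset.mem_coe.1 hw)).2
      simp only [Finset.mem_singleton] at hv hw
      simp only [Prod.mk.injEq] at h ⊢
      exact ⟨h.1.1, h.1.2, hv.2.2.2.1.trans hw.2.2.2.1.symm,
        hv.2.2.2.2.1.trans hw.2.2.2.2.1.symm, h.2⟩
  rwa [Finset.card_product] at h1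

/-! splitting according to the position of a vertex -/

theorem pc_split (x : V) (P0 P1 P2 P3 P4 P5 : Finset V) :
    pc G P0 P1 P2 P3 P4 P5
      ≤ pc G (P0.erase x) (P1.erase x) (P2.erase x) (P3.erase x) (P4.erase x) (P5.erase x)
      + (pc G (P0 ∩ {x}) (P1.erase x) (P2.erase x) (P3.erase x) (P4.erase x) (P5.erase x)
      + (pc G (P0.erase x) (P1 ∩ {x}) (P2.erase x) (P3.erase x) (P4.erase x) (P5.erase x)
      + (pc G (P0.erase x) (P1.erase x) (P2 ∩ {x}) (P3.erase x) (P4.erase x) (P5.erase x)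
      + (pc G (P0.erase x) (P1.erase x) (P2.erase x) (P3 ∩ {x}) (P4.erase x) (P5.erase x)
      + (pc G (P0.erase x) (P1.erase x) (P2.erase x) (P3.erase x) (P4 ∩ {x}) (P5.erase x)
      + pc G (P0.erase x) (P1.erase x) (P2.erase x) (P3.erase x) (P4.erase x) (P5 ∩ {x})))))) := by
  unfold pc
  refine le_trans (Finset.card_le_card ?_) ((Finset.card_union_le _ _).trans
    (Nat.add_le_add_left ((Finset.card_union_le _ _).trans
    (Nat.add_le_add_left ((Finset.card_union_le _ _).trans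
    (Nat.add_le_add_left ((Finset.card_union_le _ _).trans
    (Nat.add_le_add_left ((Finset.card_union_le _ _).trans
    (Nat.add_le_add_left (Finset.card_union_le _ _) _)) _)) _)) _)) _))
  rintro ⟨v0, v1, v2, v3, v4, v5⟩ hv
  replace hv := (Finset.mem_filter.1 hv).2
  obtain ⟨hp, h0, h1, h2, h3, h4, h5⟩ := hv
  dsimp only at h0 h1 h2 h3 h4 h5
  have hnd := hp.2.2.2.2.2
  simp only [List.nodup_cons, List.mem_cons, List.not_mem_nil, or_false, not_or,
    List.nodup_nil, and_true, not_false_eq_true] at hnd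
  obtain ⟨⟨n01, n02, n03, n04, n05⟩, ⟨n12, n13, n14, n15⟩, ⟨n23, n24, n25⟩, ⟨n34, n35⟩, n45⟩ := hnd
  simp only [Finset.mem_union, Finset.mem_filter, Finset.mem_univ, true_and, Finset.mem_erase,
    Finset.mem_inter, Finset.mem_singleton, ne_eq, hp, h0, h1, h2, h3, h4, h5, and_true]
  by_cases e0 : v0 = x
  · subst e0
    simp only [n01, n02, n03, n04, n05, Ne.symm n01, Ne.symm n02, Ne.symm n03, Ne.symm n04,
      Ne.symm n05, not_true_eq_false, not_false_eq_true, and_true, true_and, false_and, and_false,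
      false_or, or_false, true_or, or_true, and_self]
  · by_cases e1 : v1 = x
    · subst e1
      simp only [n01, n12, n13, n14, n15, Ne.symm n01, Ne.symm n12, Ne.symm n13, Ne.symm n14,
        Ne.symm n15, not_true_eq_false, not_false_eq_true, and_true, true_and, false_and,
        and_false, false_or, or_false, true_or, or_true, and_self]
    · by_cases e2 : v2 = x
      · subst e2
        simp only [n02, n12, n23, n24, n25, Ne.symm n02, Ne.symm n12, Ne.symm n23, Ne.symm n24,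
          Ne.symm n25, not_true_eq_false, not_false_eq_true, and_true, true_and, false_and,
          and_false, false_or, or_false, true_or, or_true, and_self]
      · by_cases e3 : v3 = x
        · subst e3
          simp only [n03, n13, n23, n34, n35, Ne.symm n03, Ne.symm n13, Ne.symm n23, Ne.symm n34,
            Ne.symm n35, not_true_eq_false, not_false_eq_true, and_true, true_and, false_and,
            and_false, false_or, or_false, true_or, or_true, and_self]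
        · by_cases e4 : v4 = x
          · subst e4
            simp only [n04, n14, n24, n34, n45, Ne.symm n04, Ne.symm n14, Ne.symm n24,
              Ne.symm n34, Ne.symm n45, not_true_eq_false, not_false_eq_true, and_true, true_and,
              false_and, and_false, false_or, or_false, true_or, or_true, and_self]
          · by_cases e5 : v5 = x
            · subst e5
              simp only [n05, n15, n25, n35, n45, Ne.symm n05, Ne.symm n15, Ne.symm n25,
                Ne.symm n35, Ne.symm n45, not_true_eq_false, not_false_eq_true, and_true,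
                true_and, false_and, and_false, false_or, or_false, true_or, or_true, and_self]
            · simp only [e0, e1, e2, e3, e4, e5, not_false_eq_true, and_self, true_or]

theorem T6_eq_pc : T6 G = pc G univ univ univ univ univ univ := by
  unfold T6 pc
  congr 1
  ext v
  simp

theorem pc_empty0 (P1 P2 P3 P4 P5 : Finset V) : pc G ∅ P1 P2 P3 P4 P5 = 0 := by
  unfold pc
  rw [Finset.card_eq_zero, Finset.filter_eq_empty_iff]
  intro v _
  simp

theorem pc_empty1 (P0 P2 P3 P4 P5 : Finset V) : pc G P0 ∅ P2 P3 P4 P5 = 0 := by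
  unfold pc
  rw [Finset.card_eq_zero, Finset.filter_eq_empty_iff]
  intro v _
  simp

theorem pc_empty2 (P0 P1 P3 P4 P5 : Finset V) : pc G P0 P1 ∅ P3 P4 P5 = 0 := by
  unfold pc
  rw [Finset.card_eq_zero, Finset.filter_eq_empty_iff]
  intro v _
  simp

theorem pc_empty3 (P0 P1 P2 P4 P5 : Finset V) : pc G P0 P1 P2 ∅ P4 P5 = 0 := by
  rw [pc_rev, pc_empty2]

theorem pc_empty4 (P0 P1 P2 P3 P5 : Finset V) : pc G P0 P1 P2 P3 ∅ P5 = 0 := by
  rw [pc_rev, pc_empty1]

theorem pc_empty5 (P0 P1 P2 P3 P4 : Finset V) : pc G P0 P1 P2 P3 P4 ∅ = 0 := by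
  rw [pc_rev, pc_empty0]

theorem ext_dec {V : Type} [Fintype V] (G : SimpleGraph V) {a b : V} (hab : a ≠ b)
    (w1 w2 w3 R : ℕ) (hw1 : (pr G (WW a b) (WW a b)).card ≤ w1)
    (hw2 : ∑ v ∈ WW a b, dg G (WW a b) v ^ 2 ≤ w2)
    (hw3 : ∑ p ∈ pr G (WW a b) (WW a b), dg G (WW a b) p.1 * dg G (WW a b) p.2 ≤ w3)
    (hR : ∀ v ∈ WW a b, ∑ u ∈ nb G v ∩ WW a b, dg G (WW a b) u ≤ R) :
    T6 G ≤ 2 * ((YY G a b).card * (dd G {a, b} b * xa G a b a + dd G {a, b} a * xa G a b b)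
        + dd G {a, b} a * dd G {a, b} b * xab G a b)
      + (R * w3 + 4 * (R * w2) + 4 * (Fintype.card V * w3) + 4 * (w1 * w2)
        + 6 * w3 + 12 * (Fintype.card V * w2) + 6 * w1 ^ 2) := by
  have hmain := ext_main_patterns G hab
  have s1 : (univ : Finset V) ∩ {a} = {a} := Finset.univ_inter _
  have s2 : ((univ : Finset V).erase a) ∩ {b} = {b} := by
    ext x
    simp only [Finset.mem_inter, Finset.mem_erase, Finset.mem_univ, and_true,
      Finset.mem_singleton, ne_eq]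
    constructor
    · exact fun h => h.2
    · rintro rfl
      exact ⟨fun h => hab h.symm, rfl⟩
  have s3 : ({a} : Finset V).erase b = {a} := by
    apply Finset.erase_eq_of_notMem
    rw [Finset.mem_singleton]
    exact fun h => hab h.symm
  have s4 : ({a} : Finset V) ∩ {b} = ∅ := by
    ext x
    simp only [Finset.mem_inter, Finset.mem_singleton, Finset.notMem_empty, iff_false, not_and]
    rintro rfl
    exact hab
  have s5 : ((univ : Finset V).erase a).erase b = WW a b := rfl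
  have t0 := pc_split G a univ univ univ univ univ univ
  rw [← T6_eq_pc] at t0
  simp only [s1] at t0
  have q0 := pc_split G b (univ.erase a) (univ.erase a) (univ.erase a) (univ.erase a)
    (univ.erase a) (univ.erase a)
  have q1 := pc_split G b {a} (univ.erase a) (univ.erase a) (univ.erase a)
    (univ.erase a) (univ.erase a)
  have q2 := pc_split G b (univ.erase a) {a} (univ.erase a) (univ.erase a)
    (univ.erase a) (univ.erase a)
  have q3 := pc_split G b (univ.erase a) (univ.erase a) {a} (univ.erase a)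
    (univ.erase a) (univ.erase a)
  have q4 := pc_split G b (univ.erase a) (univ.erase a) (univ.erase a) {a}
    (univ.erase a) (univ.erase a)
  have q5 := pc_split G b (univ.erase a) (univ.erase a) (univ.erase a)
    (univ.erase a) {a} (univ.erase a)
  have q6 := pc_split G b (univ.erase a) (univ.erase a) (univ.erase a)
    (univ.erase a) (univ.erase a) {a}
  simp only [s2, s3, s4, s5, pc_empty0, pc_empty1, pc_empty2, pc_empty3, pc_empty4, pc_empty5]
    at q0 q1 q2 q3 q4 q5 q6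
  set W := WW a b with hW
  set S2 := ∑ v ∈ W, dg G W v ^ 2 with hS2
  set S3 := ∑ p ∈ pr G W W, dg G W p.1 * dg G W p.2 with hS3
  set n := Fintype.card V with hn
  -- bounds
  have m2 : R * S2 ≤ R * w2 := Nat.mul_le_mul_left _ hw2
  have m3 : R * S3 ≤ R * w3 := Nat.mul_le_mul_left _ hw3
  have m4 : n * S3 ≤ n * w3 := Nat.mul_le_mul_left _ hw3
  have m5 : n * S2 ≤ n * w2 := Nat.mul_le_mul_left _ hw2
  have m6 : (pr G W W).card * S2 ≤ w1 * w2 := Nat.mul_le_mul hw1 hw2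
  have m7 : (pr G W W).card * (pr G W W).card ≤ w1 ^ 2 := by
    rw [sq]; exact Nat.mul_le_mul hw1 hw1
  have b0 : pc G W W W W W W ≤ R * w3 := (pc_none G W R hR).trans m3
  have o0 : ∀ x, pc G {x} W W W W W ≤ R * w2 := fun x => (pc_one0 G W x R hR).trans m2
  have o5 : ∀ x, pc G W W W W W {x} ≤ R * w2 := fun x => by rw [pc_rev]; exact o0 x
  have o1 : ∀ x, pc G W {x} W W W W ≤ n * w3 := fun x => (pc_one1 G W x).trans m4
  have o4 : ∀ x, pc G W W W W {x} W ≤ n * w3 := fun x => by rw [pc_rev]; exact o1 x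
  have o2 : ∀ x, pc G W W {x} W W W ≤ w1 * w2 := fun x => (pc_one2 G W x).trans m6
  have o3 : ∀ x, pc G W W W {x} W W ≤ w1 * w2 := fun x => by rw [pc_rev]; exact o2 x
  have r01 : ∀ x y, pc G {x} {y} W W W W ≤ w3 := fun x y => (pc_two01 G W x y).trans hw3
  have r45 : ∀ x y, pc G W W W W {x} {y} ≤ w3 := fun x y => by rw [pc_rev]; exact r01 y x
  have r05 : ∀ x y, pc G {x} W W W W {y} ≤ w3 := fun x y => (pc_two05 G W x y).trans hw3
  have r02 : ∀ x y, pc G {x} W {y} W W W ≤ n * w2 := fun x y => (pc_two02 G W x y).trans m5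
  have r35 : ∀ x y, pc G W W W {x} W {y} ≤ n * w2 := fun x y => by rw [pc_rev]; exact r02 y x
  have r03 : ∀ x y, pc G {x} W W {y} W W ≤ w1 ^ 2 := fun x y => (pc_two03 G W x y).trans m7
  have r25 : ∀ x y, pc G W W {x} W W {y} ≤ w1 ^ 2 := fun x y => by rw [pc_rev]; exact r03 y x
  have r04 : ∀ x y, pc G {x} W W W {y} W ≤ n * w2 := fun x y => (pc_two04 G W x y).trans m5
  have r15 : ∀ x y, pc G W {x} W W W {y} ≤ n * w2 := fun x y => by rw [pc_rev]; exact r04 y x
  have r12 : ∀ x y, pc G W {x} {y} W W W ≤ n * w2 := fun x y => (pc_two12 G W x y).trans m5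
  have r34 : ∀ x y, pc G W W W {x} {y} W ≤ n * w2 := fun x y => by rw [pc_rev]; exact r12 y x
  have r23 : ∀ x y, pc G W W {x} {y} W W ≤ w1 ^ 2 := fun x y => (pc_two23 G W x y).trans m7
  have A1 := o0 a
  have A2 := o1 a
  have A3 := o2 a
  have A4 := o3 a
  have A5 := o4 a
  have A6 := o5 a
  have B1 := o0 b
  have B2 := o1 b
  have B3 := o2 b
  have B4 := o3 b
  have B5 := o4 b
  have B6 := o5 b
  have C1 := r01 a b
  have C2 := r01 b a
  have C3 := r45 a b
  have C4 := r45 b a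
  have C5 := r05 a b
  have C6 := r05 b a
  have D1 := r02 a b
  have D2 := r02 b a
  have D3 := r35 a b
  have D4 := r35 b a
  have D5 := r03 a b
  have D6 := r03 b a
  have E1 := r25 a b
  have E2 := r25 b a
  have E3 := r04 a b
  have E4 := r04 b a
  have E5 := r15 a b
  have E6 := r15 b a
  have F1 := r12 a b
  have F2 := r12 b a
  have F3 := r34 a b
  have F4 := r34 b a
  have F5 := r23 a b
  have F6 := r23 b a
  omega

end

end Pool.Agent.Lib.MP_009d13_co.P5
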