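import Pool.Agent.Lib.MP_009d13_co.P5.EXA

/-!
# Module EXE: the main terms in the extremal case
-/

set_option autoImplicit false

namespace Pool.Agent.Lib.MP_009d13_co.P5

open Finset Classical

noncomputable section

theorem exe_pr_swap {V : Type} [Fintype V] (G : SimpleGraph V) (S T : Finset V) :
    (pr G S T).card = (pr G T S).card := by
  apply Finset.card_bij (fun p _ => p.swap)
  · intro p hp
    simp only [pr, mem_filter, mem_univ, true_and, Prod.fst_swap, Prod.snd_swap] at hp ⊢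
    exact ⟨hp.2.1, hp.1, hp.2.2.symm⟩
  · intro p _ q _ h
    exact Prod.swap_injective h
  · intro q hq
    refine ⟨q.swap, ?_, Prod.swap_swap q⟩
    simp only [pr, mem_filter, mem_univ, true_and, Prod.fst_swap, Prod.snd_swap] at hq ⊢
    exact ⟨hq.2.1, hq.1, hq.2.2.symm⟩

theorem exe_dd {V : Type} [Fintype V] (G : SimpleGraph V) {a b : V} (hab : a ≠ b) :
    (YY G a b).card ≤ dd G {a, b} a ∧ (YY G a b).card ≤ dd G {a, b} b ∧
      dd G {a, b} a + dd G {a, b} b ≤ 2 * (YY G a b).card + (OO G a b).card := by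
  have ha : (dd G {a, b} a : ℕ) = ∑ v : V, if (G.Adj a v ∧ v ≠ b) then 1 else 0 := by
    rw [dd, ← Finset.card_filter]
    congr 1
    ext v
    simp only [nb, mem_sdiff, mem_filter, mem_univ, true_and, mem_insert, mem_singleton, not_or]
    constructor
    · rintro ⟨h1, _, h3⟩
      exact ⟨h1, h3⟩
    · rintro ⟨h1, h3⟩
      exact ⟨h1, h1.ne', h3⟩
  have hb : (dd G {a, b} b : ℕ) = ∑ v : V, if (G.Adj b v ∧ v ≠ a) then 1 else 0 := by
    rw [dd, ← Finset.card_filter]
    congr 1
    ext v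
    simp only [nb, mem_sdiff, mem_filter, mem_univ, true_and, mem_insert, mem_singleton, not_or]
    constructor
    · rintro ⟨h1, h2, _⟩
      exact ⟨h1, h2⟩
    · rintro ⟨h1, h3⟩
      exact ⟨h1, h3, h1.ne'⟩
  have hY : (YY G a b).card = ∑ v : V, if (G.Adj a v ∧ G.Adj b v) then 1 else 0 := by
    rw [YY, ← Finset.card_filter]
    congr 1
    ext v
    simp only [nb, mem_inter, mem_filter, mem_univ, true_and]
  have hO : (OO G a b).card
      = ∑ v : V, if (v ≠ a ∧ v ≠ b ∧ ¬ (G.Adj a v ∧ G.Adj b v)) then 1 else 0 := by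
    rw [OO, ← Finset.card_filter]
    congr 1
    ext v
    simp only [WW, YY, nb, mem_sdiff, mem_erase, mem_inter, mem_filter, mem_univ, true_and,
      and_true]
    tauto
  refine ⟨?_, ?_, ?_⟩
  · rw [ha, hY]
    apply Finset.sum_le_sum
    intro v _
    by_cases h1 : G.Adj a v <;> by_cases h2 : G.Adj b v
    · have : v ≠ b := h2.ne'
      simp [h1, h2, this]
    all_goals simp [h1, h2]
  · rw [hb, hY]
    apply Finset.sum_le_sum
    intro v _
    by_cases h1 : G.Adj a v <;> by_cases h2 : G.Adj b v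
    · have : v ≠ a := h1.ne'
      simp [h1, h2, this]
    all_goals simp [h1, h2]
  · rw [ha, hb, hY, hO, ← Finset.sum_add_distrib, Finset.mul_sum, ← Finset.sum_add_distrib]
    apply Finset.sum_le_sum
    intro v _
    by_cases e1 : v = a
    · subst e1
      simp [hab]
    by_cases e2 : v = b
    · subst e2
      simp [Ne.symm hab]
    by_cases h1 : G.Adj a v <;> by_cases h2 : G.Adj b v <;> simp [h1, h2, e1, e2]

theorem exe_x {V : Type} [Fintype V] (G : SimpleGraph V) {a b : V} (hab : a ≠ b) :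
    xa G a b a + xa G a b b ≤ 2 * (pr G (YY G a b) (YY G a b)).card
      + 3 * (pr G (YY G a b) (OO G a b)).card + (pr G (OO G a b) (OO G a b)).card ∧
    2 * xab G a b ≤ 2 * (pr G (YY G a b) (YY G a b)).card
      + 2 * (pr G (YY G a b) (OO G a b)).card + (pr G (OO G a b) (OO G a b)).card := by
  have key : ∀ S T : Finset V, (pr G S T).card
      = ∑ p : V × V, if (p.1 ∈ S ∧ p.2 ∈ T ∧ G.Adj p.1 p.2) then 1 else 0 := by
    intro S T
    rw [pr, ← Finset.card_filter]
  have hx : ∀ h : V, xa G a b h = ∑ p : V × V,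
      if ((p.1 ∈ WW a b ∧ p.2 ∈ WW a b ∧ G.Adj p.1 p.2) ∧ G.Adj p.2 h) then 1 else 0 := by
    intro h
    rw [xa, pr, Finset.filter_filter, ← Finset.card_filter]
  have hxab : xab G a b = ∑ p : V × V,
      if ((p.1 ∈ WW a b ∧ p.2 ∈ WW a b ∧ G.Adj p.1 p.2) ∧ (G.Adj p.1 a ∧ G.Adj p.2 b))
        then 1 else 0 := by
    rw [xab, pr, Finset.filter_filter, ← Finset.card_filter]
  have hxab' : xab G a b = ∑ p : V × V,
      if ((p.1 ∈ WW a b ∧ p.2 ∈ WW a b ∧ G.Adj p.1 p.2) ∧ (G.Adj p.2 a ∧ G.Adj p.1 b))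
        then 1 else 0 := by
    rw [hxab]
    apply Fintype.sum_equiv (Equiv.prodComm V V)
    intro p
    simp only [Equiv.prodComm_apply, Prod.fst_swap, Prod.snd_swap]
    congr 1
    rw [G.adj_comm p.2 p.1]
    apply propext
    tauto
  have hYO : (pr G (YY G a b) (OO G a b)).card = (pr G (OO G a b) (YY G a b)).card :=
    exe_pr_swap G _ _
  have hmY : ∀ v : V, v ∈ YY G a b ↔ (G.Adj v a ∧ G.Adj v b) := by
    intro v
    simp only [YY, nb, mem_inter, mem_filter, mem_univ, true_and, G.adj_comm a v, G.adj_comm b v]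
  have hmW : ∀ v : V, v ∈ WW a b ↔ (v ≠ b ∧ v ≠ a) := by
    intro v
    simp only [WW, mem_erase, mem_univ, and_true]
  have hmO : ∀ v : V, v ∈ OO G a b ↔ ((v ≠ b ∧ v ≠ a) ∧ ¬ (G.Adj v a ∧ G.Adj v b)) := by
    intro v
    rw [OO, mem_sdiff, hmW, hmY]
  constructor
  · have e : 2 * (pr G (YY G a b) (YY G a b)).card
      + 3 * (pr G (YY G a b) (OO G a b)).card + (pr G (OO G a b) (OO G a b)).card
      = 2 * (pr G (YY G a b) (YY G a b)).card
      + 1 * (pr G (YY G a b) (OO G a b)).card + 2 * (pr G (OO G a b) (YY G a b)).card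
        + (pr G (OO G a b) (OO G a b)).card := by
      rw [← hYO]
      ring
    rw [e, hx, hx, key, key, key, key, Finset.mul_sum, Finset.mul_sum, Finset.mul_sum,
      ← Finset.sum_add_distrib, ← Finset.sum_add_distrib, ← Finset.sum_add_distrib,
      ← Finset.sum_add_distrib]
    apply Finset.sum_le_sum
    rintro ⟨u, v⟩ _
    simp only [hmY, hmW, hmO]
    by_cases huv : G.Adj u v
    · by_cases e1 : u = a
      · subst e1; simp
      by_cases e2 : u = b
      · subst e2; simp
      by_cases e3 : v = a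
      · subst e3; simp
      by_cases e4 : v = b
      · subst e4; simp
      by_cases h1 : G.Adj u a <;> by_cases h2 : G.Adj u b <;> by_cases h3 : G.Adj v a <;>
        by_cases h4 : G.Adj v b <;> simp [huv, e1, e2, e3, e4, h1, h2, h3, h4]
    · simp [huv]
  · have e : 2 * (pr G (YY G a b) (YY G a b)).card
      + 2 * (pr G (YY G a b) (OO G a b)).card + (pr G (OO G a b) (OO G a b)).card
      = 2 * (pr G (YY G a b) (YY G a b)).card
      + 1 * (pr G (YY G a b) (OO G a b)).card + 1 * (pr G (OO G a b) (YY G a b)).card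
        + (pr G (OO G a b) (OO G a b)).card := by
      rw [← hYO]
      ring
    rw [e, two_mul (xab G a b)]
    nth_rewrite 1 [hxab]
    rw [hxab', key, key, key, key, Finset.mul_sum, Finset.mul_sum, Finset.mul_sum,
      ← Finset.sum_add_distrib, ← Finset.sum_add_distrib, ← Finset.sum_add_distrib,
      ← Finset.sum_add_distrib]
    apply Finset.sum_le_sum
    rintro ⟨u, v⟩ _
    simp only [hmY, hmW, hmO]
    by_cases huv : G.Adj u v
    · by_cases e1 : u = a
      · subst e1; simp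
      by_cases e2 : u = b
      · subst e2; simp
      by_cases e3 : v = a
      · subst e3; simp
      by_cases e4 : v = b
      · subst e4; simp
      by_cases h1 : G.Adj u a <;> by_cases h2 : G.Adj u b <;> by_cases h3 : G.Adj v a <;>
        by_cases h4 : G.Adj v b <;> simp [huv, e1, e2, e3, e4, h1, h2, h3, h4]
    · simp [huv]

theorem exe_x_le {V : Type} [Fintype V] (G : SimpleGraph V) {a b : V} (h : V) :
    xa G a b h ≤ (pr G (YY G a b) (YY G a b)).card
      + 2 * (pr G (YY G a b) (OO G a b)).card + (pr G (OO G a b) (OO G a b)).card := by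
  have key : ∀ S T : Finset V, (pr G S T).card
      = ∑ p : V × V, if (p.1 ∈ S ∧ p.2 ∈ T ∧ G.Adj p.1 p.2) then 1 else 0 := by
    intro S T
    rw [pr, ← Finset.card_filter]
  have hx : xa G a b h = ∑ p : V × V,
      if ((p.1 ∈ WW a b ∧ p.2 ∈ WW a b ∧ G.Adj p.1 p.2) ∧ G.Adj p.2 h) then 1 else 0 := by
    rw [xa, pr, Finset.filter_filter, ← Finset.card_filter]
  have hYO : (pr G (YY G a b) (OO G a b)).card = (pr G (OO G a b) (YY G a b)).card :=
    exe_pr_swap G _ _
  have hmO : ∀ v : V, v ∈ OO G a b ↔ (v ∈ WW a b ∧ v ∉ YY G a b) := by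
    intro v
    rw [OO, mem_sdiff]
  have e : (pr G (YY G a b) (YY G a b)).card
      + 2 * (pr G (YY G a b) (OO G a b)).card + (pr G (OO G a b) (OO G a b)).card
      = (pr G (YY G a b) (YY G a b)).card
      + (pr G (YY G a b) (OO G a b)).card + (pr G (OO G a b) (YY G a b)).card
        + (pr G (OO G a b) (OO G a b)).card := by
    rw [← hYO]
    ring
  rw [e, hx, key, key, key, key, ← Finset.sum_add_distrib, ← Finset.sum_add_distrib,
    ← Finset.sum_add_distrib]
  apply Finset.sum_le_sum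
  rintro ⟨u, v⟩ _
  simp only [hmO]
  by_cases huv : G.Adj u v
  · by_cases h1 : u ∈ WW a b <;> by_cases h2 : u ∈ YY G a b <;> by_cases h3 : v ∈ WW a b <;>
        by_cases h4 : v ∈ YY G a b <;> by_cases h5 : G.Adj v h <;> simp [huv, h1, h2, h3, h4, h5]
  · simp [huv]

theorem ext_main {V : Type} [Fintype V] (G : SimpleGraph V) (hS : Sparse6 G) (hK : NoK33m G)
    {a b : V} (hab : a ≠ b) :
    (((YY G a b).card * (dd G {a, b} b * xa G a b a + dd G {a, b} a * xa G a b b)
        + dd G {a, b} a * dd G {a, b} b * xab G a b : ℕ) : ℝ)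
      ≤ 6 * (Fintype.card V : ℝ) ^ 3 - 6 * (Fintype.card V : ℝ) ^ 2 * (OO G a b).card
        + 1000 * (Fintype.card V : ℝ) * (Fintype.card V + ((OO G a b).card : ℝ) ^ 2) := by
  have h1 := card_YO G hab
  have h2 := pr_YY G hS hab
  have h3 := pr_YO G hK hab
  have h4 := pr_all G hS hab
  obtain ⟨h5, h6, h7⟩ := exe_dd G hab
  obtain ⟨h8, h9⟩ := exe_x G hab
  have h10 := exe_x_le G (a := a) (b := b) a
  have h11 := exe_x_le G (a := a) (b := b) b
  generalize (YY G a b).card = N at *
  generalize (OO G a b).card = t at *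
  generalize Fintype.card V = n at *
  generalize dd G {a, b} a = A at *
  generalize dd G {a, b} b = B at *
  generalize (pr G (YY G a b) (YY G a b)).card = y0 at *
  generalize (pr G (YY G a b) (OO G a b)).card = e1 at *
  generalize (pr G (OO G a b) (OO G a b)).card = o0 at *
  generalize xa G a b a = X at *
  generalize xa G a b b = X' at *
  generalize xab G a b = Z at *
  obtain ⟨α, rfl⟩ := Nat.exists_eq_add_of_le h5
  obtain ⟨β, rfl⟩ := Nat.exists_eq_add_of_le h6
  have h12 : α + β ≤ t := by omega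
  have h13 : y0 + 2 * e1 + o0 + 2 * (α + β) ≤ 2 * N + 6 * t + 12 := by omega
  have hn : (n : ℝ) = N + t + 2 := by
    rw [← h1]; push_cast; ring
  have r2 : (y0 : ℝ) ≤ 2 * N + 12 := by exact_mod_cast h2
  have r3 : (e1 : ℝ) ≤ 2 * t := by exact_mod_cast h3
  have r8 : (X : ℝ) + X' ≤ 2 * y0 + 3 * e1 + o0 := by exact_mod_cast h8
  have r9 : 2 * (Z : ℝ) ≤ 2 * y0 + 2 * e1 + o0 := by exact_mod_cast h9
  have r10 : (X : ℝ) ≤ y0 + 2 * e1 + o0 := by exact_mod_cast h10
  have r11 : (X' : ℝ) ≤ y0 + 2 * e1 + o0 := by exact_mod_cast h11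
  have r12 : (α : ℝ) + β ≤ t := by exact_mod_cast h12
  have r13 : (y0 : ℝ) + 2 * e1 + o0 + 2 * (α + β) ≤ 2 * N + 6 * t + 12 := by exact_mod_cast h13
  have pN : (0 : ℝ) ≤ N := Nat.cast_nonneg _
  have pt : (0 : ℝ) ≤ t := Nat.cast_nonneg _
  have pα : (0 : ℝ) ≤ α := Nat.cast_nonneg _
  have pβ : (0 : ℝ) ≤ β := Nat.cast_nonneg _
  have py : (0 : ℝ) ≤ y0 := Nat.cast_nonneg _
  have pe : (0 : ℝ) ≤ e1 := Nat.cast_nonneg _
  have po : (0 : ℝ) ≤ o0 := Nat.cast_nonneg _
  have pZ : (0 : ℝ) ≤ Z := Nat.cast_nonneg _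
  push_cast
  clear h1 h2 h3 h4 h5 h6 h7 h8 h9 h10 h11 h12 h13
  generalize (N : ℝ) = N at *
  generalize (t : ℝ) = t at *
  generalize (n : ℝ) = n at *
  generalize (α : ℝ) = α at *
  generalize (β : ℝ) = β at *
  generalize (y0 : ℝ) = y0 at *
  generalize (e1 : ℝ) = e1 at *
  generalize (o0 : ℝ) = o0 at *
  generalize (X : ℝ) = X at *
  generalize (X' : ℝ) = X' at *
  generalize (Z : ℝ) = Z at *
  have hZ : Z ≤ 6 * n := by rw [hn]; linarith
  -- first part
  have i1 : N ^ 2 * (X + X' + Z) ≤ N ^ 2 * (6 * N + 11 * t + 36 - 3 * (α + β)) := by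
    apply mul_le_mul_of_nonneg_left _ (by positivity)
    linarith
  have i2 : N * (β * X + α * X') ≤ N * (β * (2 * N + 6 * t + 12) + α * (2 * N + 6 * t + 12)) := by
    apply mul_le_mul_of_nonneg_left _ pN
    apply add_le_add
    · apply mul_le_mul_of_nonneg_left _ pβ
      linarith
    · apply mul_le_mul_of_nonneg_left _ pα
      linarith
  have i3 : N * (α + β) * Z ≤ N * (α + β) * (2 * N + 6 * t + 12) := by
    apply mul_le_mul_of_nonneg_left _ (by positivity)
    linarith
  have i4 : α * β * Z ≤ t ^ 2 * (6 * n) := by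
    apply mul_le_mul _ hZ pZ (by positivity)
    nlinarith
  have hNn : N ≤ n - t := by rw [hn]; linarith
  have hnt : 0 ≤ n - t := le_trans pN hNn
  have hn2 : 2 ≤ n := by rw [hn]; linarith
  have hn0 : 0 ≤ n := by linarith
  have htn : t ≤ n := by linarith
  have i5 : N ^ 2 * (6 * N + 12 * t) ≤ (n - t) ^ 2 * (6 * (n - t) + 12 * t) := by
    apply mul_le_mul
    · exact pow_le_pow_left₀ pN hNn 2
    · linarith
    · positivity
    · positivity
  have i6 : (n - t) ^ 2 * (6 * (n - t) + 12 * t) ≤ 6 * n ^ 3 - 6 * n ^ 2 * t := by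
    have : 0 ≤ t ^ 2 * (n - t) := by positivity
    nlinarith
  have i7 : N ^ 2 * (α + β) ≤ N ^ 2 * t := by
    apply mul_le_mul_of_nonneg_left r12 (by positivity)
  have i8 : N * (α + β) * t ≤ n * t ^ 2 := by
    have h1 : N * (α + β) ≤ n * t := by
      apply mul_le_mul (by linarith) r12 (by positivity) hn0
    calc N * (α + β) * t ≤ n * t * t := mul_le_mul_of_nonneg_right h1 pt
      _ = n * t ^ 2 := by ring
  have i9 : N * (α + β) ≤ n * n := by
    apply mul_le_mul (by linarith) (by linarith) (by positivity) hn0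
  have i10 : N ^ 2 ≤ n ^ 2 := pow_le_pow_left₀ pN (by linarith) 2
  have i11 : 0 ≤ n * t ^ 2 := by positivity
  have i12 : 0 ≤ n ^ 2 := by positivity
  nlinarith [i1, i2, i3, i4, i5, i6, i7, i8, i9, i10, i11, i12]

end

end Pool.Agent.Lib.MP_009d13_co.P5
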