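import Pool.Agent.Lib.MP_009d13_co.P5.EXA
import Pool.Agent.Lib.MP_009d13_co.P5.EXB
import Pool.Agent.Lib.MP_009d13_co.P5.EXC
import Pool.Agent.Lib.MP_009d13_co.P5.EXD
import Pool.Agent.Lib.MP_009d13_co.P5.EXE

/-!
# Module EXT: two vertices with almost all the others as common neighbours
-/

set_option autoImplicit false

namespace Pool.Agent.Lib.MP_009d13_co.P5

open Finset Classical

noncomputable section

/-! ### EXT (uses EXA .. EXE) -/
theorem extremal : ∃ δ K : ℝ, 0 < δ ∧ δ ≤ 1 ∧ ∀ {V : Type} [Fintype V]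
    (G : SimpleGraph V), Sparse6 G → NoK33m G → ∀ a b : V, a ≠ b →
      (1 - δ) * (Fintype.card V : ℝ) < ((nb G a ∩ nb G b).card : ℝ) →
      (T6 G : ℝ) ≤ 12 * (Fintype.card V : ℝ) ^ 3 + K * (Fintype.card V : ℝ) ^ 2 := by
  refine ⟨1 / 5000, 60000, by norm_num, by norm_num, ?_⟩
  intro V _ G hS hK a b hab hbig
  have hcard := card_YO G hab
  set n : ℕ := Fintype.card V with hn
  set t : ℕ := (OO G a b).card with ht
  have hw1 := w1_le G hS hab
  have hw2 := w2_le G hS hK hab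
  have hw3 := w3_le G hS hK hab
  have hR : ∀ v ∈ WW a b, ∑ u ∈ nb G v ∩ WW a b, dg G (WW a b) u ≤ 10 * t + 4 :=
    fun v hv => r_le G hS hK hab hv
  have hdec := ext_dec G hab _ _ _ _ hw1 hw2 hw3 hR
  have hmain := ext_main G hS hK hab
  rw [← ht] at hw2 hw3 hmain
  rw [← hn, ← ht] at hdec
  have htn : t + 2 ≤ n := by omega
  have hn2 : 2 ≤ n := by omega
  -- the error terms
  set M : ℕ := (YY G a b).card * (dd G {a, b} b * xa G a b a + dd G {a, b} a * xa G a b b)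
        + dd G {a, b} a * dd G {a, b} b * xab G a b with hM
  have herr : (10 * t + 4) * (200 * (n + t ^ 2)) + 4 * ((10 * t + 4) * (100 * (n + t ^ 2)))
      + 4 * (n * (200 * (n + t ^ 2))) + 4 * (6 * n * (100 * (n + t ^ 2)))
      + 6 * (200 * (n + t ^ 2)) + 12 * (n * (100 * (n + t ^ 2))) + 6 * (6 * n) ^ 2
      ≤ 14000 * (n * (n + t ^ 2)) := by
    have h1 : 10 * t + 4 ≤ 10 * n := by omega
    have h2 : (10 * t + 4) * (200 * (n + t ^ 2)) ≤ 10 * n * (200 * (n + t ^ 2)) :=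
      Nat.mul_le_mul_right _ h1
    have h3 : (10 * t + 4) * (100 * (n + t ^ 2)) ≤ 10 * n * (100 * (n + t ^ 2)) :=
      Nat.mul_le_mul_right _ h1
    have h4 : 6 * (200 * (n + t ^ 2)) ≤ 600 * (n * (n + t ^ 2)) := by
      have : 2 * (n + t ^ 2) ≤ n * (n + t ^ 2) := Nat.mul_le_mul_right _ hn2
      linarith
    have h5 : (6 * n) ^ 2 ≤ 36 * (n * (n + t ^ 2)) := by
      have : n * n ≤ n * (n + t ^ 2) := Nat.mul_le_mul_left _ (by omega)
      calc (6 * n) ^ 2 = 36 * (n * n) := by ring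
        _ ≤ _ := by linarith
    have h6 : 10 * n * (200 * (n + t ^ 2)) = 2000 * (n * (n + t ^ 2)) := by ring
    have h7 : 10 * n * (100 * (n + t ^ 2)) = 1000 * (n * (n + t ^ 2)) := by ring
    have h8 : n * (200 * (n + t ^ 2)) = 200 * (n * (n + t ^ 2)) := by ring
    have h9 : 6 * n * (100 * (n + t ^ 2)) = 600 * (n * (n + t ^ 2)) := by ring
    have h10 : n * (100 * (n + t ^ 2)) = 100 * (n * (n + t ^ 2)) := by ring
    rw [h6] at h2
    rw [h7] at h3
    rw [h8, h9, h10]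
    have hX : 0 ≤ n * (n + t ^ 2) := Nat.zero_le _
    generalize n * (n + t ^ 2) = X at *
    linarith
  have htot : T6 G ≤ 2 * M + 14000 * (n * (n + t ^ 2)) := hdec.trans (Nat.add_le_add_left herr _)
  have htot' : (T6 G : ℝ) ≤ 2 * (M : ℝ) + 14000 * ((n : ℝ) * ((n : ℝ) + (t : ℝ) ^ 2)) := by
    exact_mod_cast htot
  have htR : (t : ℝ) ≤ (1 / 5000) * n := by
    have h1 : ((YY G a b).card : ℝ) + (t : ℝ) + 2 = n := by exact_mod_cast hcard
    have h2 : ((nb G a ∩ nb G b).card : ℝ) = ((YY G a b).card : ℝ) := rfl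
    rw [h2] at hbig
    linarith
  have ht0 : (0 : ℝ) ≤ t := Nat.cast_nonneg _
  have hn0 : (0 : ℝ) ≤ n := Nat.cast_nonneg _
  have h1 : (n : ℝ) * (t : ℝ) ^ 2 ≤ (1 / 5000) * ((n : ℝ) ^ 2 * t) := by
    have : (n : ℝ) * t * t ≤ (n : ℝ) * t * ((1 / 5000) * n) :=
      mul_le_mul_of_nonneg_left htR (by positivity)
    nlinarith
  have h2 : (0 : ℝ) ≤ (n : ℝ) ^ 2 * t := by positivity
  nlinarith

end

end Pool.Agent.Lib.MP_009d13_co.P5
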