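import Pool.Agent.Lib.MP_009d13_co.P5.Defs2

/-!
# Paths with five edges in planar graphs: the limit inequality
-/

set_option autoImplicit false

namespace Pool.Agent.Lib.MP_009d13_co.P5

open Finset Classical

noncomputable section

theorem pairSwap {V : Type} (H : Finset V) (f : V → V → ℝ) :
    ∑ a ∈ H, ∑ b ∈ H.erase a, f a b = ∑ a ∈ H, ∑ b ∈ H.erase a, f b a := by
  rw [Finset.sum_comm' (s' := fun b => H.erase b) (t' := H)]
  intro x y
  simp only [mem_erase]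
  constructor
  · rintro ⟨h1, h2, h3⟩
    exact ⟨⟨fun h => h2 h.symm, h1⟩, h3⟩
  · rintro ⟨⟨h1, h2⟩, h3⟩
    exact ⟨h2, fun h => h1 h.symm, h3⟩

theorem polyFin (y q κ N ρ : ℝ) (hy1 : 1 ≤ y) (hy2 : y ≤ 2) (hq : q = 3 - N - 2 * ρ)
    (hq0 : 0 ≤ q) (hq3 : q ≤ 3) (hκ : 0 ≤ κ) (hκ1 : κ ≤ 1) (hN0 : 0 ≤ N) (hρ : 0 ≤ ρ)
    (hτ : N + ρ ≤ 1 + κ / 2) :
    y / 2 * (q + 2 * κ) * (2 + κ - 2 * (N + ρ)) + 3 / 2 * (N + ρ) * y ^ 2
      ≤ 3 * y + 12 * κ := by
  have f2 : y / 2 * (q + 2 * κ) * (2 + κ - 2 * (N + ρ)) ≤ y * q * (1 - (N + ρ)) + 9 * κ := by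
    have g1 : y * q * κ ≤ 2 * 3 * κ :=
      mul_le_mul_of_nonneg_right (mul_le_mul hy2 hq3 hq0 (by norm_num)) hκ
    have g2 : y * κ * (1 - (N + ρ)) ≤ 2 * κ * 1 := by
      have : y * κ ≤ 2 * κ := mul_le_mul_of_nonneg_right hy2 hκ
      have h0 : 0 ≤ y * κ := mul_nonneg (by linarith) hκ
      have h1 : 0 ≤ y * κ * (N + ρ) := mul_nonneg h0 (by linarith)
      linarith
    have g3 : y * κ ^ 2 ≤ 2 * κ := by
      have h1 : κ ^ 2 ≤ κ := by nlinarith
      have h0 : 0 ≤ κ ^ 2 := sq_nonneg κ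
      have := mul_le_mul hy2 h1 h0 (by norm_num)
      linarith
    have e : y / 2 * (q + 2 * κ) * (2 + κ - 2 * (N + ρ))
        = y * q * (1 - (N + ρ)) + (y * q * κ) / 2 + 2 * (y * κ * (1 - (N + ρ)))
          + y * κ ^ 2 := by ring
    rw [e]; linarith
  have f3 : y * q * (1 - (N + ρ)) + 3 / 2 * (N + ρ) * y ^ 2 ≤ 3 * y + 3 * κ := by
    have hτ0 : 0 ≤ N + ρ := by linarith
    have hyy : (N + ρ) * y ^ 2 ≤ (N + ρ) * (2 * y) := by
      refine mul_le_mul_of_nonneg_left ?_ hτ0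
      nlinarith
    rcases le_total (N + ρ) 1 with hc | hc
    · have hq' : q ≤ 3 - (N + ρ) := by rw [hq]; linarith
      have b1 : y * q * (1 - (N + ρ)) ≤ y * (3 - (N + ρ)) * (1 - (N + ρ)) := by
        refine mul_le_mul_of_nonneg_right ?_ (by linarith)
        exact mul_le_mul_of_nonneg_left hq' (by linarith)
      have b2 : y * ((N + ρ) * (1 - (N + ρ))) ≥ 0 :=
        mul_nonneg (by linarith) (mul_nonneg hτ0 (by linarith))
      have e : y * (3 - (N + ρ)) * (1 - (N + ρ))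
          = 3 * y - 3 * ((N + ρ) * y) - y * ((N + ρ) * (1 - (N + ρ))) := by ring
      linarith
    · have b1 : y * q * (1 - (N + ρ)) ≤ 0 :=
        mul_nonpos_of_nonneg_of_nonpos (mul_nonneg (by linarith) hq0) (by linarith)
      have b2 : (N + ρ) * y ≤ (1 + κ / 2) * y := mul_le_mul_of_nonneg_right hτ (by linarith)
      have b3 : κ * y ≤ κ * 2 := mul_le_mul_of_nonneg_left hy2 hκ
      linarith
  linarith

theorem poly {V : Type} (H : Finset V) (μ : V → V → ℝ) (d ν : V → ℝ) (ρ κ x F0 : ℝ) (g : V → ℝ)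
    (hμ : ∀ a b, 0 ≤ μ a b) (hsym : ∀ a b, μ a b = μ b a) (hd : ∀ a, 0 ≤ d a)
    (hd1 : ∀ a, d a ≤ 1) (hν : ∀ a, 0 ≤ ν a) (hρ : 0 ≤ ρ) (hκ : 0 ≤ κ) (hκ1 : κ ≤ 1)
    (hx : 0 ≤ x) (hx1 : x ≤ 1)
    (h1 : ∀ a ∈ H, ∑ b ∈ H.erase a, μ a b + ν a ≤ d a + κ)
    (h2 : ∀ a ∈ H, ∀ b ∈ H, a ≠ b → d a + d b + ρ ≤ 1 + μ a b)
    (h3 : ∑ a ∈ H, d a + ∑ a ∈ H, ν a + 2 * ρ ≤ 2 + κ)
    (h4 : (∑ a ∈ H, ∑ b ∈ H.erase a, μ a b) + 2 * (∑ a ∈ H, ν a) + 2 * ρ ≤ 2 + κ)
    (h5 : ∀ a ∈ H, ∀ b ∈ H, a ≠ b → μ a b ≤ x)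
    (T : V → ℝ) (hT : ∀ a, T a = ∑ b ∈ H.erase a, μ a b * d b)
    (hg0 : ∀ a, 0 ≤ g a)
    (hg : ∀ a ∈ H, ∀ y : ℝ, 0 ≤ y → (∀ b ∈ H.erase a, T a + T b + d a * d b ≤ y) → g a ≤ y)
    (hF0 : ∀ y : ℝ, 0 ≤ y → (∀ a ∈ H, ∀ b ∈ H.erase a, T a + T b ≤ y) → F0 ≤ y) :
    (∑ a ∈ H, ∑ b ∈ H.erase a, μ a b * (T a + T b + d a * d b))
      + 2 * (∑ a ∈ H, ν a * (T a + g a)) + 3 * (ρ * F0)
      + (∑ b ∈ H, ∑ c ∈ H.erase b, ∑ a ∈ (H.erase b).erase c, μ a b * μ b c * d c)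
      + (∑ b ∈ H, ∑ c ∈ H.erase b, ∑ a ∈ (H.erase b).erase c, d a * μ b c * d c)
      ≤ 3 * (1 + x) + 100 * κ := by
  -- abbreviations
  set y : ℝ := 1 + x with hy
  set N : ℝ := ∑ a ∈ H, ν a with hN
  set D : ℝ := ∑ a ∈ H, d a with hD
  set R : V → ℝ := fun a => ∑ b ∈ H.erase a, μ a b with hR
  set M : ℝ := ∑ a ∈ H, R a with hM
  have hN0 : 0 ≤ N := Finset.sum_nonneg fun a _ => hν a
  have hD0 : 0 ≤ D := Finset.sum_nonneg fun a _ => hd a
  have hR0 : ∀ a, 0 ≤ R a := fun a => Finset.sum_nonneg fun b _ => hμ a b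
  have hM0 : 0 ≤ M := Finset.sum_nonneg fun a _ => hR0 a
  have hT0 : ∀ a, 0 ≤ T a := fun a => by
    rw [hT]; exact Finset.sum_nonneg fun b _ => mul_nonneg (hμ a b) (hd b)
  have hTR : ∀ a, T a ≤ R a := fun a => by
    rw [hT]; exact Finset.sum_le_sum fun b _ => by
      have := mul_le_mul_of_nonneg_left (hd1 b) (hμ a b); linarith
  have hM4 : M + 2 * N + 2 * ρ ≤ 2 + κ := h4
  have h3' : D + N + 2 * ρ ≤ 2 + κ := h3
  have hy1 : 1 ≤ y := by rw [hy]; linarith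
  have hy2 : y ≤ 2 := by rw [hy]; linarith
  -- `W`
  set W : ℝ := ∑ a ∈ H, d a * T a with hW
  have hWpair : (∑ a ∈ H, ∑ b ∈ H.erase a, μ a b * (d a * d b)) = W := by
    rw [hW]; refine Finset.sum_congr rfl fun a _ => ?_
    rw [hT, Finset.mul_sum]
    exact Finset.sum_congr rfl fun b _ => by ring
  -- term one
  have hterm1 : (∑ a ∈ H, ∑ b ∈ H.erase a, μ a b * (T a + T b + d a * d b))
      = 2 * ∑ a ∈ H, T a * R a + W := by
    have e1 : (∑ a ∈ H, ∑ b ∈ H.erase a, μ a b * T a) = ∑ a ∈ H, T a * R a := by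
      refine Finset.sum_congr rfl fun a _ => ?_
      rw [hR, Finset.mul_sum]
      exact Finset.sum_congr rfl fun b _ => by ring
    have e2 : (∑ a ∈ H, ∑ b ∈ H.erase a, μ a b * T b) = ∑ a ∈ H, T a * R a := by
      rw [pairSwap, ← e1]
      exact Finset.sum_congr rfl fun a _ => Finset.sum_congr rfl fun b _ => by rw [hsym b a]
    have : (∑ a ∈ H, ∑ b ∈ H.erase a, μ a b * (T a + T b + d a * d b))
        = (∑ a ∈ H, ∑ b ∈ H.erase a, μ a b * T a) + (∑ a ∈ H, ∑ b ∈ H.erase a, μ a b * T b)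
          + ∑ a ∈ H, ∑ b ∈ H.erase a, μ a b * (d a * d b) := by
      rw [← Finset.sum_add_distrib, ← Finset.sum_add_distrib]
      refine Finset.sum_congr rfl fun a _ => ?_
      rw [← Finset.sum_add_distrib, ← Finset.sum_add_distrib]
      exact Finset.sum_congr rfl fun b _ => by ring
    rw [this, e1, e2, hWpair]; ring
  have hsumT : ∑ a ∈ H, T a ≤ 3 := by
    have : ∑ a ∈ H, T a ≤ M := Finset.sum_le_sum fun a _ => hTR a
    linarith
  have hstepB : 2 * ∑ a ∈ H, T a * R a + W + 2 * ∑ a ∈ H, ν a * T a ≤ 3 * W + 6 * κ := by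
    have : ∑ a ∈ H, T a * R a + ∑ a ∈ H, ν a * T a ≤ W + κ * ∑ a ∈ H, T a := by
      rw [hW, Finset.mul_sum, ← Finset.sum_add_distrib, ← Finset.sum_add_distrib]
      refine Finset.sum_le_sum fun a ha => ?_
      have := mul_le_mul_of_nonneg_left (h1 a ha) (hT0 a)
      have e : T a * (∑ b ∈ H.erase a, μ a b + ν a) = T a * R a + ν a * T a := by
        rw [hR]; ring
      rw [e] at this
      linarith
    have h' : κ * ∑ a ∈ H, T a ≤ κ * 3 := mul_le_mul_of_nonneg_left hsumT hκ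
    linarith
  -- `A` and `C`
  have hA : (∑ b ∈ H, ∑ c ∈ H.erase b, ∑ a ∈ (H.erase b).erase c, μ a b * μ b c * d c)
      ≤ ∑ b ∈ H, ∑ c ∈ H.erase b, μ b c * d c * (d b + κ - μ b c) := by
    refine Finset.sum_le_sum fun b hb => Finset.sum_le_sum fun c hc => ?_
    have e : ∑ a ∈ (H.erase b).erase c, μ a b * μ b c * d c
        = μ b c * d c * (R b - μ b c) := by
      have e1 : ∑ a ∈ (H.erase b).erase c, μ a b * μ b c * d c
          = μ b c * d c * ∑ a ∈ (H.erase b).erase c, μ b a := by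
        rw [Finset.mul_sum]
        exact Finset.sum_congr rfl fun a _ => by rw [hsym a b]; ring
      rw [e1, Finset.sum_erase_eq_sub hc]
    rw [e]
    refine mul_le_mul_of_nonneg_left ?_ (mul_nonneg (hμ b c) (hd c))
    have := h1 b hb
    have h' := hν b
    have : R b + ν b ≤ d b + κ := this
    linarith
  have hC : (∑ b ∈ H, ∑ c ∈ H.erase b, ∑ a ∈ (H.erase b).erase c, d a * μ b c * d c)
      ≤ ∑ b ∈ H, ∑ c ∈ H.erase b, μ b c * d c * (2 + κ - N - 2 * ρ - d b - d c) := by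
    refine Finset.sum_le_sum fun b hb => Finset.sum_le_sum fun c hc => ?_
    have e : ∑ a ∈ (H.erase b).erase c, d a * μ b c * d c
        = μ b c * d c * (D - d b - d c) := by
      have e1 : ∑ a ∈ (H.erase b).erase c, d a * μ b c * d c
          = μ b c * d c * ∑ a ∈ (H.erase b).erase c, d a := by
        rw [Finset.mul_sum]
        exact Finset.sum_congr rfl fun a _ => by ring
      rw [e1, Finset.sum_erase_eq_sub hc, Finset.sum_erase_eq_sub hb]
    rw [e]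
    refine mul_le_mul_of_nonneg_left ?_ (mul_nonneg (hμ b c) (hd c))
    linarith
  set q : ℝ := 3 - N - 2 * ρ with hq
  have hq0 : 0 ≤ q := by rw [hq]; linarith
  have hq3 : q ≤ 3 := by rw [hq]; linarith
  set φ : V → V → ℝ := fun b c =>
    μ b c * d c * (3 * d b + 2 * κ + 2 - N - 2 * ρ - μ b c - d c) with hφ
  have hsum : 3 * W
      + (∑ b ∈ H, ∑ c ∈ H.erase b, μ b c * d c * (d b + κ - μ b c))
      + (∑ b ∈ H, ∑ c ∈ H.erase b, μ b c * d c * (2 + κ - N - 2 * ρ - d b - d c))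
      = ∑ b ∈ H, ∑ c ∈ H.erase b, φ b c := by
    rw [← hWpair, Finset.mul_sum, ← Finset.sum_add_distrib, ← Finset.sum_add_distrib]
    refine Finset.sum_congr rfl fun b _ => ?_
    rw [Finset.mul_sum, ← Finset.sum_add_distrib, ← Finset.sum_add_distrib]
    refine Finset.sum_congr rfl fun c _ => ?_
    simp only [hφ]; ring
  have hφle : (∑ b ∈ H, ∑ c ∈ H.erase b, φ b c) ≤ y / 2 * (q + 2 * κ) * M := by
    have e1 : (∑ b ∈ H, ∑ c ∈ H.erase b, φ b c)
        = ∑ b ∈ H, ∑ c ∈ H.erase b, (φ b c + φ c b) / 2 := by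
      have e2 := pairSwap H φ
      have e3 : ∑ b ∈ H, ∑ c ∈ H.erase b, (φ b c + φ c b) / 2
          = ((∑ b ∈ H, ∑ c ∈ H.erase b, φ b c) + ∑ b ∈ H, ∑ c ∈ H.erase b, φ c b) / 2 := by
        rw [← Finset.sum_add_distrib, Finset.sum_div]
        refine Finset.sum_congr rfl fun b _ => ?_
        rw [← Finset.sum_add_distrib, Finset.sum_div]
      rw [e3, ← e2]; ring
    rw [e1, hM, Finset.mul_sum]
    refine Finset.sum_le_sum fun b hb => ?_
    rw [hR, Finset.mul_sum]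
    refine Finset.sum_le_sum fun c hc => ?_
    have hcH : c ∈ H := Finset.mem_of_mem_erase hc
    have hbc : b ≠ c := fun h => (Finset.ne_of_mem_erase hc) h.symm
    have k2 := h2 b hb c hcH hbc
    have k5 := h5 b hb c hcH hbc
    have m0 := hμ b c
    have db := hd b
    have dc := hd c
    simp only [hφ, hsym c b]
    have hs0 : 0 ≤ d b + d c := by linarith
    have hsy : d b + d c ≤ y := by rw [hy]; linarith
    have key : (d c * (3 * d b + 2 * κ + 2 - N - 2 * ρ - μ b c - d c)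
        + d b * (3 * d c + 2 * κ + 2 - N - 2 * ρ - μ b c - d b)) ≤ y * (q + 2 * κ) := by
      have a1 : (d c * (3 * d b + 2 * κ + 2 - N - 2 * ρ - μ b c - d c)
        + d b * (3 * d c + 2 * κ + 2 - N - 2 * ρ - μ b c - d b))
          = (d b + d c) * ((d b + d c) + 2 * κ + 2 - N - 2 * ρ - μ b c)
            - 2 * (d b - d c) ^ 2 := by ring
      have a2 : (d b + d c) * ((d b + d c) + 2 * κ + 2 - N - 2 * ρ - μ b c)
          ≤ (d b + d c) * (q + 2 * κ) := by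
        refine mul_le_mul_of_nonneg_left ?_ hs0
        rw [hq]; linarith
      have a3 : (d b + d c) * (q + 2 * κ) ≤ y * (q + 2 * κ) :=
        mul_le_mul_of_nonneg_right hsy (by linarith)
      have a4 := sq_nonneg (d b - d c)
      rw [a1]; linarith
    have k := mul_le_mul_of_nonneg_left key m0
    have e1 : (μ b c * d c * (3 * d b + 2 * κ + 2 - N - 2 * ρ - μ b c - d c)
        + μ b c * d b * (3 * d c + 2 * κ + 2 - N - 2 * ρ - μ b c - d b)) / 2
        = (μ b c * (d c * (3 * d b + 2 * κ + 2 - N - 2 * ρ - μ b c - d c)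
        + d b * (3 * d c + 2 * κ + 2 - N - 2 * ρ - μ b c - d b))) / 2 := by ring
    have e2 : y / 2 * (q + 2 * κ) * μ b c = (μ b c * (y * (q + 2 * κ))) / 2 := by ring
    rw [e1, e2]; linarith
  -- bound for `T`
  have hTb : ∀ a ∈ H, T a ≤ y ^ 2 / 4 + 2 * κ := by
    intro a ha
    have hya : 0 ≤ y - d a := by have := hd1 a; linarith
    have t1 : T a ≤ (y - d a) * R a := by
      rw [hT, hR, Finset.mul_sum]
      refine Finset.sum_le_sum fun b hb => ?_
      have hbH : b ∈ H := Finset.mem_of_mem_erase hb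
      have hab : a ≠ b := fun h => (Finset.ne_of_mem_erase hb) h.symm
      have k2 := h2 a ha b hbH hab
      have k5 := h5 a ha b hbH hab
      have : d b ≤ y - d a := by rw [hy]; linarith
      have := mul_le_mul_of_nonneg_left this (hμ a b)
      linarith
    have t2 : R a ≤ d a + κ := by
      have := h1 a ha
      have : R a + ν a ≤ d a + κ := this
      have := hν a
      linarith
    have t3 : (y - d a) * R a ≤ (y - d a) * (d a + κ) := mul_le_mul_of_nonneg_left t2 hya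
    have t4 : (y - d a) * κ ≤ 2 * κ :=
      mul_le_mul_of_nonneg_right (by have := hd a; linarith) hκ
    have t5 : (y - d a) * (d a + κ) = y ^ 2 / 4 - (y / 2 - d a) ^ 2 + (y - d a) * κ := by ring
    have t6 := sq_nonneg (y / 2 - d a)
    linarith
  have hdd : ∀ a ∈ H, ∀ b ∈ H.erase a, d a * d b ≤ y ^ 2 / 4 := by
    intro a ha b hb
    have hbH : b ∈ H := Finset.mem_of_mem_erase hb
    have hab : a ≠ b := fun h => (Finset.ne_of_mem_erase hb) h.symm
    have k2 := h2 a ha b hbH hab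
    have k5 := h5 a ha b hbH hab
    have hs0 : 0 ≤ d a + d b := by have := hd a; have := hd b; linarith
    have hsy : d a + d b ≤ y := by rw [hy]; linarith
    have t1 := mul_le_mul hsy hsy hs0 (by linarith : (0:ℝ) ≤ y)
    have t2 := sq_nonneg (d a - d b)
    have t3 : d a * d b = ((d a + d b) * (d a + d b) - (d a - d b) ^ 2) / 4 := by ring
    have t4 : y * y = y ^ 2 := by ring
    rw [t3]; linarith
  have hgb : ∀ a ∈ H, g a ≤ 3 * y ^ 2 / 4 + 4 * κ := by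
    intro a ha
    refine hg a ha _ (by positivity) fun b hb => ?_
    have := hTb a ha
    have := hTb b (Finset.mem_of_mem_erase hb)
    have := hdd a ha b hb
    linarith
  have hFb : F0 ≤ y ^ 2 / 2 + 4 * κ := by
    refine hF0 _ (by positivity) fun a ha b hb => ?_
    have := hTb a ha
    have := hTb b (Finset.mem_of_mem_erase hb)
    linarith
  have hνg : ∑ a ∈ H, ν a * g a ≤ N * (3 * y ^ 2 / 4 + 4 * κ) := by
    rw [hN, Finset.sum_mul]
    exact Finset.sum_le_sum fun a ha => mul_le_mul_of_nonneg_left (hgb a ha) (hν a)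
  have hρF : ρ * F0 ≤ ρ * (y ^ 2 / 2 + 4 * κ) := mul_le_mul_of_nonneg_left hFb hρ
  have hsplit : ∑ a ∈ H, ν a * (T a + g a) = ∑ a ∈ H, ν a * T a + ∑ a ∈ H, ν a * g a := by
    rw [← Finset.sum_add_distrib]
    exact Finset.sum_congr rfl fun a _ => by ring
  -- final computation
  have hMle : M ≤ 2 + κ - 2 * (N + ρ) := by linarith
  have f1 : y / 2 * (q + 2 * κ) * M ≤ y / 2 * (q + 2 * κ) * (2 + κ - 2 * (N + ρ)) :=
    mul_le_mul_of_nonneg_left hMle (by positivity)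
  have f2 := polyFin y q κ N ρ hy1 hy2 hq hq0 hq3 hκ hκ1 hN0 hρ (by linarith)
  have f4 : N * κ + ρ * κ ≤ 3 / 2 * κ := by
    have : N + ρ ≤ 3 / 2 := by linarith
    nlinarith
  have f5 : 2 * (N * (3 * y ^ 2 / 4 + 4 * κ)) + 3 * (ρ * (y ^ 2 / 2 + 4 * κ))
      = 3 / 2 * (N + ρ) * y ^ 2 + 8 * (N * κ) + 12 * (ρ * κ) := by ring
  have f6 : 0 ≤ N * κ := by positivity
  rw [hterm1, hsplit]
  have f7 : 0 ≤ ρ * κ := by positivity
  linarith [hA, hC, hsum, hφle, hstepB, hνg, hρF, f1, f2, f4, f5, f6, f7]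

end

end Pool.Agent.Lib.MP_009d13_co.P5
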