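import Pool.Agent.Lib.MP_009d13_co.P5.LAYER

/-!
# Paths whose second and third vertices are small
-/

set_option autoImplicit false

namespace Pool.Agent.Lib.MP_009d13_co.P5

open Finset Classical

private theorem sum_deg {V : Type} [Fintype V] (G : SimpleGraph V) :
    ∑ v, (nb G v).card = (pr G univ univ).card := by
  rw [← Finset.card_sigma]
  refine Finset.card_bij (fun x _ => (x.1, x.2)) ?_ ?_ ?_
  · intro x hx
    simpa [pr, nb] using hx
  · intro x _ y _ hxy
    rcases x with ⟨a, b⟩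
    rcases y with ⟨c, e⟩
    simp only [Prod.mk.injEq] at hxy
    simp [hxy.1, hxy.2]
  · intro p hp
    refine ⟨⟨p.1, p.2⟩, ?_, rfl⟩
    simpa [pr, nb] using hp

private theorem s12_le_sum {V : Type} [Fintype V] (G : SimpleGraph V) (H : Finset V) :
    s12 G H ≤ ∑ p ∈ pr G Hᶜ Hᶜ, (nb G p.1).card * (nb G p.2).card * (pr G univ univ).card := by
  have key : s12 G H ≤ ((pr G Hᶜ Hᶜ).sigma
      (fun p => ((nb G p.1) ×ˢ (nb G p.2)) ×ˢ (pr G univ univ))).card := by
    unfold s12
    refine Finset.card_le_card_of_injOn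
      (fun v : Six V => (⟨(v.2.1, v.2.2.1), ((v.1, v.2.2.2.1), (v.2.2.2.2.1, v.2.2.2.2.2))⟩ :
        (Σ _ : V × V, (V × V) × (V × V)))) ?_ ?_
    · intro v hv
      rcases v with ⟨v0, v1, v2, v3, v4, v5⟩
      simp only [Finset.coe_filter, Set.mem_ofPred_eq, Finset.mem_univ, true_and, IsPath6] at hv
      obtain ⟨⟨h01, h12, h23, h34, h45, -⟩, h1, h2⟩ := hv
      simp only [Finset.coe_sigma, Set.mem_sigma_iff, Finset.mem_coe, Finset.mem_product, pr, nb,
        Finset.mem_filter, Finset.mem_univ, true_and, Finset.mem_compl]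
      exact ⟨⟨h1, h2, h12⟩, ⟨h01.symm, h23⟩, h45⟩
    · intro v _ w _ hvw
      rcases v with ⟨v0, v1, v2, v3, v4, v5⟩
      rcases w with ⟨w0, w1, w2, w3, w4, w5⟩
      simp only [Sigma.mk.injEq, Prod.mk.injEq, heq_eq_eq] at hvw
      obtain ⟨⟨h1, h2⟩, ⟨h0, h3⟩, h4, h5⟩ := hvw
      simp [h0, h1, h2, h3, h4, h5]
  refine key.trans_eq ?_
  rw [Finset.card_sigma]
  refine Finset.sum_congr rfl fun p _ => ?_
  rw [Finset.card_product, Finset.card_product]

theorem s12_le {V : Type} [Fintype V] (G : SimpleGraph V) (hS : Sparse6 G) (H : Finset V) (d : ℕ)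
    (hd : ∀ v ∉ H, (nb G v).card ≤ d) : s12 G H ≤ 216 * d * Fintype.card V ^ 2 := by
  have hall : (pr G univ univ).card ≤ 6 * Fintype.card V := by
    have := hS univ
    rwa [Finset.card_univ] at this
  have hlay := layer (pr G Hᶜ Hᶜ) Hᶜ (fun _ => 3) (fun v => (nb G v).card) 0 d
    (fun z hz => hd z (by simpa using hz)) (fun p hp => by
      simp only [pr, Finset.mem_filter] at hp
      exact ⟨hp.2.1, hp.2.2.1⟩) (fun Z hZ => by
      refine (Finset.card_le_card ?_).trans ((hS Z).trans_eq ?_)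
      · intro p hp
        simp only [pr, Finset.mem_filter, Finset.mem_univ, true_and] at hp ⊢
        exact ⟨hp.2.1, hp.2.2, hp.1.2.2⟩
      · simp only [Finset.sum_const, smul_eq_mul, add_zero]; ring)
  have h1 : ∑ p ∈ pr G Hᶜ Hᶜ, (nb G p.1).card * (nb G p.2).card * (pr G univ univ).card
      ≤ ∑ p ∈ pr G Hᶜ Hᶜ, (d * min (nb G p.1).card (nb G p.2).card) * (6 * Fintype.card V) := by
    refine Finset.sum_le_sum fun p hp => Nat.mul_le_mul ?_ hall
    simp only [pr, Finset.mem_filter, Finset.mem_univ, true_and, Finset.mem_compl] at hp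
    have a1 := hd _ hp.1
    have a2 := hd _ hp.2.1
    rcases le_total (nb G p.1).card (nb G p.2).card with h | h
    · rw [min_eq_left h, mul_comm d]
      exact Nat.mul_le_mul le_rfl a2
    · rw [min_eq_right h]
      exact Nat.mul_le_mul a1 le_rfl
  have h2 : ∑ p ∈ pr G Hᶜ Hᶜ, (d * min (nb G p.1).card (nb G p.2).card) * (6 * Fintype.card V)
      = (d * (6 * Fintype.card V)) * ∑ p ∈ pr G Hᶜ Hᶜ, min (nb G p.1).card (nb G p.2).card := by
    rw [Finset.mul_sum]
    exact Finset.sum_congr rfl fun p _ => by ring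
  have h3 : ∑ z ∈ Hᶜ, 3 * (nb G z).card ≤ 18 * Fintype.card V := by
    rw [← Finset.mul_sum]
    have : ∑ z ∈ Hᶜ, (nb G z).card ≤ ∑ z, (nb G z).card :=
      Finset.sum_le_sum_of_subset (Finset.subset_univ _)
    rw [sum_deg] at this
    omega
  calc s12 G H ≤ _ := s12_le_sum G H
    _ ≤ _ := h1
    _ = _ := h2
    _ ≤ (d * (6 * Fintype.card V)) * (2 * (18 * Fintype.card V)) := by
        refine Nat.mul_le_mul le_rfl (hlay.trans ?_)
        rw [zero_mul, add_zero]
        exact Nat.mul_le_mul le_rfl h3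
    _ = 216 * d * Fintype.card V ^ 2 := by ring

end Pool.Agent.Lib.MP_009d13_co.P5
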