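import Pool.Agent.Lib.MP_009d13_co.P5.HUBS
import Pool.Agent.Lib.MP_009d13_co.P5.DEC
import Pool.Agent.Lib.MP_009d13_co.P5.SMALL
import Pool.Agent.Lib.MP_009d13_co.P5.BED
import Pool.Agent.Lib.MP_009d13_co.P5.CONL
import Pool.Agent.Lib.MP_009d13_co.P5.POLY

/-!
# Module NEXT: the case in which no two vertices have almost all the others as common neighbours
-/

set_option autoImplicit false

namespace Pool.Agent.Lib.MP_009d13_co.P5

open Finset Classical

noncomputable section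

theorem T6_le_pow {V : Type} [Fintype V] (G : SimpleGraph V) : T6 G ≤ Fintype.card V ^ 6 := by
  unfold T6
  refine (Finset.card_le_univ _).trans ?_
  apply le_of_eq
  simp only [Six, Fintype.card_prod]
  ring

/-- the scaled form of the bound of the main terms -/
theorem scaled {V : Type} [Fintype V] (G : SimpleGraph V) (hK : NoK33m G) (H : Finset V)
    (κ x : ℝ) (hn : 0 < Fintype.card V) (hκ1 : κ ≤ 1)
    (hκ : 2 * ((H.card : ℝ) + 1) ^ 5 ≤ κ * Fintype.card V) (hx : 0 ≤ x) (hx1 : x ≤ 1)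
    (h5 : ∀ a ∈ H, ∀ b ∈ H, a ≠ b → (mm G H a b : ℝ) ≤ x * Fintype.card V) :
    (∑ a ∈ H, ∑ b ∈ H.erase a, (n2 G H a b * ph G H a b : ℕ) : ℝ)
      + 2 * (∑ a ∈ H, (n1 G H a * (tt G H a + gg G H a) : ℕ) : ℝ) + 3 * ((n0 G H * f0 G H : ℕ) : ℝ)
      + (aa G H : ℝ) + (cc G H : ℝ)
      ≤ (3 * (1 + x) + 100 * κ) * (Fintype.card V : ℝ) ^ 3 := by
  set n : ℝ := (Fintype.card V : ℝ) with hn'
  have hn0 : 0 < n := by rw [hn']; exact_mod_cast hn
  have hh1 : (1 : ℝ) ≤ (H.card : ℝ) + 1 := by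
    have : (0 : ℝ) ≤ (H.card : ℝ) := Nat.cast_nonneg _
    linarith
  have hh0 : (0 : ℝ) ≤ (H.card : ℝ) := Nat.cast_nonneg _
  have hh4 : (H.card : ℝ) ^ 4 ≤ ((H.card : ℝ) + 1) ^ 5 :=
    (pow_le_pow_left₀ hh0 (by linarith) 4).trans (pow_le_pow_right₀ hh1 (by norm_num))
  have hh5 : (H.card : ℝ) ^ 5 ≤ ((H.card : ℝ) + 1) ^ 5 := pow_le_pow_left₀ hh0 (by linarith) 5
  have hκ0 : 0 ≤ κ := by
    by_contra hneg
    push Not at hneg
    have h1 : κ * n < 0 := mul_neg_of_neg_of_pos hneg hn0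
    have h2 : (0 : ℝ) ≤ 2 * ((H.card : ℝ) + 1) ^ 5 := by positivity
    linarith
  have key := poly H (fun a b => (mm G H a b : ℝ) / n) (fun a => (dd G H a : ℝ) / n)
    (fun a => (n1 G H a : ℝ) / n) ((n0 G H : ℝ) / n) κ x ((f0 G H : ℝ) / n ^ 2)
    (fun a => (gg G H a : ℝ) / n ^ 2) (fun a b => by positivity)
    (fun a b => by
      simp only [mm]
      rw [Finset.inter_comm])
    (fun a => by positivity)
    (fun a => by
      rw [div_le_one hn0, hn']
      exact_mod_cast Finset.card_le_univ _)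
    (fun a => by positivity) (by positivity) hκ0 hκ1 hx hx1
    (by
      intro a ha
      have h := con1 G hK H ha
      have h' : (∑ b ∈ H.erase a, (mm G H a b : ℝ)) + (n1 G H a : ℝ)
          ≤ (dd G H a : ℝ) + 2 * (H.card : ℝ) ^ 4 := by exact_mod_cast h
      rw [← Finset.sum_div, ← add_div, div_le_iff₀ hn0, add_mul, div_mul_cancel₀ _ hn0.ne']
      nlinarith)
    (by
      intro a ha b hb _
      have h := con2 G H ha hb
      have h' : (dd G H a : ℝ) + (dd G H b : ℝ) + (n0 G H : ℝ) ≤ n + (mm G H a b : ℝ) := by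
        rw [hn']; exact_mod_cast h
      rw [← add_div, ← add_div, div_le_iff₀ hn0, add_mul, div_mul_cancel₀ _ hn0.ne']
      linarith)
    (by
      have h := con3 G hK H
      have h' : (∑ a ∈ H, (dd G H a : ℝ)) + (∑ a ∈ H, (n1 G H a : ℝ)) + 2 * (n0 G H : ℝ)
          ≤ 2 * n + 2 * (H.card : ℝ) ^ 4 := by rw [hn']; exact_mod_cast h
      rw [← Finset.sum_div, ← Finset.sum_div, ← mul_div_assoc, ← add_div, ← add_div,
        div_le_iff₀ hn0]
      nlinarith)
    (by
      have h := con4 G hK H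
      have h' : (∑ a ∈ H, ∑ b ∈ H.erase a, (mm G H a b : ℝ)) + 2 * (∑ a ∈ H, (n1 G H a : ℝ))
          + 2 * (n0 G H : ℝ) ≤ 2 * n + 2 * (H.card : ℝ) ^ 5 := by rw [hn']; exact_mod_cast h
      simp only [← Finset.sum_div]
      rw [← mul_div_assoc, ← mul_div_assoc, ← add_div, ← add_div, div_le_iff₀ hn0]
      nlinarith)
    (by
      intro a ha b hb hab
      rw [div_le_iff₀ hn0]
      exact h5 a ha b hb hab)
    (fun a => (tt G H a : ℝ) / n ^ 2)
    (by
      intro a
      unfold tt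
      push_cast
      rw [Finset.sum_div]
      apply Finset.sum_congr rfl
      intro b _
      field_simp)
    (fun a => by positivity)
    (by
      intro a _ y hy hb
      rw [div_le_iff₀ (by positivity)]
      have h : gg G H a ≤ ⌊y * n ^ 2⌋₊ := by
        unfold gg
        apply Finset.sup_le
        intro b hb'
        apply Nat.le_floor
        have h1 := hb b hb'
        have h2 : ((ph G H a b : ℕ) : ℝ) / n ^ 2 ≤ y := by
          unfold ph
          push_cast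
          refine le_trans (le_of_eq ?_) h1
          field_simp
        rwa [div_le_iff₀ (by positivity)] at h2
      exact (Nat.cast_le.2 h).trans (Nat.floor_le (by positivity)))
    (by
      intro y hy hb
      rw [div_le_iff₀ (by positivity)]
      have h : f0 G H ≤ ⌊y * n ^ 2⌋₊ := by
        unfold f0
        apply Finset.sup_le
        intro a ha
        apply Finset.sup_le
        intro b hb'
        apply Nat.le_floor
        have h1 := hb a ha b hb'
        rw [← add_div, div_le_iff₀ (by positivity)] at h1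
        exact_mod_cast h1
      exact (Nat.cast_le.2 h).trans (Nat.floor_le (by positivity)))
  have hn3 : 0 < n ^ 3 := by positivity
  have key2 := mul_le_mul_of_nonneg_right key hn3.le
  refine le_trans ?_ key2
  rw [add_mul, add_mul, add_mul, add_mul]
  have e1 : (∑ a ∈ H, ∑ b ∈ H.erase a, (n2 G H a b * ph G H a b : ℕ) : ℝ)
      ≤ (∑ a ∈ H, ∑ b ∈ H.erase a, (mm G H a b : ℝ) / n *
        ((tt G H a : ℝ) / n ^ 2 + (tt G H b : ℝ) / n ^ 2 + (dd G H a : ℝ) / n * ((dd G H b : ℝ) / n)))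
        * n ^ 3 := by
    rw [Finset.sum_mul]
    apply Finset.sum_le_sum
    intro a _
    rw [Finset.sum_mul]
    apply Finset.sum_le_sum
    intro b _
    have h1 : ((n2 G H a b * ph G H a b : ℕ) : ℝ) ≤ (mm G H a b : ℝ) * (ph G H a b : ℝ) := by
      have := Nat.mul_le_mul_right (ph G H a b) (n2_le_mm G H a b)
      exact_mod_cast this
    refine h1.trans (le_of_eq ?_)
    unfold ph
    push_cast
    field_simp
  have e2 : 2 * (∑ a ∈ H, (n1 G H a * (tt G H a + gg G H a) : ℕ) : ℝ)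
      = 2 * (∑ a ∈ H, (n1 G H a : ℝ) / n * ((tt G H a : ℝ) / n ^ 2 + (gg G H a : ℝ) / n ^ 2))
        * n ^ 3 := by
    rw [mul_assoc, Finset.sum_mul]
    congr 1
    apply Finset.sum_congr rfl
    intro a _
    push_cast
    field_simp
  have e3 : 3 * ((n0 G H * f0 G H : ℕ) : ℝ)
      = 3 * ((n0 G H : ℝ) / n * ((f0 G H : ℝ) / n ^ 2)) * n ^ 3 := by
    push_cast
    field_simp
  have e4 : (aa G H : ℝ) = (∑ b ∈ H, ∑ c ∈ H.erase b, ∑ a ∈ (H.erase b).erase c,
      (mm G H a b : ℝ) / n * ((mm G H b c : ℝ) / n) * ((dd G H c : ℝ) / n)) * n ^ 3 := by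
    unfold aa
    push_cast
    rw [Finset.sum_mul]
    apply Finset.sum_congr rfl
    intro b _
    rw [Finset.sum_mul]
    apply Finset.sum_congr rfl
    intro c _
    rw [Finset.sum_mul]
    apply Finset.sum_congr rfl
    intro a _
    field_simp
  have e5 : (cc G H : ℝ) = (∑ b ∈ H, ∑ c ∈ H.erase b, ∑ a ∈ (H.erase b).erase c,
      (dd G H a : ℝ) / n * ((mm G H b c : ℝ) / n) * ((dd G H c : ℝ) / n)) * n ^ 3 := by
    unfold cc
    push_cast
    rw [Finset.sum_mul]
    apply Finset.sum_congr rfl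
    intro b _
    rw [Finset.sum_mul]
    apply Finset.sum_congr rfl
    intro c _
    rw [Finset.sum_mul]
    apply Finset.sum_congr rfl
    intro a _
    field_simp
  rw [e2, e3, e4, e5]
  linarith

/-! ### NEXT (uses HUBS DEC SMALL BED CON POLY) : no pair of hubs sees almost everything -/
theorem nonextremal (δ : ℝ) (hδ : 0 < δ) (hδ1 : δ ≤ 1) : ∃ K : ℝ, ∀ {V : Type} [Fintype V]
    (G : SimpleGraph V), Sparse6 G → NoK33m G →
      (∀ a b : V, a ≠ b → ((nb G a ∩ nb G b).card : ℝ) ≤ (1 - δ) * Fintype.card V) →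
      (T6 G : ℝ) ≤ 12 * (Fintype.card V : ℝ) ^ 3 + K * (Fintype.card V : ℝ) ^ 2 := by
  obtain ⟨k, hk⟩ := exists_nat_ge (108 / δ)
  have hk0 : (0 : ℝ) < k := lt_of_lt_of_le (by positivity) hk
  have hk1 : 1 ≤ k := by exact_mod_cast hk0
  obtain ⟨K, hK⟩ := exists_hubs k hk1
  set N0 : ℝ := 2 * ((K : ℝ) + 1) ^ 5 with hN0
  have hN0' : 0 < N0 := by positivity
  refine ⟨N0 ^ 4 + (200 * N0 + 648 * K + 100 * ((K : ℝ) + 1) ^ 4), ?_⟩
  intro V _ G hS hK33 hmax
  set n : ℝ := (Fintype.card V : ℝ) with hn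
  have hn0 : 0 ≤ n := by rw [hn]; exact Nat.cast_nonneg _
  by_cases hsmall : n ≤ N0
  · have h1 : (T6 G : ℝ) ≤ n ^ 6 := by rw [hn]; exact_mod_cast T6_le_pow G
    have h2 : n ^ 6 ≤ N0 ^ 4 * n ^ 2 := by
      have : n ^ 4 ≤ N0 ^ 4 := pow_le_pow_left₀ hn0 hsmall 4
      nlinarith [sq_nonneg n]
    have h3 : 0 ≤ (200 * N0 + 648 * K + 100 * ((K : ℝ) + 1) ^ 4) * n ^ 2 := by positivity
    have h4 : 0 ≤ 12 * n ^ 3 := by positivity
    nlinarith
  · push Not at hsmall
    have hnpos : 0 < n := hN0'.trans hsmall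
    have hcard : 0 < Fintype.card V := by
      have : (0 : ℝ) < (Fintype.card V : ℝ) := hnpos
      exact_mod_cast this
    have hpr : (pr G univ univ).card ≤ 6 * Fintype.card V := by
      have := hS univ
      rwa [Finset.card_univ] at this
    obtain ⟨H, hHK, hH⟩ := hK G hpr
    have hHK' : (H.card : ℝ) ≤ K := by exact_mod_cast hHK
    have hH0 : (0 : ℝ) ≤ (H.card : ℝ) := Nat.cast_nonneg _
    -- degrees of small vertices
    have hdeg : ∀ v ∉ H, (nb G v).card ≤ Fintype.card V / k := by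
      intro v hv
      have h1 := hH {v} (Finset.disjoint_singleton_left.2 hv) (by rw [Finset.card_singleton]; omega)
      rw [Finset.sum_singleton] at h1
      rw [Nat.le_div_iff_mul_le (by omega)]
      linarith
    have hs12 : (s12 G H : ℝ) ≤ 216 * (n / k) * n ^ 2 := by
      have h1 := s12_le G hS H _ hdeg
      have h2 : (s12 G H : ℝ) ≤ 216 * ((Fintype.card V / k : ℕ) : ℝ) * n ^ 2 := by
        rw [hn]; exact_mod_cast h1
      refine h2.trans ?_
      have h3 : ((Fintype.card V / k : ℕ) : ℝ) ≤ n / k := by rw [hn]; exact Nat.cast_div_le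
      nlinarith [sq_nonneg n]
    have hbed := bed G hS hK33 H k hH
    have hdec := dec G hS H
    set S2 : ℝ := (∑ a ∈ H, ∑ b ∈ H.erase a, (n2 G H a b * ph G H a b : ℕ) : ℝ) with hS2
    set S1 : ℝ := (∑ a ∈ H, (n1 G H a * (tt G H a + gg G H a) : ℕ) : ℝ) with hS1
    have hbed' : (bb G H : ℝ) ≤ 2 * S2 + 4 * S1 + 6 * ((n0 G H * f0 G H : ℕ) : ℝ)
        + 648 * (H.card : ℝ) * n ^ 2 + 216 * n ^ 3 / k := by
      have h1 : (k : ℝ) * (bb G H : ℝ) ≤ (k : ℝ) * (2 * S2 + 4 * S1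
          + 6 * ((n0 G H * f0 G H : ℕ) : ℝ) + 648 * (H.card : ℝ) * n ^ 2) + 216 * n ^ 3 := by
        rw [hS2, hS1, hn]
        exact_mod_cast hbed
      have h2 : (bb G H : ℝ) ≤ ((k : ℝ) * (2 * S2 + 4 * S1
          + 6 * ((n0 G H * f0 G H : ℕ) : ℝ) + 648 * (H.card : ℝ) * n ^ 2) + 216 * n ^ 3) / k := by
        rw [le_div_iff₀ hk0]; linarith
      refine h2.trans (le_of_eq ?_)
      field_simp
    have hdec' : (T6 G : ℝ) ≤ (bb G H : ℝ) + 2 * (aa G H : ℝ) + 2 * (cc G H : ℝ)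
        + 2 * (s12 G H : ℝ) + 100 * ((H.card : ℝ) + 1) ^ 4 * n ^ 2 := by
      rw [hn]
      exact_mod_cast hdec
    have hsc := scaled G hK33 H (N0 / n) (1 - δ) hcard
      (by rw [div_le_one hnpos]; exact hsmall.le)
      (by
        rw [← hn, div_mul_cancel₀ _ hnpos.ne', hN0]
        have : ((H.card : ℝ) + 1) ^ 5 ≤ ((K : ℝ) + 1) ^ 5 :=
          pow_le_pow_left₀ (by linarith) (by linarith) 5
        linarith)
      (by linarith) (by linarith)
      (by
        intro a _ b _ hab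
        refine le_trans ?_ (hmax a b hab)
        have : mm G H a b ≤ (nb G a ∩ nb G b).card := Finset.card_le_card Finset.sdiff_subset
        exact_mod_cast this)
    rw [← hS2, ← hS1, ← hn] at hsc
    have h6 : 648 / (k : ℝ) ≤ 6 * δ := by
      rw [div_le_iff₀ hk0]
      rw [div_le_iff₀ hδ] at hk
      linarith
    have h7 : (3 * (1 + (1 - δ)) + 100 * (N0 / n)) * n ^ 3 = (6 - 3 * δ) * n ^ 3 + 100 * N0 * n ^ 2 := by
      field_simp
      ring
    rw [h7] at hsc
    have h8 : 216 * n ^ 3 / k + 2 * (216 * (n / k) * n ^ 2) = (648 / (k : ℝ)) * n ^ 3 := by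
      field_simp
      ring
    have h9 : (648 / (k : ℝ)) * n ^ 3 ≤ 6 * δ * n ^ 3 :=
      mul_le_mul_of_nonneg_right h6 (by positivity)
    have h10 : 648 * (H.card : ℝ) * n ^ 2 ≤ 648 * (K : ℝ) * n ^ 2 := by
      have : 0 ≤ n ^ 2 := by positivity
      nlinarith
    have h11 : 100 * ((H.card : ℝ) + 1) ^ 4 * n ^ 2 ≤ 100 * ((K : ℝ) + 1) ^ 4 * n ^ 2 := by
      have h12 : ((H.card : ℝ) + 1) ^ 4 ≤ ((K : ℝ) + 1) ^ 4 :=
        pow_le_pow_left₀ (by linarith) (by linarith) 4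
      have : 0 ≤ n ^ 2 := by positivity
      nlinarith
    have h13 : 0 ≤ N0 ^ 4 * n ^ 2 := by positivity
    have h14 : (N0 ^ 4 + (200 * N0 + 648 * K + 100 * ((K : ℝ) + 1) ^ 4)) * n ^ 2
        = N0 ^ 4 * n ^ 2 + 200 * N0 * n ^ 2 + 648 * K * n ^ 2 + 100 * ((K : ℝ) + 1) ^ 4 * n ^ 2 := by
      ring
    rw [h14]
    linarith

end

end Pool.Agent.Lib.MP_009d13_co.P5
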