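import Pool.Agent.Lib.MP_009d13_co.P5.MAD4
import Pool.Agent.Lib.MP_009d13_co.P5.K33
import Pool.Agent.Lib.MP_009d13_co.P5.COPY
import Pool.Agent.Lib.MP_009d13_co.P5.NEXT
import Pool.Agent.Lib.MP_009d13_co.P5.EXT

/-!
# Module FIN: the upper bound
-/

set_option autoImplicit false

namespace Pool.Agent.Lib.MP_009d13_co.P5

open Finset Classical

noncomputable section

/-! ### FIN -/
theorem T6_le : ∃ K : ℝ, 0 ≤ K ∧ ∀ {V : Type} [Fintype V] (G : SimpleGraph V), Sparse6 G →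
    NoK33m G → (T6 G : ℝ) ≤ 12 * (Fintype.card V : ℝ) ^ 3 + K * (Fintype.card V : ℝ) ^ 2 := by
  obtain ⟨δ, K1, hδ, hδ1, h1⟩ := extremal
  obtain ⟨K2, h2⟩ := nonextremal δ hδ hδ1
  refine ⟨max (max K1 K2) 0, le_max_right _ _, ?_⟩
  intro V _ G hS hK
  have hn : (0 : ℝ) ≤ (Fintype.card V : ℝ) ^ 2 := by positivity
  by_cases h : ∀ a b : V, a ≠ b → ((nb G a ∩ nb G b).card : ℝ) ≤ (1 - δ) * Fintype.card V
  · have h3 := h2 G hS hK h
    have h4 : K2 ≤ max (max K1 K2) 0 := (le_max_right _ _).trans (le_max_left _ _)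
    nlinarith
  · push Not at h
    obtain ⟨a, b, hab, h5⟩ := h
    have h3 := h1 G hS hK a b hab h5
    have h4 : K1 ≤ max (max K1 K2) 0 := (le_max_left _ _).trans (le_max_left _ _)
    nlinarith

theorem upper : ∃ K : ℝ, ∀ {V : Type} [Fintype V] (G : SimpleGraph V), IsPlanar G →
    (G.copyCount (SimpleGraph.pathGraph 6) : ℝ)
      ≤ 6 * (Fintype.card V : ℝ) ^ 3 + K * (Fintype.card V : ℝ) ^ 2 := by
  obtain ⟨K, _, h⟩ := T6_le
  refine ⟨K / 2, ?_⟩
  intro V _ G hG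
  have h1 := h G (sparse6_of_planar G hG) (noK33m_of_planar G hG)
  have h2 : 2 * (G.copyCount (SimpleGraph.pathGraph 6) : ℝ) ≤ (T6 G : ℝ) := by
    exact_mod_cast copy_le G
  linarith

end

end Pool.Agent.Lib.MP_009d13_co.P5
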