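import Pool.Agent.Lib.MP_009d13_co.P5.LowDefs

/-!
# The double fan is planar
-/

set_option autoImplicit false

namespace Pool.Agent.Lib.MP_009d13_co.P5

theorem bool5 : ∀ P : Fin 5 → Bool,
    (∀ a b c, a ≠ b → a ≠ c → b ≠ c → (P a = true ∨ P b = true ∨ P c = true)) →
    ∃ a b c, a ≠ b ∧ a ≠ c ∧ b ≠ c ∧ P a = true ∧ P b = true ∧ P c = true := by
  decide

theorem two_of_three (P : Fin 3 → Prop) :
    (∃ a b, a ≠ b ∧ P a ∧ P b) ∨ (∃ a b, a ≠ b ∧ ¬ P a ∧ ¬ P b) := by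
  by_cases h0 : P 0 <;> by_cases h1 : P 1
  · exact Or.inl ⟨0, 1, by decide, h0, h1⟩
  · by_cases h2 : P 2
    · exact Or.inl ⟨0, 2, by decide, h0, h2⟩
    · exact Or.inr ⟨1, 2, by decide, h1, h2⟩
  · by_cases h2 : P 2
    · exact Or.inl ⟨1, 2, by decide, h1, h2⟩
    · exact Or.inr ⟨0, 2, by decide, h0, h2⟩
  · exact Or.inr ⟨0, 1, by decide, h0, h1⟩

open Finset Classical

noncomputable section

theorem dfan_adj_big {n : ℕ} {x y : Fin n} (hx : 2 ≤ x.1) (hy : 2 ≤ y.1)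
    (h : (dfan n).Adj x y) : y.1 = x.1 + 1 ∨ x.1 = y.1 + 1 := by
  unfold dfan at h
  rw [SimpleGraph.fromRel_adj] at h
  obtain ⟨_, h | h⟩ := h <;> omega

theorem dfan_reach {n : ℕ} {S : Set (Fin n)} (hS : ∀ v ∈ S, 2 ≤ v.1) (k : ℕ)
    (hk : ∀ v ∈ S, v.1 ≠ k) {a b : S} (p : ((dfan n).induce S).Walk a b) (ha : a.1.1 < k) :
    b.1.1 < k := by
  induction p with
  | nil => exact ha
  | @cons u v w hadj p ih =>
    refine ih ?_
    have h1 : (dfan n).Adj u.1 v.1 := hadj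
    have h2 := dfan_adj_big (hS _ u.2) (hS _ v.2) h1
    have h3 := hk _ v.2
    omega

/-- a connected set of vertices of the path is an interval -/
theorem dfan_interval {n : ℕ} {S : Set (Fin n)} (hS : ∀ v ∈ S, 2 ≤ v.1)
    (hc : ((dfan n).induce S).Connected) :
    ∃ lo hi : ℕ, lo ≤ hi ∧ hi < n ∧ ∀ v : Fin n, v ∈ S ↔ lo ≤ v.1 ∧ v.1 ≤ hi := by
  classical
  obtain ⟨v0⟩ := hc.nonempty
  have hfin : (S.toFinset).Nonempty := ⟨v0.1, by simp⟩
  obtain ⟨a, ha, hamin⟩ := Finset.exists_min_image S.toFinset (fun v => v.1) hfin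
  obtain ⟨b, hb, hbmax⟩ := Finset.exists_max_image S.toFinset (fun v => v.1) hfin
  rw [Set.mem_toFinset] at ha hb
  refine ⟨a.1, b.1, hamin b (by simpa using hb), b.2, fun v => ⟨fun hv => ?_, fun hv => ?_⟩⟩
  · exact ⟨hamin v (by simpa using hv), hbmax v (by simpa using hv)⟩
  · by_contra hvS
    have h1 : a.1 ≠ v.1 := fun h => hvS (by rwa [← Fin.ext h])
    have h2 : b.1 ≠ v.1 := fun h => hvS (by rwa [← Fin.ext h])
    obtain ⟨p⟩ := hc.preconnected ⟨a, ha⟩ ⟨b, hb⟩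
    have h3 := dfan_reach hS v.1 (fun w hw h => hvS (by rwa [← Fin.ext h])) p (by
      show a.1 < v.1
      omega)
    have h4 : b.1 < v.1 := h3
    omega

theorem dfan_disj {n : ℕ} {S T : Set (Fin n)} {l h l' h' : ℕ} (hlh : l ≤ h) (hn : h < n)
    (hS : ∀ v : Fin n, v ∈ S ↔ l ≤ v.1 ∧ v.1 ≤ h) (hlh' : l' ≤ h')
    (hT : ∀ v : Fin n, v ∈ T ↔ l' ≤ v.1 ∧ v.1 ≤ h') (hd : Disjoint S T) :
    h < l' ∨ h' < l := by
  by_contra hcon
  push Not at hcon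
  have hm : max l l' < n := by omega
  refine Set.disjoint_left.mp hd ((hS ⟨max l l', hm⟩).mpr ⟨?_, ?_⟩)
    ((hT ⟨max l l', hm⟩).mpr ⟨?_, ?_⟩) <;> simp only <;> omega

theorem dfan_adjI {n : ℕ} {S T : Set (Fin n)} {l h l' h' : ℕ} (hS2 : ∀ v ∈ S, 2 ≤ v.1)
    (hT2 : ∀ v ∈ T, 2 ≤ v.1)
    (hS : ∀ v : Fin n, v ∈ S ↔ l ≤ v.1 ∧ v.1 ≤ h)
    (hT : ∀ v : Fin n, v ∈ T ↔ l' ≤ v.1 ∧ v.1 ≤ h')
    (hd : h < l' ∨ h' < l) (hadj : ∃ x ∈ S, ∃ y ∈ T, (dfan n).Adj x y) :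
    h + 1 = l' ∨ h' + 1 = l := by
  obtain ⟨x, hx, y, hy, hxy⟩ := hadj
  have h1 := dfan_adj_big (hS2 x hx) (hT2 y hy) hxy
  have h2 := (hS x).mp hx
  have h3 := (hT y).mp hy
  omega

/-- three disjoint sets contain one which avoids `0` and `1` -/
theorem dfan_good {n : ℕ} {W : Type*} (B : W → Set (Fin n))
    (hd : ∀ w w', w ≠ w' → Disjoint (B w) (B w')) {a b c : W} (hab : a ≠ b) (hac : a ≠ c)
    (hbc : b ≠ c) :
    (∀ v ∈ B a, 2 ≤ v.1) ∨ (∀ v ∈ B b, 2 ≤ v.1) ∨ (∀ v ∈ B c, 2 ≤ v.1) := by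
  by_contra hcon
  push Not at hcon
  obtain ⟨⟨x, hx, hx2⟩, ⟨y, hy, hy2⟩, ⟨z, hz, hz2⟩⟩ := hcon
  have h1 : x.1 ≠ y.1 := fun h => Set.disjoint_left.mp (hd a b hab) hx (by rwa [Fin.ext h])
  have h2 : x.1 ≠ z.1 := fun h => Set.disjoint_left.mp (hd a c hac) hx (by rwa [Fin.ext h])
  have h3 : y.1 ≠ z.1 := fun h => Set.disjoint_left.mp (hd b c hbc) hy (by rwa [Fin.ext h])
  omega

theorem dfan_planar (n : ℕ) : IsPlanar (dfan n) := by
  constructor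
  · rintro ⟨B, hc, hd, ha⟩
    have hI : ∀ w, ∃ lo hi : ℕ, (∀ v ∈ B w, 2 ≤ v.1) →
        (lo ≤ hi ∧ hi < n ∧ ∀ v : Fin n, v ∈ B w ↔ lo ≤ v.1 ∧ v.1 ≤ hi) := by
      intro w
      by_cases hw : ∀ v ∈ B w, 2 ≤ v.1
      · obtain ⟨lo, hi, h⟩ := dfan_interval hw (hc w)
        exact ⟨lo, hi, fun _ => h⟩
      · exact ⟨0, 0, fun h => absurd h hw⟩
    choose lo hi hI using hI
    have hF : ∀ w w', w ≠ w' → (∀ v ∈ B w, 2 ≤ v.1) → (∀ v ∈ B w', 2 ≤ v.1) →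
        lo w ≤ hi w ∧ lo w' ≤ hi w' ∧ (hi w < lo w' ∨ hi w' < lo w) := by
      intro w w' hne hw hw'
      obtain ⟨h1, h2, h3⟩ := hI w hw
      obtain ⟨h4, h5, h6⟩ := hI w' hw'
      exact ⟨h1, h4, dfan_disj h1 h2 h3 h4 h6 (hd w w' hne)⟩
    have hG : ∀ w w', w ≠ w' → (∀ v ∈ B w, 2 ≤ v.1) → (∀ v ∈ B w', 2 ≤ v.1) →
        (hi w + 1 = lo w' ∨ hi w' + 1 = lo w) := by
      intro w w' hne hw hw'
      exact dfan_adjI hw hw' (hI w hw).2.2 (hI w' hw').2.2 (hF w w' hne hw hw').2.2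
        (ha w w' hne)
    obtain ⟨a, b, c, hab, hac, hbc, pa, pb, pc⟩ := bool5
      (fun w => decide (∀ v ∈ B w, 2 ≤ v.1)) (fun a b c hab hac hbc => by
        simpa using dfan_good B hd hab hac hbc)
    simp only [decide_eq_true_eq] at pa pb pc
    have := hF a b hab pa pb
    have := hF a c hac pa pc
    have := hF b c hbc pb pc
    have := hG a b hab pa pb
    have := hG a c hac pa pc
    have := hG b c hbc pb pc
    omega
  · rintro ⟨B, hc, hd, ha⟩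
    have hI : ∀ w, ∃ lo hi : ℕ, (∀ v ∈ B w, 2 ≤ v.1) →
        (lo ≤ hi ∧ hi < n ∧ ∀ v : Fin n, v ∈ B w ↔ lo ≤ v.1 ∧ v.1 ≤ hi) := by
      intro w
      by_cases hw : ∀ v ∈ B w, 2 ≤ v.1
      · obtain ⟨lo, hi, h⟩ := dfan_interval hw (hc w)
        exact ⟨lo, hi, fun _ => h⟩
      · exact ⟨0, 0, fun h => absurd h hw⟩
    choose lo hi hI using hI
    have hF : ∀ w w', w ≠ w' → (∀ v ∈ B w, 2 ≤ v.1) → (∀ v ∈ B w', 2 ≤ v.1) →
        lo w ≤ hi w ∧ lo w' ≤ hi w' ∧ (hi w < lo w' ∨ hi w' < lo w) := by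
      intro w w' hne hw hw'
      obtain ⟨h1, h2, h3⟩ := hI w hw
      obtain ⟨h4, h5, h6⟩ := hI w' hw'
      exact ⟨h1, h4, dfan_disj h1 h2 h3 h4 h6 (hd w w' hne)⟩
    have hG : ∀ i j : Fin 3, (∀ v ∈ B (Sum.inl i), 2 ≤ v.1) → (∀ v ∈ B (Sum.inr j), 2 ≤ v.1) →
        (hi (Sum.inl i) + 1 = lo (Sum.inr j) ∨ hi (Sum.inr j) + 1 = lo (Sum.inl i)) := by
      intro i j hw hw'
      exact dfan_adjI hw hw' (hI _ hw).2.2 (hI _ hw').2.2 (hF _ _ (by simp) hw hw').2.2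
        (ha _ _ (by simp))
    -- three good sets on one side and one on the other side are impossible
    have hL : ∀ c, (∀ i, ∀ v ∈ B (Sum.inl i), 2 ≤ v.1) → (∀ v ∈ B (Sum.inr c), 2 ≤ v.1) →
        False := by
      intro c hp pc
      have := hF (Sum.inl 0) (Sum.inl 1) (by simp) (hp 0) (hp 1)
      have := hF (Sum.inl 0) (Sum.inl 2) (by simp) (hp 0) (hp 2)
      have := hF (Sum.inl 1) (Sum.inl 2) (by simp) (hp 1) (hp 2)
      have := hF (Sum.inl 0) (Sum.inr c) (by simp) (hp 0) pc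
      have := hG 0 c (hp 0) pc
      have := hG 1 c (hp 1) pc
      have := hG 2 c (hp 2) pc
      omega
    have hR : ∀ c, (∀ i, ∀ v ∈ B (Sum.inr i), 2 ≤ v.1) → (∀ v ∈ B (Sum.inl c), 2 ≤ v.1) →
        False := by
      intro c hp pc
      have := hF (Sum.inr 0) (Sum.inr 1) (by simp) (hp 0) (hp 1)
      have := hF (Sum.inr 0) (Sum.inr 2) (by simp) (hp 0) (hp 2)
      have := hF (Sum.inr 1) (Sum.inr 2) (by simp) (hp 1) (hp 2)
      have := hF (Sum.inr 0) (Sum.inl c) (by simp) (hp 0) pc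
      have := hG c 0 pc (hp 0)
      have := hG c 1 pc (hp 1)
      have := hG c 2 pc (hp 2)
      omega
    have hgL : ∃ c, ∀ v ∈ B (Sum.inl c), 2 ≤ v.1 := by
      rcases dfan_good B hd (a := Sum.inl 0) (b := Sum.inl 1) (c := Sum.inl 2)
        (by simp) (by simp) (by simp) with h | h | h <;> exact ⟨_, h⟩
    have hgR : ∃ c, ∀ v ∈ B (Sum.inr c), 2 ≤ v.1 := by
      rcases dfan_good B hd (a := Sum.inr 0) (b := Sum.inr 1) (c := Sum.inr 2)
        (by simp) (by simp) (by simp) with h | h | h <;> exact ⟨_, h⟩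
    rcases two_of_three (fun i => ∀ v ∈ B (Sum.inl i), 2 ≤ v.1) with
      ⟨a, b, hab, pa, pb⟩ | ⟨a, b, hab, pa, pb⟩
    · rcases two_of_three (fun i => ∀ v ∈ B (Sum.inr i), 2 ≤ v.1) with
        ⟨c, d, hcd, pc, pd⟩ | ⟨c, d, hcd, pc, pd⟩
      · have := hF (Sum.inl a) (Sum.inl b) (by simpa using hab) pa pb
        have := hF (Sum.inr c) (Sum.inr d) (by simpa using hcd) pc pd
        have := hG a c pa pc
        have := hG a d pa pd
        have := hG b c pb pc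
        have := hG b d pb pd
        omega
      · obtain ⟨e, he⟩ := hgR
        refine hL e (fun i => ?_) he
        rcases dfan_good B hd (a := Sum.inr c) (b := Sum.inr d) (c := Sum.inl i)
          (by simpa using hcd) (by simp) (by simp) with h | h | h
        · exact absurd h pc
        · exact absurd h pd
        · exact h
    · obtain ⟨e, he⟩ := hgL
      refine hR e (fun i => ?_) he
      rcases dfan_good B hd (a := Sum.inl a) (b := Sum.inl b) (c := Sum.inr i)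
        (by simpa using hab) (by simp) (by simp) with h | h | h
      · exact absurd h pa
      · exact absurd h pb
      · exact h

end

end Pool.Agent.Lib.MP_009d13_co.P5
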