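import Pool.Agent.Lib.MP_009d13_co.P5.LowDefs

/-!
# Module LOW2: the number of paths with five edges in the double fan
-/

set_option autoImplicit false

namespace Pool.Agent.Lib.MP_009d13_co.P5

open Finset Classical

noncomputable section

/-- the vertices of the path -/
def lS (n : ℕ) : Finset (Fin n) := univ.filter fun i => 2 ≤ i.1

/-- the ordered edges of the path -/
def lE (n : ℕ) : Finset (Fin n × Fin n) :=
  univ.filter fun e => 2 ≤ e.1.1 ∧ 2 ≤ e.2.1 ∧ (e.2.1 = e.1.1 + 1 ∨ e.1.1 = e.2.1 + 1)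

theorem card_lS (n : ℕ) (hn : 5 ≤ n) : (lS n).card = n - 2 := by
  have h1 : lS n = (univ.erase (⟨0, by omega⟩ : Fin n)).erase ⟨1, by omega⟩ := by
    ext i
    simp only [lS, Finset.mem_filter, Finset.mem_univ, true_and, Finset.mem_erase, ne_eq,
      and_true, Fin.ext_iff]
    omega
  rw [h1, Finset.card_erase_of_mem, Finset.card_erase_of_mem (Finset.mem_univ _),
    Finset.card_univ, Fintype.card_fin]
  · omega
  · rw [Finset.mem_erase]
    exact ⟨by simp [Fin.ext_iff], Finset.mem_univ _⟩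

theorem card_lE (n : ℕ) (hn : 5 ≤ n) : 2 * (n - 3) ≤ (lE n).card := by
  have h1 : (univ : Finset (Bool × Fin (n - 3))).card ≤ (lE n).card := by
    apply Finset.card_le_card_of_injOn (fun p : Bool × Fin (n - 3) =>
      if p.1 = true then ((⟨p.2.1 + 2, by omega⟩ : Fin n), (⟨p.2.1 + 3, by omega⟩ : Fin n))
      else ((⟨p.2.1 + 3, by omega⟩ : Fin n), (⟨p.2.1 + 2, by omega⟩ : Fin n)))
    · rintro ⟨c, k⟩ _
      rw [Finset.mem_coe]
      simp only [lE, Finset.mem_filter, Finset.mem_univ, true_and]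
      cases c <;> simp
    · rintro ⟨c, k⟩ _ ⟨c', k'⟩ _ h
      cases c <;> cases c' <;> simp [Fin.ext_iff] at h ⊢ <;> omega
  rw [Finset.card_univ, Fintype.card_prod, Fintype.card_bool, Fintype.card_fin] at h1
  exact h1

/-- the parameters of the paths -/
def lP (n : ℕ) : Finset (Σ _ : Fin n × Fin n, Fin n × Fin n) :=
  (lE n).sigma fun e => (((lS n).erase e.1).erase e.2).offDiag

theorem card_lP (n : ℕ) (hn : 5 ≤ n) : 2 * ((n - 3) * ((n - 4) * (n - 5))) ≤ (lP n).card := by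
  unfold lP
  rw [Finset.card_sigma]
  have h1 : ∀ e ∈ lE n, (n - 4) * (n - 5)
      ≤ ((((lS n).erase e.1).erase e.2).offDiag).card := by
    intro e he
    simp only [lE, Finset.mem_filter, Finset.mem_univ, true_and] at he
    have h2 : e.1 ∈ lS n := by
      simp only [lS, Finset.mem_filter, Finset.mem_univ, true_and]
      exact he.1
    have h3 : e.2 ∈ (lS n).erase e.1 := by
      rw [Finset.mem_erase]
      refine ⟨?_, ?_⟩
      · intro h
        rw [h] at he
        omega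
      · simp only [lS, Finset.mem_filter, Finset.mem_univ, true_and]
        exact he.2.1
    have h4 : (((lS n).erase e.1).erase e.2).card = n - 4 := by
      rw [Finset.card_erase_of_mem h3, Finset.card_erase_of_mem h2, card_lS n hn]
      omega
    rw [Finset.offDiag_card, h4]
    have h5 : n - 4 = (n - 5) + 1 := by omega
    rw [h5]
    apply le_of_eq
    have : ((n - 5) + 1) * ((n - 5) + 1) = ((n - 5) + 1) * (n - 5) + ((n - 5) + 1) := by ring
    omega
  have h2 := Finset.card_nsmul_le_sum (lE n) _ _ h1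
  rw [smul_eq_mul] at h2
  refine le_trans ?_ h2
  rw [← mul_assoc]
  exact Nat.mul_le_mul_right _ (card_lE n hn)

/-- the paths -/
def lF {n : ℕ} (a b : Fin n) (p : Fin 3 × Bool × (Σ _ : Fin n × Fin n, Fin n × Fin n)) :
    Six (Fin n) :=
  let a' := if p.2.1 = true then a else b
  let b' := if p.2.1 = true then b else a
  let z := p.2.2.1.1
  let z' := p.2.2.1.2
  let x := p.2.2.2.1
  let y := p.2.2.2.2
  if p.1 = 0 then (x, a', y, b', z, z') else if p.1 = 1 then (z', z, b', y, a', x)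
  else (x, a', z, z', b', y)

theorem dfan_hub {n : ℕ} {i j : Fin n} (hi : i.1 < 2) (hj : 2 ≤ j.1) : (dfan n).Adj i j := by
  unfold dfan
  rw [SimpleGraph.fromRel_adj]
  refine ⟨?_, Or.inl (Or.inl ⟨hi, hj⟩)⟩
  rintro rfl
  omega

theorem dfan_edge {n : ℕ} {i j : Fin n} (hi : 2 ≤ i.1) (hj : 2 ≤ j.1)
    (h : j.1 = i.1 + 1 ∨ i.1 = j.1 + 1) : (dfan n).Adj i j := by
  unfold dfan
  rw [SimpleGraph.fromRel_adj]
  refine ⟨?_, ?_⟩
  · rintro rfl
    omega
  · rcases h with h | h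
    · exact Or.inl (Or.inr ⟨hi, h⟩)
    · exact Or.inr (Or.inr ⟨hj, h⟩)

theorem mem_lP {n : ℕ} {p : Σ _ : Fin n × Fin n, Fin n × Fin n} (hp : p ∈ lP n) :
    2 ≤ p.1.1.1 ∧ 2 ≤ p.1.2.1 ∧ (p.1.2.1 = p.1.1.1 + 1 ∨ p.1.1.1 = p.1.2.1 + 1) ∧
      2 ≤ p.2.1.1 ∧ 2 ≤ p.2.2.1 ∧ p.2.1 ≠ p.2.2 ∧ p.2.1 ≠ p.1.1 ∧ p.2.1 ≠ p.1.2 ∧
      p.2.2 ≠ p.1.1 ∧ p.2.2 ≠ p.1.2 := by
  simp only [lP, Finset.mem_sigma, lE, Finset.mem_filter, Finset.mem_univ, true_and,
    Finset.mem_offDiag, Finset.mem_erase, lS] at hp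
  obtain ⟨⟨h1, h2, h3⟩, ⟨h4, h5, h6⟩, ⟨h7, h8, h9⟩, h10⟩ := hp
  exact ⟨h1, h2, h3, h6, h9, h10, h5, h4, h8, h7⟩

theorem six_le (n : ℕ) (hn : 5 ≤ n) : 6 * (lP n).card ≤ T6 (dfan n) := by
  have h0 : (univ ×ˢ (univ ×ˢ lP n) :
      Finset (Fin 3 × Bool × (Σ _ : Fin n × Fin n, Fin n × Fin n))).card ≤ T6 (dfan n) := by
    unfold T6
    apply Finset.card_le_card_of_injOn
      (lF (⟨0, by omega⟩ : Fin n) (⟨1, by omega⟩ : Fin n))
    · rintro ⟨i, c, p⟩ hp
      rw [Finset.mem_coe, Finset.mem_product, Finset.mem_product] at hp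
      obtain ⟨h1, h2, h3, h4, h5, h6, h7, h8, h9, h10⟩ := mem_lP hp.2.2
      rw [Finset.mem_coe, Finset.mem_filter]
      refine ⟨Finset.mem_univ _, ?_⟩
      obtain ⟨⟨z, z'⟩, x, y⟩ := p
      dsimp only at h1 h2 h3 h4 h5 h6 h7 h8 h9 h10
      have hzz : z ≠ z' := by
        rintro rfl
        omega
      have e1 : ∀ v : Fin n, 2 ≤ v.1 → v ≠ (⟨0, by omega⟩ : Fin n) ∧ v ≠ (⟨1, by omega⟩ : Fin n) := by
        intro v hv
        simp only [ne_eq, Fin.ext_iff]
        omega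
      have a0 : ((⟨0, by omega⟩ : Fin n)).1 < 2 := by simp
      have a1 : ((⟨1, by omega⟩ : Fin n)).1 < 2 := by simp
      have ex := e1 x h4
      have ey := e1 y h5
      have ez := e1 z h1
      have ez' := e1 z' h2
      have ea : (⟨0, by omega⟩ : Fin n) ≠ (⟨1, by omega⟩ : Fin n) := by simp [Fin.ext_iff]
      have ed := dfan_edge h1 h2 h3
      have d0 : ∀ v : Fin n, 2 ≤ v.1 → (dfan n).Adj (⟨0, by omega⟩ : Fin n) v := fun v hv =>
        dfan_hub a0 hv
      have d1 : ∀ v : Fin n, 2 ≤ v.1 → (dfan n).Adj (⟨1, by omega⟩ : Fin n) v := fun v hv =>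
        dfan_hub a1 hv
      fin_cases i <;> cases c <;>
        simp only [lF, IsPath6, List.nodup_cons, List.mem_cons, List.not_mem_nil, or_false,
          not_or, List.nodup_nil, and_true, not_false_eq_true, Fin.mk_zero, Fin.mk_one,
          Fin.reduceFinMk, Fin.reduceEq, if_true, if_false, Bool.false_eq_true, reduceIte,
          one_ne_zero, Fin.isValue, Fin.zero_eta] <;>
        refine ⟨?_, ?_, ?_, ?_, ?_, ?_⟩ <;>
        first
          | exact d0 _ ‹_›
          | exact d1 _ ‹_›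
          | exact (d0 _ ‹_›).symm
          | exact (d1 _ ‹_›).symm
          | exact ed
          | exact ed.symm
          | simp [ex.1, ex.2, ey.1, ey.2, ez.1, ez.2, ez'.1, ez'.2, ex.1.symm, ex.2.symm,
              ey.1.symm, ey.2.symm, ez.1.symm, ez.2.symm, ez'.1.symm, ez'.2.symm, ea, ea.symm,
              h6, h7, h8, h9, h10, hzz, h6.symm, h7.symm, h8.symm, h9.symm, h10.symm, hzz.symm]
    · rintro ⟨i, c, p⟩ hp ⟨i', c', p'⟩ hp' h
      rw [Finset.mem_coe, Finset.mem_product, Finset.mem_product] at hp hp'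
      obtain ⟨h1, h2, h3, h4, h5, h6, h7, h8, h9, h10⟩ := mem_lP hp.2.2
      obtain ⟨k1, k2, k3, k4, k5, k6, k7, k8, k9, k10⟩ := mem_lP hp'.2.2
      obtain ⟨⟨z, z'⟩, x, y⟩ := p
      obtain ⟨⟨w, w'⟩, u, v⟩ := p'
      dsimp only at h1 h2 h4 h5 k1 k2 k4 k5
      clear hp hp' h3 h6 h7 h8 h9 h10 k3 k6 k7 k8 k9 k10
      fin_cases i <;> fin_cases i' <;> cases c <;> cases c' <;>
        simp [lF, Fin.ext_iff] at h ⊢ <;> omega
  rw [Finset.card_product, Finset.card_product, Finset.card_univ, Finset.card_univ,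
    Fintype.card_fin, Fintype.card_bool] at h0
  linarith

theorem T6_dfan (n : ℕ) : 12 * n ^ 3 ≤ T6 (dfan n) + 144 * n ^ 2 := by
  by_cases hn : 5 ≤ n
  · have h1 := six_le n hn
    have h2 := card_lP n hn
    have h3 : 12 * ((n - 3) * ((n - 4) * (n - 5))) ≤ T6 (dfan n) := by linarith
    obtain ⟨m, rfl⟩ : ∃ m, n = m + 5 := ⟨n - 5, by omega⟩
    have h4 : m + 5 - 3 = m + 2 := by omega
    have h5 : m + 5 - 4 = m + 1 := by omega
    have h6 : m + 5 - 5 = m := by omega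
    rw [h4, h5, h6] at h3
    nlinarith
  · have h1 : n ≤ 12 := by omega
    have h2 : 12 * n ^ 3 ≤ 144 * n ^ 2 := by
      calc 12 * n ^ 3 = 12 * n * n ^ 2 := by ring
        _ ≤ 12 * 12 * n ^ 2 := by
          apply Nat.mul_le_mul_right
          omega
        _ = _ := by ring
    omega

end

end Pool.Agent.Lib.MP_009d13_co.P5
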