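import Pool.Agent.Lib.MP_009d13_co.P5.Defs2

/-!
# The double fan
-/

set_option autoImplicit false

namespace Pool.Agent.Lib.MP_009d13_co.P5

/-- The double fan: the vertices `0` and `1` are joined to all the others, the others form a path. -/
def dfan (n : ℕ) : SimpleGraph (Fin n) :=
  SimpleGraph.fromRel fun i j => (i.1 < 2 ∧ 2 ≤ j.1) ∨ (2 ≤ i.1 ∧ j.1 = i.1 + 1)

end Pool.Agent.Lib.MP_009d13_co.P5
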