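import Pool.Agent.Lib.MP_009d13_co.P5.Defs2

/-!
# Minors: monotonicity, induced subgraphs, contraction of an edge
-/

set_option autoImplicit false

namespace Pool.Agent.Lib.MP_009d13_co.P5

open Finset Classical

noncomputable section

theorem minor_mono {V W : Type} {H : SimpleGraph W} {G G' : SimpleGraph V} (hG : G ≤ G')
    (h : IsMinor H G) : IsMinor H G' := by
  obtain ⟨B, h1, h2, h3⟩ := h
  refine ⟨B, fun w => (h1 w).mono ?_, h2, fun w w' hw => ?_⟩
  · intro a b hab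
    exact hG hab
  · obtain ⟨x, hx, y, hy, hxy⟩ := h3 w w' hw
    exact ⟨x, hx, y, hy, hG hxy⟩

theorem minor_of_induce {V W : Type} {H : SimpleGraph W} {G : SimpleGraph V} {S : Set V}
    (h : IsMinor H (G.induce S)) : IsMinor H G := by
  obtain ⟨B, h1, h2, h3⟩ := h
  refine ⟨fun w => Subtype.val '' B w, fun w => ?_, fun w w' hw => ?_, fun w w' hw => ?_⟩
  · let f : (G.induce S).induce (B w) →g G.induce (Subtype.val '' B w) :=
      { toFun := fun v => ⟨v.1.1, v.1, v.2, rfl⟩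
        map_rel' := by
          intro a b hab
          exact hab }
    refine (h1 w).map f ?_
    rintro ⟨_, v, hv, rfl⟩
    exact ⟨⟨v, hv⟩, rfl⟩
  · have := h2 w w' hw
    exact (Set.disjoint_image_iff Subtype.val_injective).2 this
  · obtain ⟨x, hx, y, hy, hxy⟩ := h3 w w' hw
    exact ⟨x.1, ⟨x, hx, rfl⟩, y.1, ⟨y, hy, rfl⟩, hxy⟩

theorem minor_of_ct {V W : Type} {H : SimpleGraph W} {G : SimpleGraph V} {x y : V}
    (hxy : G.Adj x y) (h : IsMinor H (ct G x y)) : IsMinor H G := by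
  obtain ⟨B, h1, h2, h3⟩ := h
  have hxy' : x ≠ y := hxy.ne
  let x' : {v : V // v ≠ y} := ⟨x, hxy'⟩
  let B' : W → Set V := fun w => {v | (∃ h : v ≠ y, (⟨v, h⟩ : {v : V // v ≠ y}) ∈ B w) ∨
    (v = y ∧ x' ∈ B w)}
  have hB' : ∀ w (v : {v : V // v ≠ y}), v ∈ B w → v.1 ∈ B' w := fun w v hv =>
    Or.inl ⟨v.2, hv⟩
  have hBy : ∀ w, x' ∈ B w → y ∈ B' w := fun w hw => Or.inr ⟨rfl, hw⟩
  refine ⟨B', fun w => ?_, fun w w' hw => ?_, fun w w' hw => ?_⟩
  · -- connectedness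
    have key : ∀ u v : (B w), ((ct G x y).induce (B w)).Adj u v →
        (G.induce (B' w)).Reachable ⟨u.1.1, hB' w u.1 u.2⟩ ⟨v.1.1, hB' w v.1 v.2⟩ := by
      intro u v huv
      have huv' : (ct G x y).Adj u.1 v.1 := huv
      rw [ct, SimpleGraph.fromRel_adj] at huv'
      obtain ⟨hne, huv'⟩ := huv'
      have aux : ∀ (u v : (B w)), (G.Adj u.1.1 v.1.1 ∨ (u.1.1 = x ∧ G.Adj y v.1.1)) →
          (G.induce (B' w)).Reachable ⟨u.1.1, hB' w u.1 u.2⟩ ⟨v.1.1, hB' w v.1 v.2⟩ := by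
        intro u v h
        rcases h with h | ⟨h, h'⟩
        · exact SimpleGraph.Adj.reachable (G := G.induce (B' w)) h
        · have hx' : x' ∈ B w := by
            have : x' = u.1 := Subtype.ext h.symm
            rw [this]; exact u.2
          have e1 : (G.induce (B' w)).Adj ⟨u.1.1, hB' w u.1 u.2⟩ ⟨y, hBy w hx'⟩ := by
            show G.Adj u.1.1 y
            rw [h]; exact hxy
          have e2 : (G.induce (B' w)).Adj ⟨y, hBy w hx'⟩ ⟨v.1.1, hB' w v.1 v.2⟩ := h'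
          exact e1.reachable.trans e2.reachable
      rcases huv' with h | h
      · exact aux u v h
      · exact (aux v u h).symm
    have key2 : ∀ u v : (B w),
        (G.induce (B' w)).Reachable ⟨u.1.1, hB' w u.1 u.2⟩ ⟨v.1.1, hB' w v.1 v.2⟩ := by
      intro u v
      obtain ⟨p⟩ := (h1 w).preconnected u v
      induction p with
      | nil => exact SimpleGraph.Reachable.refl _
      | cons h p ih => exact (key _ _ h).trans ih
    have := (h1 w).nonempty
    obtain ⟨u0⟩ : Nonempty (B w) := this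
    have key3 : ∀ v : (B' w), (G.induce (B' w)).Reachable ⟨u0.1.1, hB' w u0.1 u0.2⟩ v := by
      rintro ⟨v, hv⟩
      rcases hv with ⟨hvy, hv⟩ | ⟨hvy, hv⟩
      · exact key2 u0 ⟨⟨v, hvy⟩, hv⟩
      · subst hvy
        have e1 : (G.induce (B' w)).Adj ⟨x, hB' w x' hv⟩ ⟨v, hBy w hv⟩ := hxy
        exact (key2 u0 ⟨x', hv⟩).trans e1.reachable
    have : Nonempty (B' w) := ⟨⟨u0.1.1, hB' w u0.1 u0.2⟩⟩
    exact SimpleGraph.Connected.mk fun a b => (key3 a).symm.trans (key3 b)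
  · -- disjointness
    rw [Set.disjoint_left]
    have hd := Set.disjoint_left.1 (h2 w w' hw)
    rintro v (⟨hvy, hv⟩ | ⟨hvy, hv⟩) (⟨hvy', hv'⟩ | ⟨hvy', hv'⟩)
    · exact hd hv hv'
    · exact hvy hvy'
    · exact hvy' hvy
    · exact hd hv hv'
  · -- edges
    obtain ⟨u, hu, v, hv, huv⟩ := h3 w w' hw
    rw [ct, SimpleGraph.fromRel_adj] at huv
    obtain ⟨-, (h | ⟨h, h'⟩) | (h | ⟨h, h'⟩)⟩ := huv
    · exact ⟨u.1, hB' w u hu, v.1, hB' w' v hv, h⟩
    · have hx' : x' ∈ B w := by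
        have : x' = u := Subtype.ext h.symm
        rw [this]; exact hu
      exact ⟨y, hBy w hx', v.1, hB' w' v hv, h'⟩
    · exact ⟨u.1, hB' w u hu, v.1, hB' w' v hv, h.symm⟩
    · have hx' : x' ∈ B w' := by
        have : x' = v := Subtype.ext h.symm
        rw [this]; exact hv
      exact ⟨u.1, hB' w u hu, y, hBy w' hx', h'.symm⟩

end

end Pool.Agent.Lib.MP_009d13_co.P5
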